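import Mathlib

/-! The algebra of operators preserving a twisted copy of `K × K`, abstract version. -/

open Filter Topology
open scoped InnerProductSpace

namespace TransAlg

section

variable {H : Type} [NormedAddCommGroup H] [InnerProductSpace ℂ H] [CompleteSpace H]

/-- Data: a closed subspace `K` and four commuting operators forming a unitary matrix
`Θ = [[a, -b'],[b, a']]`, `Θ* = [[a', b'],[-b, a]]`. -/
structure Twist (H : Type) [NormedAddCommGroup H] [InnerProductSpace ℂ H] where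
  K : Submodule ℂ H
  hK : IsClosed (K : Set H)
  a : H →L[ℂ] H
  b : H →L[ℂ] H
  a' : H →L[ℂ] H
  b' : H →L[ℂ] H
  hab : ∀ x, a (b x) = b (a x)
  haa : ∀ x, a (a' x) = a' (a x)
  hab' : ∀ x, a (b' x) = b' (a x)
  hba' : ∀ x, b (a' x) = a' (b x)
  hbb' : ∀ x, b (b' x) = b' (b x)
  ha'b' : ∀ x, a' (b' x) = b' (a' x)
  one : ∀ x, a' (a x) + b' (b x) = x

namespace Twist

variable (W : Twist H)

/-- the condition defining the algebra -/
def Mem (T : H →L[ℂ] H) : Prop :=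
  ∀ h₁ ∈ W.K, ∀ h₂ ∈ W.K,
    W.a' (T (W.a h₁ - W.b' h₂)) + W.b' (T (W.b h₁ + W.a' h₂)) ∈ W.K ∧
    W.a (T (W.b h₁ + W.a' h₂)) - W.b (T (W.a h₁ - W.b' h₂)) ∈ W.K

theorem fwd1 (f₁ f₂ : H) :
    W.a (W.a' f₁ + W.b' f₂) - W.b' (W.a f₂ - W.b f₁) = f₁ := by
  have h1 := W.one f₁
  rw [map_add, map_sub, W.haa, W.hab', ← W.hbb', W.hbb']
  calc W.a' (W.a f₁) + W.b' (W.a f₂) - (W.b' (W.a f₂) - W.b' (W.b f₁))
      = W.a' (W.a f₁) + W.b' (W.b f₁) := by abel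
    _ = f₁ := h1

theorem fwd2 (f₁ f₂ : H) :
    W.b (W.a' f₁ + W.b' f₂) + W.a' (W.a f₂ - W.b f₁) = f₂ := by
  have h1 := W.one f₂
  rw [map_add, map_sub, W.hba', W.hbb']
  calc W.a' (W.b f₁) + W.b' (W.b f₂) + (W.a' (W.a f₂) - W.a' (W.b f₁))
      = W.a' (W.a f₂) + W.b' (W.b f₂) := by abel
    _ = f₂ := h1

theorem inv1 (h₁ h₂ : H) :
    W.a' (W.a h₁ - W.b' h₂) + W.b' (W.b h₁ + W.a' h₂) = h₁ := by
  have h1 := W.one h₁
  rw [map_sub, map_add, W.ha'b']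
  calc W.a' (W.a h₁) - W.b' (W.a' h₂) + (W.b' (W.b h₁) + W.b' (W.a' h₂))
      = W.a' (W.a h₁) + W.b' (W.b h₁) := by abel
    _ = h₁ := h1

theorem inv2 (h₁ h₂ : H) :
    W.a (W.b h₁ + W.a' h₂) - W.b (W.a h₁ - W.b' h₂) = h₂ := by
  have h1 := W.one h₂
  rw [map_sub, map_add, W.haa, W.hab, W.hbb']
  calc W.b (W.a h₁) + W.a' (W.a h₂) - (W.b (W.a h₁) - W.b' (W.b h₂))
      = W.a' (W.a h₂) + W.b' (W.b h₂) := by abel
    _ = h₂ := h1

/-- the algebra of all `T` with `(T ⊕ T)(Θ(K ⊕ K)) ⊆ Θ(K ⊕ K)` -/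
def alg : Subalgebra ℂ (H →L[ℂ] H) where
  carrier := {T | W.Mem T}
  mul_mem' := by
    intro S T hS hT h₁ hh₁ h₂ hh₂
    obtain ⟨k1, k2⟩ := hT h₁ hh₁ h₂ hh₂
    have h3 := hS _ k1 _ k2
    rw [W.fwd1, W.fwd2] at h3
    exact h3
  one_mem' := by
    intro h₁ hh₁ h₂ hh₂
    rw [ContinuousLinearMap.one_apply, ContinuousLinearMap.one_apply, W.inv1, W.inv2]
    exact ⟨hh₁, hh₂⟩
  add_mem' := by
    intro S T hS hT h₁ hh₁ h₂ hh₂
    obtain ⟨s1, s2⟩ := hS h₁ hh₁ h₂ hh₂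
    obtain ⟨t1, t2⟩ := hT h₁ hh₁ h₂ hh₂
    constructor
    · have := W.K.add_mem s1 t1
      convert this using 1
      simp only [ContinuousLinearMap.add_apply, map_add]
      abel
    · have := W.K.add_mem s2 t2
      convert this using 1
      simp only [ContinuousLinearMap.add_apply, map_add]
      abel
  zero_mem' := by
    intro h₁ hh₁ h₂ hh₂
    simp
  algebraMap_mem' := by
    intro r h₁ hh₁ h₂ hh₂
    have e1 : ∀ x : H, (algebraMap ℂ (H →L[ℂ] H) r) x = r • x := by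
      intro x
      rw [Algebra.algebraMap_eq_smul_one]; rfl
    rw [e1, e1]
    have i1 := W.inv1 h₁ h₂
    have i2 := W.inv2 h₁ h₂
    constructor
    · rw [map_smul, map_smul, ← smul_add, i1]
      exact W.K.smul_mem _ hh₁
    · rw [map_smul, map_smul, ← smul_sub, i2]
      exact W.K.smul_mem _ hh₂

theorem mem_alg {T : H →L[ℂ] H} : T ∈ W.alg ↔ W.Mem T := Iff.rfl

/-- an operator commuting with the entries of `Θ` is in the algebra iff it preserves `K` -/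
theorem mem_alg_of_commute {T : H →L[ℂ] H} (h1 : ∀ x, T (W.a x) = W.a (T x))
    (h2 : ∀ x, T (W.b x) = W.b (T x)) (h3 : ∀ x, T (W.a' x) = W.a' (T x))
    (h4 : ∀ x, T (W.b' x) = W.b' (T x)) :
    T ∈ W.alg ↔ ∀ h ∈ W.K, T h ∈ W.K := by
  have key : ∀ k₁ k₂ : H, W.a' (T (W.a k₁ - W.b' k₂)) + W.b' (T (W.b k₁ + W.a' k₂)) = T k₁ ∧
      W.a (T (W.b k₁ + W.a' k₂)) - W.b (T (W.a k₁ - W.b' k₂)) = T k₂ := by
    intro k₁ k₂
    have e1 : T (W.a k₁ - W.b' k₂) = W.a (T k₁) - W.b' (T k₂) := by rw [map_sub, h1, h4]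
    have e2 : T (W.b k₁ + W.a' k₂) = W.b (T k₁) + W.a' (T k₂) := by rw [map_add, h2, h3]
    rw [e1, e2]
    exact ⟨W.inv1 _ _, W.inv2 _ _⟩
  rw [mem_alg]
  constructor
  · intro h x hx
    have := (h x hx 0 W.K.zero_mem).1
    rwa [(key x 0).1] at this
  · intro h k₁ hk₁ k₂ hk₂
    rw [(key k₁ k₂).1, (key k₁ k₂).2]
    exact ⟨h k₁ hk₁, h k₂ hk₂⟩

theorem isClosed_alg : IsClosed {T : H →WOT[ℂ] H | T.toCLM ∈ W.alg} := by
  have hmem : ∀ x : H, x ∈ W.K ↔ ∀ y ∈ W.Kᗮ, ⟪y, x⟫_ℂ = 0 := by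
    intro x
    have : CompleteSpace W.K := W.hK.completeSpace_coe
    constructor
    · intro hx y hy
      exact Submodule.inner_left_of_mem_orthogonal hx hy
    · intro h
      have h2 : x ∈ W.Kᗮᗮ := (Submodule.mem_orthogonal _ _).2 h
      rwa [Submodule.orthogonal_orthogonal] at h2
  have hset : {T : H →WOT[ℂ] H | T.toCLM ∈ W.alg} =
      ⋂ h₁ ∈ W.K, ⋂ h₂ ∈ W.K, ⋂ y ∈ W.Kᗮ,
        ({T : H →WOT[ℂ] H | ⟪y, W.a' (T (W.a h₁ - W.b' h₂))
            + W.b' (T (W.b h₁ + W.a' h₂))⟫_ℂ = 0} ∩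
         {T : H →WOT[ℂ] H | ⟪y, W.a (T (W.b h₁ + W.a' h₂))
            - W.b (T (W.a h₁ - W.b' h₂))⟫_ℂ = 0}) := by
    ext T
    simp only [Set.mem_setOf_eq, Set.mem_iInter, Set.mem_inter_iff]
    constructor
    · intro hT h₁ hh₁ h₂ hh₂ y hy
      obtain ⟨k1, k2⟩ := hT h₁ hh₁ h₂ hh₂
      exact ⟨(hmem _).1 k1 y hy, (hmem _).1 k2 y hy⟩
    · intro hT h₁ hh₁ h₂ hh₂
      exact ⟨(hmem _).2 fun y hy => (hT h₁ hh₁ h₂ hh₂ y hy).1,
        (hmem _).2 fun y hy => (hT h₁ hh₁ h₂ hh₂ y hy).2⟩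
  rw [hset]
  refine isClosed_biInter fun h₁ _ => isClosed_biInter fun h₂ _ => isClosed_biInter fun y _ => ?_
  have hc : ∀ (C : H →L[ℂ] H) (x : H),
      Continuous fun T : H →WOT[ℂ] H => ⟪y, C (T x)⟫_ℂ := by
    intro C x
    exact ContinuousLinearMapWOT.continuous_dual_apply x ((innerSL ℂ y) ∘L C)
  apply IsClosed.inter
  · have : Continuous fun T : H →WOT[ℂ] H => ⟪y, W.a' (T (W.a h₁ - W.b' h₂))
            + W.b' (T (W.b h₁ + W.a' h₂))⟫_ℂ := by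
      simp only [inner_add_right]
      exact (hc _ _).add (hc _ _)
    exact isClosed_eq this continuous_const
  · have : Continuous fun T : H →WOT[ℂ] H => ⟪y, W.a (T (W.b h₁ + W.a' h₂))
            - W.b (T (W.a h₁ - W.b' h₂))⟫_ℂ := by
      simp only [inner_sub_right]
      exact (hc _ _).sub (hc _ _)
    exact isClosed_eq this continuous_const

end Twist

end

end TransAlg
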