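import Mathlib

open MeasureTheory AddCircle Complex Filter Topology
open scoped ENNReal ComplexConjugate

namespace TransAlg

theorem memLp_mul_of_norm_le_one {e : AddCircle (1 : ℝ) → ℂ} (he : Measurable e) (h1 : ∀ x, ‖e x‖ ≤ 1)
    (f : Lp ℂ 2 (haarAddCircle (T := 1))) : MemLp (fun x => e x * (f : AddCircle (1 : ℝ) → ℂ) x) 2 (haarAddCircle (T := 1)) := by
  refine (Lp.memLp f).of_le (he.aestronglyMeasurable.mul (Lp.aestronglyMeasurable f)) ?_
  filter_upwards with x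
  rw [norm_mul]
  calc ‖e x‖ * ‖(f : AddCircle (1 : ℝ) → ℂ) x‖ ≤ 1 * ‖(f : AddCircle (1 : ℝ) → ℂ) x‖ := by gcongr; exact h1 x
    _ = ‖(f : AddCircle (1 : ℝ) → ℂ) x‖ := one_mul _

/-- multiplication by a measurable function bounded by one -/
theorem exists_mulOp (e : AddCircle (1 : ℝ) → ℂ) (he : Measurable e) (h1 : ∀ x, ‖e x‖ ≤ 1) :
    ∃ W : Lp ℂ 2 (haarAddCircle (T := 1)) →L[ℂ] Lp ℂ 2 (haarAddCircle (T := 1)), ∀ f : Lp ℂ 2 (haarAddCircle (T := 1)),
      (W f : AddCircle (1 : ℝ) → ℂ) =ᵐ[haarAddCircle (T := 1)] fun x => e x * (f : AddCircle (1 : ℝ) → ℂ) x := by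
  let L : Lp ℂ 2 (haarAddCircle (T := 1)) →ₗ[ℂ] Lp ℂ 2 (haarAddCircle (T := 1)) :=
    { toFun := fun f => (memLp_mul_of_norm_le_one he h1 f).toLp _
      map_add' := by
        intro f g
        apply Lp.ext
        filter_upwards [(memLp_mul_of_norm_le_one he h1 (f + g)).coeFn_toLp,
          (memLp_mul_of_norm_le_one he h1 f).coeFn_toLp,
          (memLp_mul_of_norm_le_one he h1 g).coeFn_toLp, Lp.coeFn_add f g,
          Lp.coeFn_add ((memLp_mul_of_norm_le_one he h1 f).toLp _)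
            ((memLp_mul_of_norm_le_one he h1 g).toLp _)] with x a1 a2 a3 a4 a5
        rw [a1, a5, Pi.add_apply, a2, a3, a4, Pi.add_apply, mul_add]
      map_smul' := by
        intro c f
        apply Lp.ext
        filter_upwards [(memLp_mul_of_norm_le_one he h1 (c • f)).coeFn_toLp,
          (memLp_mul_of_norm_le_one he h1 f).coeFn_toLp, Lp.coeFn_smul c f,
          Lp.coeFn_smul c ((memLp_mul_of_norm_le_one he h1 f).toLp _)] with x a1 a2 a3 a4
        rw [RingHom.id_apply, a1, a4, Pi.smul_apply, a2, a3, Pi.smul_apply, smul_eq_mul,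
          smul_eq_mul]
        ring }
  refine ⟨L.mkContinuous 1 fun f => ?_, fun f => ?_⟩
  · rw [one_mul]
    apply Lp.norm_le_norm_of_ae_le
    filter_upwards [(memLp_mul_of_norm_le_one he h1 f).coeFn_toLp] with x a1
    show ‖((memLp_mul_of_norm_le_one he h1 f).toLp _ : AddCircle (1 : ℝ) → ℂ) x‖ ≤ _
    rw [a1, norm_mul]
    calc ‖e x‖ * ‖(f : AddCircle (1 : ℝ) → ℂ) x‖ ≤ 1 * ‖(f : AddCircle (1 : ℝ) → ℂ) x‖ := by gcongr; exact h1 x
      _ = ‖(f : AddCircle (1 : ℝ) → ℂ) x‖ := one_mul _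
  · exact (memLp_mul_of_norm_le_one he h1 f).coeFn_toLp

theorem exists_W (e : AddCircle (1 : ℝ) → ℂ) (he : Measurable e) (h1 : ∀ x, ‖e x‖ ≤ 1) (t : AddCircle (1 : ℝ)) :
    ∃ W : Lp ℂ 2 (haarAddCircle (T := 1)) →L[ℂ] Lp ℂ 2 (haarAddCircle (T := 1)), ∀ f : Lp ℂ 2 (haarAddCircle (T := 1)),
      (W f : AddCircle (1 : ℝ) → ℂ) =ᵐ[haarAddCircle (T := 1)] fun x => e x * (f : AddCircle (1 : ℝ) → ℂ) (x + t) := by
  obtain ⟨M, hM⟩ := exists_mulOp e he h1
  have hmp : MeasurePreserving (fun x : AddCircle (1 : ℝ) => x + t) (haarAddCircle (T := 1)) (haarAddCircle (T := 1)) := measurePreserving_add_right _ t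
  refine ⟨M.comp (Lp.compMeasurePreservingₗᵢ ℂ (fun x : AddCircle (1 : ℝ) => x + t) hmp).toContinuousLinearMap,
    fun f => ?_⟩
  have h2 : (Lp.compMeasurePreservingₗᵢ ℂ (fun x : AddCircle (1 : ℝ) => x + t) hmp f : AddCircle (1 : ℝ) → ℂ) =ᵐ[haarAddCircle (T := 1)]
      fun x => (f : AddCircle (1 : ℝ) → ℂ) (x + t) := Lp.coeFn_compMeasurePreserving f hmp
  filter_upwards [hM (Lp.compMeasurePreservingₗᵢ ℂ (fun x : AddCircle (1 : ℝ) => x + t) hmp f), h2] with x a1 a2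
  show (M (Lp.compMeasurePreservingₗᵢ ℂ (fun x : AddCircle (1 : ℝ) => x + t) hmp f) : AddCircle (1 : ℝ) → ℂ) x = _
  rw [a1, a2]

end TransAlg
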