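import Pool.Agent.Work.MP_56c4bc_an.HardyDef
import Pool.Agent.Work.MP_56c4bc_an.AlgAbs
import Pool.Agent.Work.MP_56c4bc_an.WOp

/-! The algebra of the counterexample, on `L²` of the circle. -/

open MeasureTheory AddCircle Complex Filter Topology
open scoped ENNReal ComplexConjugate InnerProductSpace

namespace TransAlg

/-! ### functions with vanishing negative coefficients -/

theorem ag_coeff_mul_fourier (f : 𝕋 → ℂ) (m n : ℤ) :
    fourierCoeff (fun x => (fourier m x : ℂ) * f x) n = fourierCoeff f (n - m) := by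
  unfold fourierCoeff
  congr 1
  funext x
  rw [smul_eq_mul, smul_eq_mul, ← mul_assoc, ← fourier_add]
  congr 3
  ring

theorem ag_coeff_translate (f : 𝕋 → ℂ) (t : 𝕋) (n : ℤ) :
    fourierCoeff (fun x => f (x + t)) n = (fourier n t : ℂ) * fourierCoeff f n := by
  unfold fourierCoeff
  have h1 : (fun x : 𝕋 => (fourier (-n) x : ℂ) • f (x + t)) =
      fun x => (fourier n t : ℂ) * ((fun y => (fourier (-n) y : ℂ) • f y) (x + t)) := by
    funext x
    simp only [smul_eq_mul]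
    rw [fourier_add_arg (-n) x t]
    have h2 : (fourier n t : ℂ) * fourier (-n) t = 1 := by
      rw [← fourier_add]; simp
    calc (fourier (-n) x : ℂ) * f (x + t)
        = ((fourier n t : ℂ) * fourier (-n) t) * ((fourier (-n) x : ℂ) * f (x + t)) := by
          rw [h2, one_mul]
      _ = _ := by ring
  rw [h1, integral_const_mul]
  congr 1
  exact integral_add_right_eq_self (fun y => (fourier (-n) y : ℂ) • f y) t

theorem ag_norm_fourier (k : ℤ) (x : 𝕋) : ‖(fourier k x : ℂ)‖ = 1 := by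
  rw [fourier_apply]; exact Circle.norm_coe _

theorem ag_int_fourier {f : 𝕋 → ℂ} (hf : Integrable f μ) (m : ℤ) :
    Integrable (fun x => (fourier m x : ℂ) * f x) μ :=
  hf.bdd_mul (c := 1) (fourier m).continuous.aestronglyMeasurable
    (Eventually.of_forall fun x => (ag_norm_fourier m x).le)

theorem ag_int_TP {f q : 𝕋 → ℂ} (hf : Integrable f μ) {M : ℕ} (hq : q ∈ TP M) :
    Integrable (fun x => q x * f x) μ := by
  obtain ⟨C, hC⟩ := (isCompact_range (TP.continuous hq)).isBounded.exists_norm_le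
  exact hf.bdd_mul (c := C) (TP.continuous hq).aestronglyMeasurable
    (Eventually.of_forall fun x => hC _ ⟨x, rfl⟩)

theorem An.add {f g : 𝕋 → ℂ} (hf : An f) (hg : An g) (hfi : Integrable f μ)
    (hgi : Integrable g μ) : An (fun x => f x + g x) := by
  intro n hn
  have : fourierCoeff (fun x => f x + g x) n = fourierCoeff f n + fourierCoeff g n := by
    unfold fourierCoeff
    have hc : ∀ u : 𝕋 → ℂ, Integrable u μ →
        Integrable (fun x => (fourier (-n) x : ℂ) • u x) μ := fun u hu => by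
      simpa [smul_eq_mul] using ag_int_fourier hu (-n)
    rw [← integral_add (hc f hfi) (hc g hgi)]
    congr 1
    funext x
    rw [smul_add]
  rw [this, hf n hn, hg n hn, add_zero]

theorem An.sub {f g : 𝕋 → ℂ} (hf : An f) (hg : An g) (hfi : Integrable f μ)
    (hgi : Integrable g μ) : An (fun x => f x - g x) := by
  intro n hn
  have : fourierCoeff (fun x => f x - g x) n = fourierCoeff f n - fourierCoeff g n := by
    unfold fourierCoeff
    have hc : ∀ u : 𝕋 → ℂ, Integrable u μ →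
        Integrable (fun x => (fourier (-n) x : ℂ) • u x) μ := fun u hu => by
      simpa [smul_eq_mul] using ag_int_fourier hu (-n)
    rw [← integral_sub (hc f hfi) (hc g hgi)]
    congr 1
    funext x
    rw [smul_sub]
  rw [this, hf n hn, hg n hn, sub_zero]

theorem An.translate {f : 𝕋 → ℂ} (hf : An f) (t : 𝕋) : An (fun x => f (x + t)) := by
  intro n hn
  rw [ag_coeff_translate, hf n hn, mul_zero]

theorem An.congr {f g : 𝕋 → ℂ} (hf : An f) (h : g =ᵐ[μ] f) : An g := by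
  intro n hn
  rw [← hf n hn]
  unfold fourierCoeff
  apply integral_congr_ae
  filter_upwards [h] with x hx
  rw [hx]

theorem mem_Hardy_iff_An {f : L2T} : f ∈ Hardy ↔ An f := mem_Hardy

/-- multiplication by `z^M q`, `q` of degree at most `M`, preserves analyticity -/
theorem An.mul_TP {f : 𝕋 → ℂ} (hf : An f) (hfi : Integrable f μ) {M : ℕ} {q : 𝕋 → ℂ}
    (hq : q ∈ TP M) : An (fun x => (fourier (M : ℤ) x : ℂ) * (q x * f x)) := by
  refine Submodule.span_induction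
    (p := fun q _ => An (fun x => (fourier (M : ℤ) x : ℂ) * (q x * f x))) ?_ ?_ ?_ ?_ hq
  · rintro q ⟨k, hk, rfl⟩ n hn
    have h1 : (fun x : 𝕋 => (fourier (M : ℤ) x : ℂ) * ((fourier k x : ℂ) * f x)) =
        fun x => (fourier ((M : ℤ) + k) x : ℂ) * f x := by
      funext x; rw [fourier_add, mul_assoc]
    rw [h1, ag_coeff_mul_fourier]
    apply hf
    have := (abs_le.1 hk).1
    omega
  · intro n hn
    simp [fourierCoeff]
  · intro u v hu hv hu' hv'
    have h1 : (fun x : 𝕋 => (fourier (M : ℤ) x : ℂ) * ((u + v) x * f x)) =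
        fun x => (fourier (M : ℤ) x : ℂ) * (u x * f x) + (fourier (M : ℤ) x : ℂ) * (v x * f x) := by
      funext x; simp only [Pi.add_apply]; ring
    rw [h1]
    exact An.add hu' hv' (ag_int_fourier (ag_int_TP hfi hu) _) (ag_int_fourier (ag_int_TP hfi hv) _)
  · intro c u hu hu' n hn
    have h1 : (fun x : 𝕋 => (fourier (M : ℤ) x : ℂ) * ((c • u) x * f x)) =
        fun x => c * ((fourier (M : ℤ) x : ℂ) * (u x * f x)) := by
      funext x; simp only [Pi.smul_apply, smul_eq_mul]; ring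
    rw [h1]
    have h2 : fourierCoeff (fun x => c * ((fourier (M : ℤ) x : ℂ) * (u x * f x))) n =
        c * fourierCoeff (fun x => (fourier (M : ℤ) x : ℂ) * (u x * f x)) n := by
      unfold fourierCoeff
      rw [← integral_const_mul]
      congr 1
      funext x
      simp only [smul_eq_mul]; ring
    rw [h2, hu' n hn, mul_zero]


/-! ### the operators `α, β` -/

/-- truncation to norm at most one -/
noncomputable def trc (f : 𝕋 → ℂ) (x : 𝕋) : ℂ := if ‖f x‖ ≤ 1 then f x else 0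

theorem measurable_trc {f : 𝕋 → ℂ} (hf : Measurable f) : Measurable (trc f) :=
  Measurable.ite (measurableSet_le hf.norm measurable_const) hf measurable_const

theorem norm_trc_le (f : 𝕋 → ℂ) (x : 𝕋) : ‖trc f x‖ ≤ 1 := by
  unfold trc; split_ifs with h
  · exact h
  · simp

theorem Data.trc_α (D : Data) : ∀ᵐ x ∂μ, trc D.α x = D.α x := by
  filter_upwards [D.unit] with x hx
  unfold trc
  rw [if_pos]
  have : ‖D.α x‖ ^ 2 ≤ 1 := by nlinarith [sq_nonneg ‖D.β x‖]
  nlinarith [norm_nonneg (D.α x)]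

theorem Data.trc_β (D : Data) : ∀ᵐ x ∂μ, trc D.β x = D.β x := by
  filter_upwards [D.unit] with x hx
  unfold trc
  rw [if_pos]
  have : ‖D.β x‖ ^ 2 ≤ 1 := by nlinarith [sq_nonneg ‖D.α x‖]
  nlinarith [norm_nonneg (D.β x)]

/-- multiplication operator -/
noncomputable def mop (f : 𝕋 → ℂ) (hf : Measurable f) (h1 : ∀ x, ‖f x‖ ≤ 1) : L2 →L[ℂ] L2 :=
  (exists_mulOp f hf h1).choose

theorem mop_ae (f : 𝕋 → ℂ) (hf : Measurable f) (h1 : ∀ x, ‖f x‖ ≤ 1) (u : L2) :
    (mop f hf h1 u : 𝕋 → ℂ) =ᵐ[μ] fun x => f x * u x :=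
  (exists_mulOp f hf h1).choose_spec u

theorem mop_comm (f g : 𝕋 → ℂ) (hf : Measurable f) (hf1 : ∀ x, ‖f x‖ ≤ 1)
    (hg : Measurable g) (hg1 : ∀ x, ‖g x‖ ≤ 1) (u : L2) :
    mop f hf hf1 (mop g hg hg1 u) = mop g hg hg1 (mop f hf hf1 u) := by
  apply Lp.ext
  filter_upwards [mop_ae f hf hf1 (mop g hg hg1 u), mop_ae g hg hg1 u,
    mop_ae g hg hg1 (mop f hf hf1 u), mop_ae f hf hf1 u] with x h1 h2 h3 h4
  rw [h1, h2, h3, h4]; ring

namespace Data

variable (D : Data)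

noncomputable def Oa : L2 →L[ℂ] L2 := mop (trc D.α) (measurable_trc D.hα) (norm_trc_le _)
noncomputable def Ob : L2 →L[ℂ] L2 := mop (trc D.β) (measurable_trc D.hβ) (norm_trc_le _)
noncomputable def Oa' : L2 →L[ℂ] L2 := mop (fun x => conj (trc D.α x))
  (Complex.continuous_conj.measurable.comp (measurable_trc D.hα))
  (fun x => by rw [Complex.norm_conj]; exact norm_trc_le _ x)
noncomputable def Ob' : L2 →L[ℂ] L2 := mop (fun x => conj (trc D.β x))
  (Complex.continuous_conj.measurable.comp (measurable_trc D.hβ))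
  (fun x => by rw [Complex.norm_conj]; exact norm_trc_le _ x)

theorem Oa_ae (u : L2) : (D.Oa u : 𝕋 → ℂ) =ᵐ[μ] fun x => D.α x * u x := by
  filter_upwards [mop_ae (trc D.α) (measurable_trc D.hα) (norm_trc_le _) u, D.trc_α] with x h1 h2
  rw [← h2]; exact h1
theorem Ob_ae (u : L2) : (D.Ob u : 𝕋 → ℂ) =ᵐ[μ] fun x => D.β x * u x := by
  filter_upwards [mop_ae (trc D.β) (measurable_trc D.hβ) (norm_trc_le _) u, D.trc_β] with x h1 h2
  rw [← h2]; exact h1
theorem Oa'_ae (u : L2) : (D.Oa' u : 𝕋 → ℂ) =ᵐ[μ] fun x => conj (D.α x) * u x := by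
  filter_upwards [mop_ae (fun x => conj (trc D.α x))
    (Complex.continuous_conj.measurable.comp (measurable_trc D.hα))
    (fun x => by rw [Complex.norm_conj]; exact norm_trc_le _ x) u, D.trc_α] with x h1 h2
  rw [← h2]; exact h1
theorem Ob'_ae (u : L2) : (D.Ob' u : 𝕋 → ℂ) =ᵐ[μ] fun x => conj (D.β x) * u x := by
  filter_upwards [mop_ae (fun x => conj (trc D.β x))
    (Complex.continuous_conj.measurable.comp (measurable_trc D.hβ))
    (fun x => by rw [Complex.norm_conj]; exact norm_trc_le _ x) u, D.trc_β] with x h1 h2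
  rw [← h2]; exact h1

theorem comm_ae {S T : L2 →L[ℂ] L2} {f g : 𝕋 → ℂ}
    (hS : ∀ u : L2, (S u : 𝕋 → ℂ) =ᵐ[μ] fun x => f x * u x)
    (hT : ∀ u : L2, (T u : 𝕋 → ℂ) =ᵐ[μ] fun x => g x * u x) (u : L2) : S (T u) = T (S u) := by
  apply Lp.ext
  filter_upwards [hS (T u), hT u, hT (S u), hS u] with x h1 h2 h3 h4
  rw [h1, h2, h3, h4]; ring

/-- the twist given by the data -/
noncomputable def twist : Twist L2 where
  K := Hardy
  hK := isClosed_Hardy
  a := D.Oa
  b := D.Ob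
  a' := D.Oa'
  b' := D.Ob'
  hab := comm_ae D.Oa_ae D.Ob_ae
  haa := comm_ae D.Oa_ae D.Oa'_ae
  hab' := comm_ae D.Oa_ae D.Ob'_ae
  hba' := comm_ae D.Ob_ae D.Oa'_ae
  hbb' := comm_ae D.Ob_ae D.Ob'_ae
  ha'b' := comm_ae D.Oa'_ae D.Ob'_ae
  one := by
    intro u
    apply Lp.ext
    filter_upwards [Lp.coeFn_add (D.Oa' (D.Oa u)) (D.Ob' (D.Ob u)), D.Oa'_ae (D.Oa u),
      D.Ob'_ae (D.Ob u), D.Oa_ae u, D.Ob_ae u, D.unit] with x h1 h2 h3 h4 h5 h6
    rw [h1, Pi.add_apply, h2, h3, h4, h5]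
    have e1 : conj (D.α x) * D.α x + conj (D.β x) * D.β x = 1 := by
      rw [← Complex.normSq_eq_conj_mul_self, ← Complex.normSq_eq_conj_mul_self,
        Complex.normSq_eq_norm_sq, Complex.normSq_eq_norm_sq]
      exact_mod_cast h6
    linear_combination (u x) * e1

theorem integrable_L2 (f : L2) : Integrable (f : 𝕋 → ℂ) μ :=
  (Lp.memLp f).integrable (by norm_num)

theorem integrable_translate (f : L2) (t : 𝕋) : Integrable (fun x => f (x + t)) μ :=
  (integrable_L2 f).comp_add_right t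

theorem ae_translate {f g : 𝕋 → ℂ} (h : f =ᵐ[μ] g) (t : 𝕋) :
    (fun x => f (x + t)) =ᵐ[μ] fun x => g (x + t) := by
  have h1 : MeasurePreserving (fun x : 𝕋 => x + t) μ μ := measurePreserving_add_right μ t
  exact h1.quasiMeasurePreserving.ae_eq_comp h

/-- key computation: the weighted translations are in the algebra -/
theorem W_mem (n : ℕ) (t : 𝕋) (ht : D.N n • t = 0) (W : L2 →L[ℂ] L2)
    (hW : ∀ f : L2, (W f : 𝕋 → ℂ) =ᵐ[μ] (fun x => (fourier (2 * (D.M n : ℤ)) x : ℂ) *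
        ((D.ε n x * D.ε n (x + t) : ℝ) : ℂ) * f (x + t))) : W ∈ D.twist.alg := by
  intro h₁ hh₁ h₂ hh₂
  have hh₁' : An h₁ := mem_Hardy_iff_An.1 hh₁
  have hh₂' : An h₂ := mem_Hardy_iff_An.1 hh₂
  change D.Oa' (W (D.Oa h₁ - D.Ob' h₂)) + D.Ob' (W (D.Ob h₁ + D.Oa' h₂)) ∈ Hardy ∧
    D.Oa (W (D.Ob h₁ + D.Oa' h₂)) - D.Ob (W (D.Oa h₁ - D.Ob' h₂)) ∈ Hardy
  have e1' : ((D.Oa h₁ - D.Ob' h₂ : L2) : 𝕋 → ℂ) =ᵐ[μ]
      fun x => D.α x * h₁ x - conj (D.β x) * h₂ x := by
    filter_upwards [Lp.coeFn_sub (D.Oa h₁) (D.Ob' h₂), D.Oa_ae h₁, D.Ob'_ae h₂] with x a1 a2 a3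
    rw [a1, Pi.sub_apply, a2, a3]
  have e2' : ((D.Ob h₁ + D.Oa' h₂ : L2) : 𝕋 → ℂ) =ᵐ[μ]
      fun x => D.β x * h₁ x + conj (D.α x) * h₂ x := by
    filter_upwards [Lp.coeFn_add (D.Ob h₁) (D.Oa' h₂), D.Ob_ae h₁, D.Oa'_ae h₂] with x a1 a2 a3
    rw [a1, Pi.add_apply, a2, a3]
  generalize (D.Oa h₁ - D.Ob' h₂ : L2) = f₁ at e1' ⊢
  generalize (D.Ob h₁ + D.Oa' h₂ : L2) = f₂ at e2' ⊢
  have e1 := ae_translate e1' t
  have e2 := ae_translate e2' t
  clear e1' e2'
  -- the two trigonometric polynomials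
  set P : 𝕋 → ℂ := fun x => conj (D.A n x) * D.A n (x + t) + conj (D.B n x) * D.B n (x + t)
    with hP
  set Q : 𝕋 → ℂ := fun x => D.A n x * D.B n (x + t) - D.B n x * D.A n (x + t) with hQ
  have hPm : P ∈ TP (D.M n + D.M n) :=
    Submodule.add_mem _ (TP.mul (TP.conj (D.hA n)) (TP.translate (D.hA n) t))
      (TP.mul (TP.conj (D.hB n)) (TP.translate (D.hB n) t))
  have hQm : Q ∈ TP (D.M n + D.M n) :=
    Submodule.sub_mem _ (TP.mul (D.hA n) (TP.translate (D.hB n) t))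
      (TP.mul (D.hB n) (TP.translate (D.hA n) t))
  have hcast : (2 * (D.M n : ℤ)) = ((D.M n + D.M n : ℕ) : ℤ) := by push_cast; ring
  rw [hcast] at hW
  set Z : 𝕋 → ℂ := fun x => (fourier ((D.M n + D.M n : ℕ) : ℤ) x : ℂ) with hZ
  have hi1 := integrable_translate h₁ t
  have hi2 := integrable_translate h₂ t
  -- the two analytic functions
  have A1 : An (fun x => Z x * (P x * h₁ (x + t)) - Z x * (conj (Q x) * h₂ (x + t))) :=
    An.sub ((hh₁'.translate t).mul_TP hi1 hPm) ((hh₂'.translate t).mul_TP hi2 (TP.conj hQm))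
      (ag_int_fourier (ag_int_TP hi1 hPm) _) (ag_int_fourier (ag_int_TP hi2 (TP.conj hQm)) _)
  have A2 : An (fun x => Z x * (Q x * h₁ (x + t)) + Z x * (conj (P x) * h₂ (x + t))) :=
    An.add ((hh₁'.translate t).mul_TP hi1 hQm) ((hh₂'.translate t).mul_TP hi2 (TP.conj hPm))
      (ag_int_fourier (ag_int_TP hi1 hQm) _) (ag_int_fourier (ag_int_TP hi2 (TP.conj hPm)) _)
  have hε : ∀ x, ((D.ε n x * D.ε n (x + t) : ℝ) : ℂ) * ((D.ε n x * D.ε n (x + t) : ℝ) : ℂ) = 1 := by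
    intro x
    rw [← Complex.ofReal_mul]
    have : (D.ε n x * D.ε n (x + t)) * (D.ε n x * D.ε n (x + t)) = 1 := by
      have h1 := D.ε_sq n x
      have h2 := D.ε_sq n (x + t)
      calc (D.ε n x * D.ε n (x + t)) * (D.ε n x * D.ε n (x + t))
          = D.ε n x ^ 2 * D.ε n (x + t) ^ 2 := by ring
        _ = 1 := by rw [h1, h2, one_mul]
    rw [this, Complex.ofReal_one]
  constructor
  · rw [mem_Hardy_iff_An]
    refine A1.congr ?_
    filter_upwards [Lp.coeFn_add (D.Oa' (W f₁)) (D.Ob' (W f₂)), D.Oa'_ae (W f₁), D.Ob'_ae (W f₂),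
      hW f₁, hW f₂, e1, e2, D.inv1 n t ht, D.inv2 n t ht] with x a1 a2 a3 a4 a5 a6 a7 a8 a9
    rw [a1, Pi.add_apply, a2, a3, a4, a5, a6, a7]
    have a9' := congrArg conj a9
    simp only [map_sub, map_mul, Complex.conj_ofReal] at a9'
    have hx := hε x
    simp only [hP, hQ, hZ, map_sub, map_mul]
    linear_combination (Z x * ((D.ε n x * D.ε n (x + t) : ℝ) : ℂ) * h₁ (x + t)) * a8
      - (Z x * ((D.ε n x * D.ε n (x + t) : ℝ) : ℂ) * h₂ (x + t)) * a9'
      + (Z x * h₁ (x + t) * P x - Z x * h₂ (x + t) * (conj (D.A n x) * conj (D.B n (x + t))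
        - conj (D.B n x) * conj (D.A n (x + t)))) * hx
  · rw [mem_Hardy_iff_An]
    refine A2.congr ?_
    filter_upwards [Lp.coeFn_sub (D.Oa (W f₂)) (D.Ob (W f₁)), D.Oa_ae (W f₂), D.Ob_ae (W f₁),
      hW f₁, hW f₂, e1, e2, D.inv1 n t ht, D.inv2 n t ht] with x a1 a2 a3 a4 a5 a6 a7 a8 a9
    rw [a1, Pi.sub_apply, a2, a3, a4, a5, a6, a7]
    have a8' := congrArg conj a8
    simp only [map_add, map_mul, Complex.conj_ofReal, Complex.conj_conj] at a8'
    have hx := hε x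
    simp only [hP, hQ, hZ, map_add, map_mul, Complex.conj_conj]
    linear_combination (Z x * ((D.ε n x * D.ε n (x + t) : ℝ) : ℂ) * h₁ (x + t)) * a9
      + (Z x * ((D.ε n x * D.ε n (x + t) : ℝ) : ℂ) * h₂ (x + t)) * a8'
      + (Z x * h₁ (x + t) * Q x + Z x * h₂ (x + t) * (D.A n x * conj (D.A n (x + t))
        + D.B n x * conj (D.B n (x + t)))) * hx

/-- multiplication operators are in the algebra iff they preserve the Hardy space -/
theorem mul_mem_iff {f : 𝕋 → ℂ} {T : L2 →L[ℂ] L2}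
    (hT : ∀ u : L2, (T u : 𝕋 → ℂ) =ᵐ[μ] fun x => f x * u x) :
    T ∈ D.twist.alg ↔ ∀ h ∈ Hardy, T h ∈ Hardy :=
  D.twist.mem_alg_of_commute (comm_ae hT D.Oa_ae) (comm_ae hT D.Ob_ae) (comm_ae hT D.Oa'_ae)
    (comm_ae hT D.Ob'_ae)

theorem mulFourier_Hardy {T : L2 →L[ℂ] L2} {m : ℤ} (hm : 0 ≤ m)
    (hT : ∀ u : L2, (T u : 𝕋 → ℂ) =ᵐ[μ] fun x => (fourier m x : ℂ) * u x) {h : L2}
    (hh : h ∈ Hardy) : T h ∈ Hardy := by
  rw [mem_Hardy_iff_An] at hh ⊢
  have h1 : An (fun x => (fourier m x : ℂ) * h x) := by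
    intro n hn
    rw [ag_coeff_mul_fourier]
    exact hh _ (by omega)
  exact h1.congr (hT h)

end Data

theorem exists_algebra (D : Data) : ∃ 𝔄 : Subalgebra ℂ (L2 →L[ℂ] L2),
    IsClosed {T : L2 →WOT[ℂ] L2 | T.toCLM ∈ 𝔄} ∧
    (∀ U : L2 →L[ℂ] L2, (∀ f : L2, (U f : 𝕋 → ℂ) =ᵐ[μ] fun x => (fourier 1 x : ℂ) * f x) → U ∈ 𝔄) ∧
    (∀ n (t : 𝕋), D.N n • t = 0 → ∀ W : L2 →L[ℂ] L2,
      (∀ f : L2, (W f : 𝕋 → ℂ) =ᵐ[μ] (fun x => (fourier (2 * (D.M n : ℤ)) x : ℂ) *
        ((D.ε n x * D.ε n (x + t) : ℝ) : ℂ) * f (x + t))) → W ∈ 𝔄) ∧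
    𝔄 ≠ ⊤ := by
  refine ⟨D.twist.alg, D.twist.isClosed_alg, ?_, D.W_mem, ?_⟩
  · intro U hU
    rw [D.mul_mem_iff hU]
    intro h hh
    exact Data.mulFourier_Hardy (by norm_num) hU hh
  · intro htop
    let T : L2 →L[ℂ] L2 := mop (fun x => (fourier (-1) x : ℂ)) (fourier (-1)).continuous.measurable
      (fun x => (ag_norm_fourier (-1) x).le)
    have hT : ∀ u : L2, (T u : 𝕋 → ℂ) =ᵐ[μ] fun x => (fourier (-1) x : ℂ) * u x :=
      mop_ae _ _ _
    have hmem : T ∈ D.twist.alg := by rw [htop]; exact Algebra.mem_top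
    rw [D.mul_mem_iff hT] at hmem
    have h0 := hmem _ (fourierLp_mem_Hardy (n := 0) le_rfl)
    rw [mem_Hardy] at h0
    have h1 := h0 (-1) (by norm_num)
    have h2 : fourierCoeff (T (fourierLp 2 0) : 𝕋 → ℂ) (-1) =
        fourierCoeff (fun x => (fourier (-1) x : ℂ) * (fourierLp 2 0 : L2) x) (-1) := by
      unfold fourierCoeff
      apply integral_congr_ae
      filter_upwards [hT (fourierLp 2 0)] with x hx
      rw [hx]
    rw [h2, ag_coeff_mul_fourier, sub_self, ← inner_fourierLp] at h1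
    have h3 := (orthonormal_fourier (T := 1))
    rw [orthonormal_iff_ite] at h3
    rw [h3 0 0, if_pos rfl] at h1
    exact one_ne_zero h1

end TransAlg
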