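import Mathlib

/-!
# Definitions for the transitive algebra problem (MP_56c4bc_an)

`TP M` is the space of trigonometric polynomials on `ℝ/ℤ` with frequencies in `[-M, M]`.
-/

open MeasureTheory AddCircle Complex Filter Topology
open scoped ENNReal ComplexConjugate

namespace TransAlg

/-- the circle `ℝ/ℤ`, with its Haar probability measure -/
abbrev 𝕋 : Type := AddCircle (1 : ℝ)

noncomputable abbrev μ : Measure 𝕋 := haarAddCircle

/-- trigonometric polynomials with frequencies in `[-M, M]` -/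
def TP (M : ℕ) : Submodule ℂ (𝕋 → ℂ) :=
  Submodule.span ℂ {f | ∃ k : ℤ, |k| ≤ (M : ℤ) ∧ f = fun x => (fourier k x : ℂ)}

theorem TP.fourier_mem {M : ℕ} {k : ℤ} (h : |k| ≤ (M : ℤ)) :
    (fun x => (fourier k x : ℂ)) ∈ TP M :=
  Submodule.subset_span ⟨k, h, rfl⟩

theorem TP.mul {M N : ℕ} {f g : 𝕋 → ℂ} (hf : f ∈ TP M) (hg : g ∈ TP N) :
    (fun x => f x * g x) ∈ TP (M + N) := by
  refine Submodule.span_induction (p := fun f _ => (fun x => f x * g x) ∈ TP (M + N))
    ?_ ?_ ?_ ?_ hf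
  · rintro f ⟨k, hk, rfl⟩
    refine Submodule.span_induction
      (p := fun g _ => (fun x => (fourier k x : ℂ) * g x) ∈ TP (M + N)) ?_ ?_ ?_ ?_ hg
    · rintro g ⟨l, hl, rfl⟩
      have : (fun x : 𝕋 => (fourier k x : ℂ) * fourier l x) = fun x => (fourier (k + l) x : ℂ) := by
        funext x; rw [fourier_add]
      rw [this]
      refine TP.fourier_mem ((abs_add_le k l).trans ?_)
      push_cast
      omega
    · simp only [Pi.zero_apply, mul_zero]
      exact Submodule.zero_mem _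
    · intro u v _ _ hu hv
      have : (fun x : 𝕋 => (fourier k x : ℂ) * (u + v) x) =
          (fun x => (fourier k x : ℂ) * u x) + fun x => (fourier k x : ℂ) * v x := by
        funext x; simp [mul_add]
      rw [this]; exact Submodule.add_mem _ hu hv
    · intro c u _ hu
      have : (fun x : 𝕋 => (fourier k x : ℂ) * (c • u) x) =
          c • (fun x => (fourier k x : ℂ) * u x) := by
        funext x; simp only [Pi.smul_apply, smul_eq_mul]; ring
      rw [this]; exact Submodule.smul_mem _ _ hu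
  · simp only [Pi.zero_apply, zero_mul]
    exact Submodule.zero_mem _
  · intro u v _ _ hu hv
    have : (fun x : 𝕋 => (u + v) x * g x) = (fun x => u x * g x) + fun x => v x * g x := by
      funext x; simp [add_mul]
    rw [this]; exact Submodule.add_mem _ hu hv
  · intro c u _ hu
    have : (fun x : 𝕋 => (c • u) x * g x) = c • (fun x => u x * g x) := by
      funext x; simp only [Pi.smul_apply, smul_eq_mul]; ring
    rw [this]; exact Submodule.smul_mem _ _ hu

theorem TP.conj {M : ℕ} {f : 𝕋 → ℂ} (hf : f ∈ TP M) : (fun x => conj (f x)) ∈ TP M := by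
  refine Submodule.span_induction (p := fun f _ => (fun x => (starRingEnd ℂ) (f x)) ∈ TP M)
    ?_ ?_ ?_ ?_ hf
  · rintro f ⟨k, hk, rfl⟩
    have : (fun x : 𝕋 => (starRingEnd ℂ) (fourier k x : ℂ)) = fun x => (fourier (-k) x : ℂ) := by
      funext x; rw [fourier_neg]
    rw [this]
    exact TP.fourier_mem (by rwa [abs_neg])
  · simp only [Pi.zero_apply, map_zero]
    exact Submodule.zero_mem _
  · intro u v _ _ hu hv
    have : (fun x : 𝕋 => (starRingEnd ℂ) ((u + v) x)) =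
        (fun x => (starRingEnd ℂ) (u x)) + fun x => (starRingEnd ℂ) (v x) := by
      funext x; simp
    rw [this]; exact Submodule.add_mem _ hu hv
  · intro c u _ hu
    have : (fun x : 𝕋 => (starRingEnd ℂ) ((c • u) x)) =
        (starRingEnd ℂ c) • (fun x => (starRingEnd ℂ) (u x)) := by
      funext x; simp
    rw [this]; exact Submodule.smul_mem _ _ hu

theorem fourier_add_arg (k : ℤ) (x t : 𝕋) :
    (fourier k (x + t) : ℂ) = fourier k x * fourier k t := by
  simp only [fourier_apply, smul_add, toCircle_add, Circle.coe_mul]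

theorem fourier_nsmul_arg (k : ℤ) (N : ℕ) (x : 𝕋) :
    (fourier k (N • x) : ℂ) = fourier ((N : ℤ) * k) x := by
  simp only [fourier_apply]
  congr 2
  rw [mul_comm, mul_smul, natCast_zsmul]

theorem TP.translate {M : ℕ} {f : 𝕋 → ℂ} (hf : f ∈ TP M) (t : 𝕋) :
    (fun x => f (x + t)) ∈ TP M := by
  refine Submodule.span_induction (p := fun f _ => (fun x => f (x + t)) ∈ TP M)
    ?_ ?_ ?_ ?_ hf
  · rintro f ⟨k, hk, rfl⟩
    have : (fun x : 𝕋 => (fourier k (x + t) : ℂ)) =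
        (fourier k t : ℂ) • fun x => (fourier k x : ℂ) := by
      funext x; rw [fourier_add_arg]; simp [mul_comm]
    rw [this]
    exact Submodule.smul_mem _ _ (TP.fourier_mem hk)
  · exact Submodule.zero_mem _
  · intro u v _ _ hu hv
    exact Submodule.add_mem _ hu hv
  · intro c u _ hu
    exact Submodule.smul_mem _ c hu

theorem TP.comp_nsmul {M : ℕ} {f : 𝕋 → ℂ} (hf : f ∈ TP M) (N : ℕ) :
    (fun x => f (N • x)) ∈ TP (N * M) := by
  refine Submodule.span_induction (p := fun f _ => (fun x => f (N • x)) ∈ TP (N * M))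
    ?_ ?_ ?_ ?_ hf
  · rintro f ⟨k, hk, rfl⟩
    have : (fun x : 𝕋 => (fourier k (N • x) : ℂ)) = fun x => (fourier ((N : ℤ) * k) x : ℂ) := by
      funext x; rw [fourier_nsmul_arg]
    rw [this]
    refine TP.fourier_mem ?_
    rw [abs_mul, Nat.abs_cast]
    push_cast
    exact mul_le_mul_of_nonneg_left hk (by positivity)
  · exact Submodule.zero_mem _
  · intro u v _ _ hu hv
    exact Submodule.add_mem _ hu hv
  · intro c u _ hu
    exact Submodule.smul_mem _ c hu

theorem TP.mono {M N : ℕ} (h : M ≤ N) : TP M ≤ TP N := by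
  refine Submodule.span_mono ?_
  rintro f ⟨k, hk, rfl⟩
  exact ⟨k, hk.trans (by exact_mod_cast h), rfl⟩

theorem TP.continuous {M : ℕ} {f : 𝕋 → ℂ} (hf : f ∈ TP M) : Continuous f := by
  refine Submodule.span_induction (p := fun f _ => Continuous f) ?_ ?_ ?_ ?_ hf
  · rintro f ⟨k, hk, rfl⟩
    exact (fourier k).continuous
  · exact continuous_zero
  · intro u v _ _ hu hv
    exact hu.add hv
  · intro c u _ hu
    exact hu.const_smul c

theorem TP.one_mem (M : ℕ) : (fun _ => (1 : ℂ)) ∈ TP M := by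
  have : (fun _ : 𝕋 => (1 : ℂ)) = fun x => (fourier 0 x : ℂ) := by
    funext x; simp
  rw [this]
  exact TP.fourier_mem (by simp)

/-- sign with values `±1` -/
noncomputable def sg (r : ℝ) : ℝ := if 0 ≤ r then 1 else -1

theorem sg_sq (r : ℝ) : sg r ^ 2 = 1 := by
  unfold sg; split_ifs <;> norm_num

theorem sg_mul_self (r : ℝ) : sg r * r = |r| := by
  unfold sg; split_ifs with h
  · rw [abs_of_nonneg h, one_mul]
  · rw [abs_of_neg (not_le.1 h)]; ring

theorem measurable_sg : Measurable sg :=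
  Measurable.ite measurableSet_Ici measurable_const measurable_const

/-- first columns of the partial products -/
noncomputable def V (a : ℕ → 𝕋 → ℝ) (b : ℕ → 𝕋 → ℂ) (N : ℕ → ℕ) : ℕ → 𝕋 → ℂ × ℂ
  | 0, _ => (1, 0)
  | m + 1, x =>
    (((sg (a m (N m • x)) : ℝ) : ℂ) * ((a m (N m • x) : ℂ) * (V a b N m x).1
        - conj (b m (N m • x)) * (V a b N m x).2),
     ((sg (a m (N m • x)) : ℝ) : ℂ) * (b m (N m • x) * (V a b N m x).1
        + (a m (N m • x) : ℂ) * (V a b N m x).2))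

/-- the Hilbert space `L²(𝕋)` -/
abbrev L2 : Type := Lp ℂ 2 μ

/-- all negative Fourier coefficients vanish -/
def An (f : 𝕋 → ℂ) : Prop := ∀ n : ℤ, n < 0 → fourierCoeff f n = 0

/-- `(x, y)` lies in `Θ H²(ℂ²)`, where `Θ = [[α, -conj β], [β, conj α]]` -/
def InM (α β : 𝕋 → ℂ) (x y : L2) : Prop :=
  An (fun z => conj (α z) * x z + conj (β z) * y z) ∧ An (fun z => α z * y z - β z * x z)

/-- the data of the construction -/
structure Data where
  α : 𝕋 → ℂ
  β : 𝕋 → ℂ
  hα : Measurable α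
  hβ : Measurable β
  unit : ∀ᵐ x ∂μ, ‖α x‖ ^ 2 + ‖β x‖ ^ 2 = 1
  ε : ℕ → 𝕋 → ℝ
  hε : ∀ n, Measurable (ε n)
  ε_sq : ∀ n x, ε n x ^ 2 = 1
  N : ℕ → ℕ
  N_pos : ∀ n, 0 < N n
  M : ℕ → ℕ
  A : ℕ → 𝕋 → ℂ
  B : ℕ → 𝕋 → ℂ
  hA : ∀ n, A n ∈ TP (M n)
  hB : ∀ n, B n ∈ TP (M n)
  inv1 : ∀ n (t : 𝕋), N n • t = 0 → ∀ᵐ x ∂μ,
    conj (α x) * α (x + t) + conj (β x) * β (x + t) =
      ((ε n x * ε n (x + t) : ℝ) : ℂ) *
        (conj (A n x) * A n (x + t) + conj (B n x) * B n (x + t))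
  inv2 : ∀ n (t : 𝕋), N n • t = 0 → ∀ᵐ x ∂μ,
    α x * β (x + t) - β x * α (x + t) =
      ((ε n x * ε n (x + t) : ℝ) : ℂ) * (A n x * B n (x + t) - B n x * A n (x + t))
  t : ℕ → 𝕋
  N_t : ∀ n, N n • t n = 0
  t_lim : Tendsto t atTop (𝓝 0)
  small : ∀ n, |∫ x, ε n x * ε n (x + t n) ∂μ| ≤ 1 / 2
  sep : ∀ k : ℤ, k ≠ 0 → ∃ n, ∃ s : 𝕋, N n • s = 0 ∧ (fourier k s : ℂ) ≠ 1

/-- the closed subspace `K` is mapped into itself by multiplication by `fourier 1` -/
def ZInv (K : Submodule ℂ L2) : Prop :=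
  ∀ f ∈ K, ∀ g : L2, (g : 𝕋 → ℂ) =ᵐ[μ] (fun x => (fourier 1 x : ℂ) * f x) → g ∈ K

/-- `K` is invariant under `f ↦ z^{2M_n} ε_n(x) ε_n(x+t) f(x+t)` for all `t` with `N_n t = 0` -/
def WInv (D : Data) (K : Submodule ℂ L2) : Prop :=
  ∀ n (t : 𝕋), D.N n • t = 0 → ∀ f ∈ K, ∀ g : L2,
    (g : 𝕋 → ℂ) =ᵐ[μ] (fun x => (fourier (2 * (D.M n : ℤ)) x : ℂ) *
      ((D.ε n x * D.ε n (x + t) : ℝ) : ℂ) * f (x + t)) → g ∈ K

end TransAlg
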