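import Pool.Agent.Work.MP_56c4bc_an.Defs

/-!
# The theorem of Fejer and Riesz for strictly positive trigonometric polynomials
-/

open MeasureTheory AddCircle Complex Filter Topology
open scoped ENNReal ComplexConjugate

namespace TransAlg

namespace FR

open Polynomial in
/-- Polynomial form of the theorem of Fejer and Riesz for strictly positive polynomials. -/
theorem fejer_riesz_poly (D : ℕ) : ∀ q : ℂ[X], q.natDegree ≤ 2 * D →
    (∀ z : ℂ, ‖z‖ = 1 → ∃ r : ℝ, 0 < r ∧ q.eval z = r * z ^ D) →
    ∃ p : ℂ[X], p.natDegree ≤ D ∧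
      ∀ z : ℂ, ‖z‖ = 1 → ((‖p.eval z‖ ^ 2 : ℝ) : ℂ) * z ^ D = q.eval z := by
  induction D with
  | zero =>
    intro q hq hz
    obtain ⟨r, hr, h1⟩ := hz 1 (by simp)
    rw [natDegree_le_iff_degree_le] at hq
    have hq0 := eq_C_of_degree_le_zero (by simpa using hq)
    refine ⟨C ((Real.sqrt r : ℝ) : ℂ), by simp, fun z _ => ?_⟩
    rw [hq0] at h1 ⊢
    simp only [eval_C, pow_zero, mul_one] at h1 ⊢
    rw [h1]
    norm_cast
    rw [Real.norm_of_nonneg (Real.sqrt_nonneg _), Real.sq_sqrt hr.le]
  | succ D ih =>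
    intro q hq hz
    -- self-reciprocal
    have hrefl : ∀ (g : ℂ[X]) (x : ℂ), x ≠ 0 → g.natDegree ≤ 2 * (D + 1) →
        (reflect (2 * (D + 1)) g).eval x⁻¹ * x ^ (2 * (D + 1)) = g.eval x := by
      intro g x hx hg
      let _ : Invertible x := invertibleOfNonzero hx
      have := eval₂_reflect_mul_pow (RingHom.id ℂ) x (2 * (D + 1)) g hg
      simpa [eval₂_id, invOf_eq_inv] using this
    have hconj : ∀ z : ℂ, (q.map (starRingEnd ℂ)).eval (conj z) = conj (q.eval z) := by
      intro z
      rw [eval_map, eval₂_at_apply]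
    have hdeg' : (q.map (starRingEnd ℂ)).natDegree ≤ 2 * (D + 1) :=
      (natDegree_map_le).trans hq
    have hself : reflect (2 * (D + 1)) (q.map (starRingEnd ℂ)) = q := by
      refine eq_of_infinite_eval_eq _ _ ((?_ : Set.Infinite {z : ℂ | ‖z‖ = 1}).mono ?_)
      · have h1 : {z : ℂ | ‖z‖ = 1} = Metric.sphere (0 : ℂ) 1 := by
          ext z
          simp
        rw [h1]
        refine (isPreconnected_sphere ?_ 0 1).infinite_of_nontrivial
          ⟨1, by simp, -1, by simp, fun h => ?_⟩
        · rw [Complex.rank_real_complex]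
          exact Cardinal.one_lt_two
        · have := congrArg Complex.re h
          norm_num at this
      · intro z (hz1 : ‖z‖ = 1)
        obtain ⟨r, hr, h⟩ := hz z hz1
        have hz0 : z ≠ 0 := by rintro rfl; simp at hz1
        have hzz : z * conj z = 1 := by
          rw [mul_conj, normSq_eq_norm_sq, hz1]
          norm_num
        have hzi : z⁻¹ = conj z := by
          field_simp
          exact hzz.symm
        have h2 := hrefl (q.map (starRingEnd ℂ)) z⁻¹ (inv_ne_zero hz0) hdeg'
        rw [inv_inv, hzi, hconj, h] at h2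
        simp only [Set.mem_ofPred_eq]
        rw [h]
        have h3 : conj z ^ (2 * (D + 1)) ≠ 0 := pow_ne_zero _ (by simpa using hz0)
        apply mul_right_cancel₀ h3
        rw [h2, map_mul, conj_ofReal, map_pow]
        have h4 : z ^ (D + 1) * conj z ^ (D + 1) = 1 := by rw [← mul_pow, hzz, one_pow]
        have h5 : conj z ^ (2 * (D + 1)) = conj z ^ (D + 1) * conj z ^ (D + 1) := by
          rw [← pow_add]
          congr 1
          ring
        rw [h5]
        linear_combination (-(r : ℂ) * conj z ^ (D + 1)) * h4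
    have hroot : ∀ α : ℂ, α ≠ 0 → q.eval α = 0 → q.eval (conj α)⁻¹ = 0 := by
      intro α hα h0
      have h1 := hrefl (q.map (starRingEnd ℂ)) (conj α) (by simpa using hα) hdeg'
      rw [hself, hconj, h0, map_zero] at h1
      rcases mul_eq_zero.1 h1 with h | h
      · exact h
      · exact absurd h (pow_ne_zero _ (by simpa using hα))
    have hcoeff : q.coeff (2 * (D + 1)) = conj (q.coeff 0) := by
      conv_lhs => rw [← hself]
      rw [coeff_reflect, coeff_map, revAt_le le_rfl, Nat.sub_self]
    by_cases h0 : q.coeff 0 = 0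
    · obtain ⟨q1, rfl⟩ := X_dvd_iff.2 h0
      have hd : q1.natDegree ≤ 2 * D := by
        rw [h0, map_zero] at hcoeff
        rw [show 2 * (D + 1) = (2 * D + 1) + 1 by ring, coeff_X_mul] at hcoeff
        rcases eq_or_ne q1 0 with rfl | hq1
        · simp
        rw [natDegree_X_mul hq1] at hq
        by_contra hcon
        have : q1.natDegree = 2 * D + 1 := by omega
        rw [← this, coeff_natDegree, leadingCoeff_eq_zero] at hcoeff
        exact hq1 hcoeff
      obtain ⟨p, hp, hpz⟩ := ih q1 hd (fun z hz1 => by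
        obtain ⟨r, hr, h⟩ := hz z hz1
        refine ⟨r, hr, ?_⟩
        have hz0 : z ≠ 0 := by rintro rfl; simp at hz1
        rw [eval_mul, eval_X] at h
        apply mul_left_cancel₀ hz0
        rw [h]
        ring)
      refine ⟨p, by omega, fun z hz1 => ?_⟩
      rw [eval_mul, eval_X, ← hpz z hz1]
      ring
    · have hdeg : q.natDegree = 2 * (D + 1) := by
        refine le_antisymm hq (le_natDegree_of_ne_zero ?_)
        rw [hcoeff]
        simpa using h0
      obtain ⟨α, hα⟩ := IsAlgClosed.exists_root q (by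
        intro h
        have := natDegree_eq_zero_iff_degree_le_zero.2 h.le
        omega)
      have hα' : q.eval α = 0 := hα
      have hα0 : α ≠ 0 := by
        rintro rfl
        rw [← coeff_zero_eq_eval_zero] at hα'
        exact h0 hα'
      have hα1 : ‖α‖ ≠ 1 := by
        intro h
        obtain ⟨r, hr, h1⟩ := hz α h
        rw [hα'] at h1
        exact mul_ne_zero (by exact_mod_cast hr.ne') (pow_ne_zero _ hα0) h1.symm
      have hβ := hroot α hα0 hα'
      set β := (conj α)⁻¹ with hβd
      have hca : conj α ≠ 0 := by simpa using hα0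
      have hαβ : β ≠ α := by
        intro h
        rw [hβd] at h
        apply hα1
        have h2 := mul_inv_cancel₀ hca
        rw [h] at h2
        have h3 := congrArg norm h2
        rw [norm_mul, RCLike.norm_conj, norm_one] at h3
        nlinarith [norm_nonneg α]
      have hdvd : (X - C α) * (X - C β) ∣ q := by
        refine IsCoprime.mul_dvd ?_ (dvd_iff_isRoot.2 hα) (dvd_iff_isRoot.2 hβ)
        exact isCoprime_X_sub_C_of_isUnit_sub (by
          rw [isUnit_iff_ne_zero, sub_ne_zero]
          exact hαβ.symm)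
      obtain ⟨q2, hq2⟩ := hdvd
      have hq20 : q2 ≠ 0 := by
        rintro rfl
        rw [mul_zero] at hq2
        rw [hq2] at h0
        simp at h0
      have hd2 : q2.natDegree = 2 * D := by
        rw [hq2, natDegree_mul (mul_ne_zero (X_sub_C_ne_zero _) (X_sub_C_ne_zero _)) hq20,
          natDegree_mul (X_sub_C_ne_zero _) (X_sub_C_ne_zero _), natDegree_X_sub_C,
          natDegree_X_sub_C] at hdeg
        omega
      have hev : ∀ z : ℂ, ‖z‖ = 1 → q.eval z =
          z * ((‖z - α‖ ^ 2 : ℝ) : ℂ) * (C (-(conj α)⁻¹) * q2).eval z := by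
        intro z hz1
        have hzz : z * conj z = 1 := by
          rw [mul_conj, normSq_eq_norm_sq, hz1]
          norm_num
        have h3 : ((‖z - α‖ ^ 2 : ℝ) : ℂ) = (z - α) * (conj z - conj α) := by
          rw [← map_sub, mul_conj, normSq_eq_norm_sq]
        rw [hq2]
        simp only [eval_mul, eval_sub, eval_X, eval_C]
        rw [h3, hβd]
        field_simp
        linear_combination ((z - α) * q2.eval z) * hzz
      obtain ⟨p, hp, hpz⟩ := ih (C (-(conj α)⁻¹) * q2) (by
        rw [natDegree_C_mul (neg_ne_zero.2 (inv_ne_zero hca))]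
        omega) (fun z hz1 => by
        obtain ⟨r, hr, h⟩ := hz z hz1
        have hz0 : z ≠ 0 := by rintro rfl; simp at hz1
        have hza : 0 < ‖z - α‖ ^ 2 := by
          have : z - α ≠ 0 := by
            intro h4
            rw [sub_eq_zero] at h4
            exact hα1 (h4 ▸ hz1)
          positivity
        refine ⟨r / ‖z - α‖ ^ 2, by positivity, ?_⟩
        rw [hev z hz1] at h
        generalize ‖z - α‖ ^ 2 = N at h hza ⊢
        have hza' : (N : ℂ) ≠ 0 := by exact_mod_cast hza.ne'
        apply mul_left_cancel₀ (mul_ne_zero hz0 hza')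
        rw [h, ofReal_div]
        field_simp
        ring)
      refine ⟨(X - C α) * p, ?_, fun z hz1 => ?_⟩
      · refine (natDegree_mul_le).trans ?_
        rw [natDegree_X_sub_C]
        omega
      · rw [hev z hz1, ← hpz z hz1]
        simp only [eval_mul, eval_sub, eval_X, eval_C, norm_mul]
        push_cast
        ring

theorem fourier_eq_pow (n : ℕ) (x : 𝕋) : (fourier (n : ℤ) x : ℂ) = (fourier 1 x : ℂ) ^ n := by
  induction n with
  | zero => simp
  | succ n ih => rw [pow_succ, ← ih, Nat.cast_succ, fourier_add]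

theorem norm_fourier (k : ℤ) (x : 𝕋) : ‖(fourier k x : ℂ)‖ = 1 := by
  rw [fourier_apply]
  exact Circle.norm_coe _

/-- Every unit complex number is a value of the first exponential. -/
theorem exists_fourier_one {z : ℂ} (hz : ‖z‖ = 1) : ∃ x : 𝕋, (fourier 1 x : ℂ) = z := by
  refine ⟨((arg z / (2 * Real.pi) : ℝ) : 𝕋), ?_⟩
  rw [fourier_coe_apply]
  have h1 : (2 : ℂ) * Real.pi * I * (1 : ℤ) * ((arg z / (2 * Real.pi) : ℝ) : ℂ) / (1 : ℝ) =
      arg z * I := by
    have : (Real.pi : ℂ) ≠ 0 := by exact_mod_cast Real.pi_ne_zero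
    push_cast
    field_simp
  rw [h1]
  have h2 := norm_mul_exp_arg_mul_I z
  rw [hz] at h2
  simpa using h2

open Polynomial in
theorem exists_poly_of_mem {D : ℕ} {f : 𝕋 → ℂ} (hf : f ∈ TP D) :
    ∃ q : ℂ[X], q.natDegree ≤ 2 * D ∧
      ∀ x, q.eval (fourier 1 x : ℂ) = (fourier 1 x : ℂ) ^ D * f x := by
  induction hf using Submodule.span_induction with
  | mem f hf =>
    obtain ⟨k, hk, rfl⟩ := hf
    rw [abs_le] at hk
    obtain ⟨n, hn⟩ : ∃ n : ℕ, (n : ℤ) = D + k := ⟨(D + k).toNat, by omega⟩
    refine ⟨X ^ n, by rw [natDegree_X_pow]; omega, fun x => ?_⟩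
    rw [eval_pow, eval_X, ← fourier_eq_pow, ← fourier_eq_pow, hn, fourier_add]
  | zero => exact ⟨0, by simp, fun x => by simp⟩
  | add f g _ _ hf hg =>
    obtain ⟨p, hp, hp'⟩ := hf
    obtain ⟨q, hq, hq'⟩ := hg
    refine ⟨p + q, (natDegree_add_le _ _).trans (by omega), fun x => ?_⟩
    rw [eval_add, hp', hq', Pi.add_apply]
    ring
  | smul a f _ hf =>
    obtain ⟨p, hp, hp'⟩ := hf
    refine ⟨C a * p, (natDegree_C_mul_le _ _).trans hp, fun x => ?_⟩
    rw [eval_mul, eval_C, hp', Pi.smul_apply, smul_eq_mul]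
    ring

open Polynomial in
theorem poly_mem {D : ℕ} {p : ℂ[X]} (hp : p.natDegree ≤ D) :
    (fun x : 𝕋 => p.eval (fourier 1 x : ℂ)) ∈ TP D := by
  have h1 : (fun x : 𝕋 => p.eval (fourier 1 x : ℂ)) =
      ∑ i ∈ Finset.range (D + 1), p.coeff i • fun x : 𝕋 => (fourier (i : ℤ) x : ℂ) := by
    funext x
    rw [eval_eq_sum_range' (n := D + 1) (by omega), Finset.sum_apply]
    refine Finset.sum_congr rfl fun i _ => ?_
    rw [Pi.smul_apply, smul_eq_mul, fourier_eq_pow]
  rw [h1]
  refine Submodule.sum_mem _ fun i hi => Submodule.smul_mem _ _ (Submodule.subset_span ?_)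
  rw [Finset.mem_range] at hi
  exact ⟨i, by rw [abs_of_nonneg (by positivity)]; omega, rfl⟩

end FR

open FR in
/-- The theorem of Fejer and Riesz for strictly positive trigonometric polynomials. -/
theorem fejer_riesz (D : ℕ) (P : 𝕋 → ℝ) (hP : (fun x => (P x : ℂ)) ∈ TP D)
    (hpos : ∀ x, 0 < P x) : ∃ b ∈ TP D, ∀ x, ‖b x‖ ^ 2 = P x := by
  obtain ⟨q, hq, hqe⟩ := exists_poly_of_mem hP
  obtain ⟨p, hp, hpe⟩ := fejer_riesz_poly D q hq (fun z hz => by
    obtain ⟨x, rfl⟩ := exists_fourier_one hz
    exact ⟨P x, hpos x, by rw [hqe]; ring⟩)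
  refine ⟨_, poly_mem hp, fun x => ?_⟩
  have h1 := hpe _ (norm_fourier 1 x)
  rw [hqe, mul_comm] at h1
  have h2 : ((fourier 1 x : ℂ)) ≠ 0 := by
    intro h
    have := norm_fourier 1 x
    rw [h, norm_zero] at this
    exact zero_ne_one this
  have h3 := mul_left_cancel₀ (pow_ne_zero D h2) h1
  exact_mod_cast h3

end TransAlg
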