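import Mathlib
import Pool.Agent.Work.MP_56c4bc_an.Defs

/-!
# MP_56c4bc_an, item L: a.e. convergence of an infinite product in SU(2)
-/

open MeasureTheory AddCircle Complex Filter Topology
open scoped ENNReal ComplexConjugate

set_option autoImplicit false

namespace TransAlg

namespace Lim

theorem measurable_sg : Measurable sg :=
  Measurable.ite measurableSet_Ici measurable_const measurable_const

theorem sg_mul_self (r : ℝ) : sg r * r = |r| := by
  unfold sg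
  split_ifs with h
  · rw [one_mul, abs_of_nonneg h]
  · rw [abs_of_neg (not_le.1 h)]
    ring

theorem abs_sg (r : ℝ) : |sg r| = 1 := by
  unfold sg
  split_ifs <;> simp

theorem measPres (n : ℕ) (hn : 0 < n) : MeasurePreserving (fun x : 𝕋 => n • x) μ μ := by
  have h := Measure.measurePreserving_zsmul (μ : Measure 𝕋) (n := (n : ℤ)) (by omega)
  have h2 : (fun x : 𝕋 => n • x) = fun x : 𝕋 => (n : ℤ) • x := by
    funext x
    rw [natCast_zsmul]
  rw [h2]
  exact h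

section

variable (a : ℕ → 𝕋 → ℝ) (b : ℕ → 𝕋 → ℂ) (N : ℕ → ℕ)

theorem normSq_V (h1 : ∀ m x, a m x ^ 2 + ‖b m x‖ ^ 2 = 1) (m : ℕ) (x : 𝕋) :
    ‖(V a b N m x).1‖ ^ 2 + ‖(V a b N m x).2‖ ^ 2 = 1 := by
  induction m with
  | zero => simp [V]
  | succ m ih =>
    simp only [V]
    set v := V a b N m x with hv
    set A := a m (N m • x) with hA
    set B := b m (N m • x) with hB
    have hAB : A ^ 2 + ‖B‖ ^ 2 = 1 := h1 m _
    have hs : ‖((sg A : ℝ) : ℂ)‖ = 1 := by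
      rw [Complex.norm_real, Real.norm_eq_abs, abs_sg]
    rw [norm_mul, norm_mul, hs, one_mul, one_mul]
    have key : ∀ z : ℂ, ‖z‖ ^ 2 = z.re ^ 2 + z.im ^ 2 := by
      intro z
      rw [Complex.sq_norm, Complex.normSq_apply]
      ring
    rw [key, key] at ih
    rw [key] at hAB
    rw [key, key]
    simp only [Complex.sub_re, Complex.sub_im, Complex.add_re, Complex.add_im, Complex.mul_re,
      Complex.mul_im, Complex.ofReal_re, Complex.ofReal_im, Complex.conj_re, Complex.conj_im]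
    calc _ = (A ^ 2 + (B.re ^ 2 + B.im ^ 2)) *
          (v.1.re ^ 2 + v.1.im ^ 2 + (v.2.re ^ 2 + v.2.im ^ 2)) := by ring
      _ = 1 := by rw [hAB, ih, one_mul]

theorem norm_V_fst (h1 : ∀ m x, a m x ^ 2 + ‖b m x‖ ^ 2 = 1) (m : ℕ) (x : 𝕋) :
    ‖(V a b N m x).1‖ ≤ 1 := by
  have h := normSq_V a b N h1 m x
  have h2 := sq_nonneg ‖(V a b N m x).2‖
  have h3 := norm_nonneg (V a b N m x).1
  nlinarith

theorem norm_V_snd (h1 : ∀ m x, a m x ^ 2 + ‖b m x‖ ^ 2 = 1) (m : ℕ) (x : 𝕋) :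
    ‖(V a b N m x).2‖ ≤ 1 := by
  have h := normSq_V a b N h1 m x
  have h2 := sq_nonneg ‖(V a b N m x).1‖
  have h3 := norm_nonneg (V a b N m x).2
  nlinarith

theorem coef_bound {A : ℝ} {B : ℂ} (h : A ^ 2 + ‖B‖ ^ 2 = 1) :
    (1 - |A|) + ‖B‖ ≤ 3 * √(1 - |A|) := by
  have hA : |A| ≤ 1 := by
    have h2 := sq_nonneg ‖B‖
    have h3 : |A| ^ 2 ≤ 1 := by rw [sq_abs]; linarith
    have h4 := abs_nonneg A
    nlinarith
  set s := √(1 - |A|) with hs
  have hs0 : 0 ≤ s := Real.sqrt_nonneg _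
  have hss : s ^ 2 = 1 - |A| := Real.sq_sqrt (by linarith)
  have hA0 := abs_nonneg A
  have hs1 : s ≤ 1 := by nlinarith
  have hB : ‖B‖ ≤ 2 * s := by
    have h5 : ‖B‖ ^ 2 ≤ (2 * s) ^ 2 := by
      have h6 : ‖B‖ ^ 2 = (1 - |A|) * (1 + |A|) := by
        have : A ^ 2 = |A| ^ 2 := (sq_abs A).symm
        nlinarith
      rw [h6, ← hss]
      nlinarith
    exact le_of_sq_le_sq h5 (by positivity) |>.trans le_rfl
  nlinarith

theorem dist_fst (h1 : ∀ m x, a m x ^ 2 + ‖b m x‖ ^ 2 = 1) (m : ℕ) (x : 𝕋) :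
    dist (V a b N m x).1 (V a b N (m + 1) x).1 ≤ 3 * √(1 - |a m (N m • x)|) := by
  rw [dist_comm, dist_eq_norm]
  simp only [V]
  have hv1 := norm_V_fst a b N h1 m x
  have hv2 := norm_V_snd a b N h1 m x
  set v := V a b N m x with hv
  set A := a m (N m • x) with hA
  set B := b m (N m • x) with hB
  have hAB : A ^ 2 + ‖B‖ ^ 2 = 1 := h1 m _
  have hA1 : |A| ≤ 1 := by
    have h2 := sq_nonneg ‖B‖
    have h3 : |A| ^ 2 ≤ 1 := by rw [sq_abs]; linarith
    have h4 := abs_nonneg A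
    nlinarith
  have hs : ‖((sg A : ℝ) : ℂ)‖ = 1 := by
    rw [Complex.norm_real, Real.norm_eq_abs, abs_sg]
  have h5 : ((sg A : ℝ) : ℂ) * (A : ℂ) = ((|A| : ℝ) : ℂ) := by
    rw [← Complex.ofReal_mul, sg_mul_self]
  have e : ((sg A : ℝ) : ℂ) * ((A : ℂ) * v.1 - conj B * v.2) - v.1 =
      (((|A| - 1 : ℝ)) : ℂ) * v.1 - ((sg A : ℝ) : ℂ) * (conj B * v.2) := by
    rw [mul_sub, ← mul_assoc, h5]
    push_cast
    ring
  rw [e]
  refine (norm_sub_le _ _).trans ?_
  rw [norm_mul, norm_mul, norm_mul, hs, one_mul, Complex.norm_real, Real.norm_eq_abs,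
    RCLike.norm_conj, abs_sub_comm, abs_of_nonneg (by linarith : 0 ≤ 1 - |A|)]
  refine le_trans ?_ (coef_bound hAB)
  refine add_le_add ?_ ?_
  · exact mul_le_of_le_one_right (by linarith) hv1
  · exact mul_le_of_le_one_right (norm_nonneg _) hv2

theorem dist_snd (h1 : ∀ m x, a m x ^ 2 + ‖b m x‖ ^ 2 = 1) (m : ℕ) (x : 𝕋) :
    dist (V a b N m x).2 (V a b N (m + 1) x).2 ≤ 3 * √(1 - |a m (N m • x)|) := by
  rw [dist_comm, dist_eq_norm]
  simp only [V]
  have hv1 := norm_V_fst a b N h1 m x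
  have hv2 := norm_V_snd a b N h1 m x
  set v := V a b N m x with hv
  set A := a m (N m • x) with hA
  set B := b m (N m • x) with hB
  have hAB : A ^ 2 + ‖B‖ ^ 2 = 1 := h1 m _
  have hA1 : |A| ≤ 1 := by
    have h2 := sq_nonneg ‖B‖
    have h3 : |A| ^ 2 ≤ 1 := by rw [sq_abs]; linarith
    have h4 := abs_nonneg A
    nlinarith
  have hs : ‖((sg A : ℝ) : ℂ)‖ = 1 := by
    rw [Complex.norm_real, Real.norm_eq_abs, abs_sg]
  have h5 : ((sg A : ℝ) : ℂ) * (A : ℂ) = ((|A| : ℝ) : ℂ) := by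
    rw [← Complex.ofReal_mul, sg_mul_self]
  have e : ((sg A : ℝ) : ℂ) * (B * v.1 + (A : ℂ) * v.2) - v.2 =
      (((|A| - 1 : ℝ)) : ℂ) * v.2 + ((sg A : ℝ) : ℂ) * (B * v.1) := by
    rw [mul_add, ← mul_assoc _ (A : ℂ), h5]
    push_cast
    ring
  rw [e]
  refine (norm_add_le _ _).trans ?_
  rw [norm_mul, norm_mul, norm_mul, hs, one_mul, Complex.norm_real, Real.norm_eq_abs,
    abs_sub_comm, abs_of_nonneg (by linarith : 0 ≤ 1 - |A|)]
  refine le_trans ?_ (coef_bound hAB)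
  refine add_le_add ?_ ?_
  · exact mul_le_of_le_one_right (by linarith) hv2
  · exact mul_le_of_le_one_right (norm_nonneg _) hv1

theorem measurable_V (ha : ∀ m, Continuous (a m)) (hb : ∀ m, Continuous (b m)) (m : ℕ) :
    Measurable (fun x => (V a b N m x).1) ∧ Measurable (fun x => (V a b N m x).2) := by
  induction m with
  | zero => exact ⟨measurable_const, measurable_const⟩
  | succ m ih =>
    have hn : Continuous (fun x : 𝕋 => N m • x) := continuous_nsmul (N m)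
    have hA : Measurable (fun x : 𝕋 => a m (N m • x)) := ((ha m).comp hn).measurable
    have hB : Measurable (fun x : 𝕋 => b m (N m • x)) := ((hb m).comp hn).measurable
    have hs : Measurable (fun x : 𝕋 => ((sg (a m (N m • x)) : ℝ) : ℂ)) :=
      Complex.measurable_ofReal.comp (measurable_sg.comp hA)
    have hAc : Measurable (fun x : 𝕋 => ((a m (N m • x) : ℝ) : ℂ)) :=
      Complex.measurable_ofReal.comp hA
    have hBc : Measurable (fun x : 𝕋 => conj (b m (N m • x))) :=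
      (Complex.continuous_conj.measurable).comp hB
    constructor
    · exact hs.mul ((hAc.mul ih.1).sub (hBc.mul ih.2))
    · exact hs.mul ((hB.mul ih.1).add (hAc.mul ih.2))

theorem ae_summable (ha : ∀ m, Continuous (a m)) (hN : ∀ m, 0 < N m)
    (hs : ∀ m, ∫ x, √(1 - |a m x|) ∂μ ≤ (1 / 4 : ℝ) ^ m) :
    ∀ᵐ x ∂μ, Summable (fun m => √(1 - |a m (N m • x)|)) := by
  have hc : ∀ m, Continuous (fun x : 𝕋 => √(1 - |a m x|)) := fun m =>
    Real.continuous_sqrt.comp (continuous_const.sub (ha m).abs)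
  have hn : ∀ m, Continuous (fun x : 𝕋 => N m • x) := fun m => continuous_nsmul (N m)
  have hmeas : ∀ m, Measurable (fun x : 𝕋 => ENNReal.ofReal (√(1 - |a m x|))) := fun m =>
    ENNReal.measurable_ofReal.comp (hc m).measurable
  have hint : ∀ m, Integrable (fun x : 𝕋 => √(1 - |a m x|)) μ := fun m =>
    (hc m).integrable_of_hasCompactSupport (HasCompactSupport.of_compactSpace _)
  have h1 : ∀ m, ∫⁻ x, ENNReal.ofReal (√(1 - |a m (N m • x)|)) ∂μ ≤
      ENNReal.ofReal ((1 / 4 : ℝ) ^ m) := by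
    intro m
    have h2 : ∫⁻ x, ENNReal.ofReal (√(1 - |a m (N m • x)|)) ∂μ =
        ∫⁻ x, ENNReal.ofReal (√(1 - |a m x|)) ∂μ :=
      (measPres (N m) (hN m)).lintegral_comp (hmeas m)
    rw [h2, ← ofReal_integral_eq_lintegral_ofReal (hint m)
      (Eventually.of_forall fun x => Real.sqrt_nonneg _)]
    exact ENNReal.ofReal_le_ofReal (hs m)
  have h3 : ∫⁻ x, ∑' m, ENNReal.ofReal (√(1 - |a m (N m • x)|)) ∂μ < ⊤ := by
    have hmc : ∀ m, AEMeasurable (fun x : 𝕋 => ENNReal.ofReal (√(1 - |a m (N m • x)|))) μ :=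
      fun m => ((hmeas m).comp (hn m).measurable).aemeasurable
    rw [lintegral_tsum hmc]
    have hsum : Summable (fun m : ℕ => (1 / 4 : ℝ) ^ m) :=
      summable_geometric_of_lt_one (by norm_num) (by norm_num)
    refine lt_of_le_of_lt (ENNReal.tsum_le_tsum h1) ?_
    rw [← ENNReal.ofReal_tsum_of_nonneg (fun m => by positivity) hsum]
    exact ENNReal.ofReal_lt_top
  have hmc2 : ∀ m, Measurable (fun x : 𝕋 => ENNReal.ofReal (√(1 - |a m (N m • x)|))) :=
    fun m => (hmeas m).comp (hn m).measurable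
  have h4 := ae_lt_top (Measurable.tsum hmc2) h3.ne
  filter_upwards [h4] with x hx
  have h5 := ENNReal.summable_toReal hx.ne
  refine h5.congr fun m => ?_
  exact ENNReal.toReal_ofReal (Real.sqrt_nonneg _)

end

end Lim

theorem exists_limit (a : ℕ → 𝕋 → ℝ) (b : ℕ → 𝕋 → ℂ) (N : ℕ → ℕ)
    (ha : ∀ m, Continuous (a m)) (hb : ∀ m, Continuous (b m)) (hN : ∀ m, 0 < N m)
    (h1 : ∀ m x, a m x ^ 2 + ‖b m x‖ ^ 2 = 1)
    (hs : ∀ m, ∫ x, √(1 - |a m x|) ∂μ ≤ (1 / 4 : ℝ) ^ m) :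
    ∃ α β : 𝕋 → ℂ, Measurable α ∧ Measurable β ∧
      (∀ᵐ x ∂μ, Tendsto (fun n => (V a b N n x).1) atTop (𝓝 (α x))) ∧
      (∀ᵐ x ∂μ, Tendsto (fun n => (V a b N n x).2) atTop (𝓝 (β x))) := by
  have hsum := Lim.ae_summable a N ha hN hs
  have hex1 : ∀ᵐ x ∂μ, ∃ l, Tendsto (fun n => (V a b N n x).1) atTop (𝓝 l) := by
    filter_upwards [hsum] with x hx
    refine cauchySeq_tendsto_of_complete (cauchySeq_of_summable_dist ?_)
    exact Summable.of_nonneg_of_le (fun m => dist_nonneg) (fun m => Lim.dist_fst a b N h1 m x)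
      (hx.mul_left 3)
  have hex2 : ∀ᵐ x ∂μ, ∃ l, Tendsto (fun n => (V a b N n x).2) atTop (𝓝 l) := by
    filter_upwards [hsum] with x hx
    refine cauchySeq_tendsto_of_complete (cauchySeq_of_summable_dist ?_)
    exact Summable.of_nonneg_of_le (fun m => dist_nonneg) (fun m => Lim.dist_snd a b N h1 m x)
      (hx.mul_left 3)
  obtain ⟨α, hα, hα2⟩ := measurable_limit_of_tendsto_metrizable_ae
    (fun n => (Lim.measurable_V a b N ha hb n).1.aemeasurable) hex1
  obtain ⟨β, hβ, hβ2⟩ := measurable_limit_of_tendsto_metrizable_ae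
    (fun n => (Lim.measurable_V a b N ha hb n).2.aemeasurable) hex2
  exact ⟨α, β, hα, hβ, hα2, hβ2⟩

end TransAlg
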