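import Pool.Agent.Work.MP_56c4bc_an.Defs

/-!
# The sign integral and the choice of the frequencies
-/

open MeasureTheory AddCircle Complex Filter Topology
open scoped ENNReal ComplexConjugate

namespace TransAlg

/-! Auxiliary lemmas. -/

namespace SI

theorem sg_mul_sg (r : ℝ) : sg r * sg r = 1 := by
  unfold sg
  split_ifs <;> norm_num

theorem abs_sg (r : ℝ) : |sg r| = 1 := by
  unfold sg
  split_ifs <;> norm_num

theorem abs_sg_sub {r : ℝ} (h : |r| ≤ 1) : |sg r - r| ≤ √(1 - |r|) := by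
  have h1 : |sg r - r| = 1 - |r| := by
    unfold sg
    split_ifs with h0
    · rw [abs_of_nonneg h0] at h ⊢
      rw [abs_of_nonneg (by linarith)]
    · rw [not_le] at h0
      rw [abs_of_neg h0] at h ⊢
      rw [abs_of_nonpos (by linarith)]
      ring
  rw [h1]
  have h2 : 0 ≤ 1 - |r| := by linarith
  have h3 : 1 - |r| ≤ 1 := by linarith [abs_nonneg r]
  apply Real.le_sqrt_of_sq_le
  nlinarith

theorem abs_sg_add_sg_neg {r : ℝ} (h : |r| ≤ 1) : |sg r + sg (-r)| ≤ 2 * √(1 - |r|) := by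
  unfold sg
  rcases lt_trichotomy r 0 with h0 | h0 | h0
  · rw [if_neg (not_le.2 h0), if_pos (by linarith)]
    norm_num
  · subst h0
    norm_num
  · rw [if_pos h0.le, if_neg (by linarith)]
    norm_num

theorem measurePreserving_nsmul' {N : ℕ} (hN : 0 < N) :
    MeasurePreserving (fun x : 𝕋 => N • x) μ μ := by
  have h := Measure.measurePreserving_zsmul μ (n := (N : ℤ)) (by exact_mod_cast hN.ne')
  simpa using h

theorem abs_prod_sub_one_le (u : ℕ → ℝ) (hu : ∀ m, |u m| = 1) (n : ℕ) :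
    |(∏ m ∈ Finset.range n, u m) - 1| ≤ ∑ m ∈ Finset.range n, |u m - 1| := by
  induction n with
  | zero => simp
  | succ n ih =>
    rw [Finset.prod_range_succ, Finset.sum_range_succ]
    have h1 : (∏ m ∈ Finset.range n, u m) * u n - 1 =
      ((∏ m ∈ Finset.range n, u m) - 1) * u n + (u n - 1) := by ring
    rw [h1]
    refine (abs_add_le _ _).trans ?_
    rw [abs_mul, hu n, mul_one]
    linarith

theorem integral_nsmul {f : 𝕋 → ℝ} (hf : Measurable f) {N : ℕ} (hN : 0 < N) :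
    ∫ x, f (N • x) ∂μ = ∫ y, f y ∂μ := by
  have h := measurePreserving_nsmul' hN
  have h2 := integral_map (μ := μ) (φ := fun x : 𝕋 => N • x) h.measurable.aemeasurable
    (f := f) hf.aestronglyMeasurable
  rw [h.map_eq] at h2
  exact h2.symm

theorem integrable_of_bdd {f : 𝕋 → ℝ} (hf : Measurable f) {C : ℝ} (h : ∀ x, |f x| ≤ C) :
    Integrable f μ :=
  Integrable.of_bound hf.aestronglyMeasurable C (Eventually.of_forall h)

end SI

open SI

/-- **The sign integral is small.** -/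
theorem integral_sign_small (a : ℕ → 𝕋 → ℝ) (ha : ∀ m, Continuous (a m))
    (hle : ∀ m x, |a m x| ≤ 1) (hodd : ∀ m x, a m (x + ((1 / 2 : ℝ) : 𝕋)) = - a m x)
    (hs : ∀ m, ∫ x, √(1 - |a m x|) ∂μ ≤ (1 / 4 : ℝ) ^ (m + 3)) (N : ℕ → ℕ)
    (hN : ∀ m, 0 < N m)
    (hNt : ∀ n, ∀ m < n, ∀ y : 𝕋,
      |a m (y + (((N m : ℝ) / (4 * N n) : ℝ) : 𝕋)) - a m y| ≤ (1 / 4 : ℝ) ^ (n + 1)) (n : ℕ) :
    |∫ x, (∏ m ∈ Finset.range (n + 1), sg (a m (N m • x))) *
      (∏ m ∈ Finset.range (n + 1), sg (a m (N m • (x + ((1 / (4 * N n) : ℝ) : 𝕋))))) ∂μ| ≤ 1 / 2 := by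
  -- measurability
  have hma : ∀ m, Measurable (fun y => sg (a m y)) := fun m =>
    measurable_sg.comp (ha m).measurable
  have hsq : ∀ m, Integrable (fun y => √(1 - |a m y|)) μ := fun m =>
    integrable_of_bdd (Continuous.measurable (by fun_prop)) (C := 1) (fun x => by
      rw [abs_of_nonneg (Real.sqrt_nonneg _)]
      exact Real.sqrt_le_one.2 (by linarith [abs_nonneg (a m x)]))
  -- the translations
  have htr : ∀ m x, N m • (x + ((1 / (4 * N n) : ℝ) : 𝕋)) =
      N m • x + (((N m : ℝ) / (4 * N n) : ℝ) : 𝕋) := by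
    intro m x
    rw [smul_add, ← AddCircle.coe_nsmul]
    congr 2
    rw [nsmul_eq_mul]
    ring
  set u : ℕ → 𝕋 → ℝ := fun m y =>
    sg (a m y) * sg (a m (y + (((N m : ℝ) / (4 * N n) : ℝ) : 𝕋))) with hu
  have hum : ∀ m, Measurable (u m) := fun m =>
    (hma m).mul ((hma m).comp (measurable_add_const _))
  have hu1 : ∀ m y, |u m y| = 1 := by
    intro m y
    rw [hu]
    simp only
    rw [abs_mul, abs_sg, abs_sg, mul_one]
  have hprod : ∀ x, (∏ m ∈ Finset.range (n + 1), sg (a m (N m • x))) *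
      (∏ m ∈ Finset.range (n + 1), sg (a m (N m • (x + ((1 / (4 * N n) : ℝ) : 𝕋))))) =
      (∏ m ∈ Finset.range n, u m (N m • x)) * u n (N n • x) := by
    intro x
    rw [← Finset.prod_mul_distrib, Finset.prod_range_succ]
    simp only [htr, hu]
  simp_rw [hprod]
  -- integrability
  have hui : ∀ m, Integrable (u m) μ := fun m => integrable_of_bdd (hum m) (C := 1)
    (fun x => (hu1 m x).le)
  have hsqle : ∀ m y, √(1 - |a m y|) ≤ 1 := fun m y =>
    Real.sqrt_le_one.2 (by linarith [abs_nonneg (a m y)])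
  -- the last factor
  have hlast : |∫ x, u n (N n • x) ∂μ| ≤ 1 / 64 := by
    rw [integral_nsmul (hum n) (hN n)]
    have e1 : (((N n : ℝ) / (4 * N n) : ℝ) : 𝕋) = ((1 / 4 : ℝ) : 𝕋) := by
      congr 1
      have : (N n : ℝ) ≠ 0 := by exact_mod_cast (hN n).ne'
      field_simp
    have e2 : ∀ y, u n y = sg (a n y) * sg (a n (y + ((1 / 4 : ℝ) : 𝕋))) := by
      intro y
      rw [hu]
      simp only [e1]
    have e3 : ∫ y, u n y ∂μ = ∫ y, u n (y + ((1 / 4 : ℝ) : 𝕋)) ∂μ :=
      (integral_add_right_eq_self (μ := μ) (u n) ((1 / 4 : ℝ) : 𝕋)).symm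
    have e4 : ∀ y, u n (y + ((1 / 4 : ℝ) : 𝕋)) =
        sg (a n (y + ((1 / 4 : ℝ) : 𝕋))) * sg (- a n y) := by
      intro y
      rw [e2, add_assoc, ← AddCircle.coe_add]
      have : (1 / 4 + 1 / 4 : ℝ) = 1 / 2 := by norm_num
      rw [this, hodd]
    have e5 : 2 * ∫ y, u n y ∂μ = ∫ y, (u n y + u n (y + ((1 / 4 : ℝ) : 𝕋))) ∂μ := by
      rw [integral_add (hui n) ((hui n).comp_add_right _), ← e3]
      ring
    have e6 : |∫ y, (u n y + u n (y + ((1 / 4 : ℝ) : 𝕋))) ∂μ| ≤
        ∫ y, 2 * √(1 - |a n y|) ∂μ := by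
      rw [← Real.norm_eq_abs]
      refine norm_integral_le_of_norm_le ((hsq n).const_mul 2) (Eventually.of_forall fun y => ?_)
      rw [Real.norm_eq_abs, e4, e2]
      have e7 : sg (a n y) * sg (a n (y + ((1 / 4 : ℝ) : 𝕋))) +
          sg (a n (y + ((1 / 4 : ℝ) : 𝕋))) * sg (- a n y) =
          sg (a n (y + ((1 / 4 : ℝ) : 𝕋))) * (sg (a n y) + sg (- a n y)) := by ring
      rw [e7, abs_mul, abs_sg, one_mul]
      exact abs_sg_add_sg_neg (hle n y)
    rw [← e5, abs_mul, abs_two, integral_const_mul] at e6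
    have e8 := hs n
    have e9 : (1 / 4 : ℝ) ^ (n + 3) ≤ (1 / 4 : ℝ) ^ 3 :=
      pow_le_pow_of_le_one (by norm_num) (by norm_num) (by omega)
    norm_num at e9
    linarith
  -- the other factors
  have hother : ∀ m ∈ Finset.range n, ∫ x, |u m (N m • x) - 1| ∂μ ≤
      2 * (1 / 4 : ℝ) ^ (m + 3) + (1 / 4 : ℝ) ^ (n + 1) := by
    intro m hm
    rw [Finset.mem_range] at hm
    rw [integral_nsmul (f := fun y => |u m y - 1|)
      (by have := (hum m).sub_const 1; exact this.abs) (hN m)]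
    set τ : 𝕋 := (((N m : ℝ) / (4 * N n) : ℝ) : 𝕋) with hτ
    have h1 : ∀ y, |u m y - 1| ≤ √(1 - |a m y|) + √(1 - |a m (y + τ)|) +
        (1 / 4 : ℝ) ^ (n + 1) := by
      intro y
      have e1 : u m y - 1 = sg (a m y) * (sg (a m (y + τ)) - sg (a m y)) := by
        rw [hu]
        simp only
        rw [mul_sub, sg_mul_sg]
      rw [e1, abs_mul, abs_sg, one_mul]
      have e2 : sg (a m (y + τ)) - sg (a m y) = (sg (a m (y + τ)) - a m (y + τ)) -
        (sg (a m y) - a m y) + (a m (y + τ) - a m y) := by ring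
      rw [e2]
      refine (abs_add_le _ _).trans (add_le_add ?_ (hNt n m hm y))
      refine (abs_sub _ _).trans ?_
      rw [add_comm]
      exact add_le_add (abs_sg_sub (hle m y)) (abs_sg_sub (hle m (y + τ)))
    have h2 : Integrable (fun y => √(1 - |a m (y + τ)|)) μ := (hsq m).comp_add_right τ
    calc ∫ y, |u m y - 1| ∂μ ≤ ∫ y, (√(1 - |a m y|) + √(1 - |a m (y + τ)|) +
          (1 / 4 : ℝ) ^ (n + 1)) ∂μ :=
          integral_mono ((hui m).sub (integrable_const 1)).abs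
            (((hsq m).add h2).add (integrable_const _)) h1
      _ = ∫ y, √(1 - |a m y|) ∂μ + ∫ y, √(1 - |a m (y + τ)|) ∂μ + (1 / 4 : ℝ) ^ (n + 1) := by
          rw [integral_add (f := fun y => √(1 - |a m y|) + √(1 - |a m (y + τ)|))
            ((hsq m).add h2) (integrable_const _), integral_add (hsq m) h2]
          simp
      _ = 2 * ∫ y, √(1 - |a m y|) ∂μ + (1 / 4 : ℝ) ^ (n + 1) := by
          rw [integral_add_right_eq_self (μ := μ) (fun y => √(1 - |a m y|)) τ]
          ring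
      _ ≤ _ := by
          have := hs m
          linarith
  -- the product of the other factors
  set P : 𝕋 → ℝ := fun x => ∏ m ∈ Finset.range n, u m (N m • x) with hP
  have hcm : ∀ m, Measurable (fun x : 𝕋 => u m (N m • x)) := fun m =>
    (hum m).comp (measurePreserving_nsmul' (hN m)).measurable
  have hPm : Measurable P := Finset.measurable_prod _ (fun m _ => hcm m)
  have hP1 : ∀ x, |P x| = 1 := by
    intro x
    rw [hP]
    simp only
    rw [Finset.abs_prod]
    exact Finset.prod_eq_one (fun m _ => hu1 m _)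
  have hPi : Integrable P μ := integrable_of_bdd hPm (C := 1) (fun x => (hP1 x).le)
  have hni : Integrable (fun x : 𝕋 => u n (N n • x)) μ :=
    integrable_of_bdd (hcm n) (C := 1) (fun x => (hu1 n _).le)
  have hmi : ∀ m, Integrable (fun x : 𝕋 => |u m (N m • x) - 1|) μ := fun m =>
    ((integrable_of_bdd (hcm m) (C := 1) (fun x => (hu1 m _).le)).sub (integrable_const 1)).abs
  have hsplit : ∫ x, P x * u n (N n • x) ∂μ =
      ∫ x, (P x - 1) * u n (N n • x) ∂μ + ∫ x, u n (N n • x) ∂μ := by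
    rw [← integral_add _ hni]
    · congr 1
      ext x
      ring
    · exact integrable_of_bdd ((hPm.sub_const 1).mul (hcm n)) (C := 2) (fun x => by
        rw [abs_mul, hu1, mul_one]
        refine (abs_sub _ _).trans ?_
        rw [hP1, abs_one]
        norm_num)
  have hfirst : |∫ x, (P x - 1) * u n (N n • x) ∂μ| ≤
      ∑ m ∈ Finset.range n, (2 * (1 / 4 : ℝ) ^ (m + 3) + (1 / 4 : ℝ) ^ (n + 1)) := by
    have e1 : |∫ x, (P x - 1) * u n (N n • x) ∂μ| ≤
        ∫ x, ∑ m ∈ Finset.range n, |u m (N m • x) - 1| ∂μ := by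
      rw [← Real.norm_eq_abs]
      refine norm_integral_le_of_norm_le (integrable_finsetSum _ (fun m _ => hmi m))
        (Eventually.of_forall fun x => ?_)
      rw [Real.norm_eq_abs, abs_mul, hu1, mul_one]
      exact abs_prod_sub_one_le (fun m => u m (N m • x)) (fun m => hu1 m _) n
    rw [integral_finsetSum _ (fun m _ => hmi m)] at e1
    exact e1.trans (Finset.sum_le_sum hother)
  have hgeo : ∀ k : ℕ, ∑ m ∈ Finset.range k, (1 / 4 : ℝ) ^ (m + 3) =
      1 / 48 * (1 - (1 / 4 : ℝ) ^ k) := by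
    intro k
    induction k with
    | zero => simp
    | succ k ih =>
      rw [Finset.sum_range_succ, ih]
      ring
  have hn4 : (n : ℝ) * (1 / 4 : ℝ) ^ (n + 1) ≤ 1 / 4 := by
    have e1 : (n : ℝ) ≤ 2 ^ n := by exact_mod_cast Nat.lt_two_pow_self.le
    have e2 : (2 : ℝ) ^ n * (1 / 4 : ℝ) ^ (n + 1) = (1 / 2 : ℝ) ^ n * (1 / 4) := by
      rw [pow_succ, ← mul_assoc, ← mul_pow]
      norm_num
    have e3 : (1 / 2 : ℝ) ^ n ≤ 1 := pow_le_one₀ (by norm_num) (by norm_num)
    have e4 : (n : ℝ) * (1 / 4 : ℝ) ^ (n + 1) ≤ (2 : ℝ) ^ n * (1 / 4 : ℝ) ^ (n + 1) :=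
      mul_le_mul_of_nonneg_right e1 (by positivity)
    linarith
  rw [Finset.sum_add_distrib, ← Finset.mul_sum, hgeo, Finset.sum_const, Finset.card_range,
    nsmul_eq_mul] at hfirst
  have hpos : 0 ≤ (1 / 4 : ℝ) ^ n := by positivity
  rw [hsplit]
  refine (abs_add_le _ _).trans ?_
  linarith

/-! ### The choice of the frequencies -/

theorem SI.exists_modulus (a : ℕ → 𝕋 → ℝ) (ha : ∀ m, Continuous (a m)) (j : ℕ) :
    ∃ K : ℕ, 1 ≤ K ∧ ∀ m ≤ j, ∀ t : ℝ, |t| ≤ 1 / (16 * K) → ∀ y : 𝕋,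
      |a m (y + (t : 𝕋)) - a m y| ≤ (1 / 4 : ℝ) ^ (j + 2) := by
  have h1 : ∀ m, ∃ δ > 0, ∀ t : ℝ, |t| ≤ δ → ∀ y : 𝕋,
      |a m (y + (t : 𝕋)) - a m y| ≤ (1 / 4 : ℝ) ^ (j + 2) := by
    intro m
    have huc : UniformContinuous (a m) := CompactSpace.uniformContinuous_of_continuous (ha m)
    obtain ⟨δ, hδ, h⟩ := Metric.uniformContinuous_iff.1 huc ((1 / 4 : ℝ) ^ (j + 2))
      (by positivity)
    refine ⟨δ / 2, by positivity, fun t ht y => ?_⟩
    have h2 : dist (y + (t : 𝕋)) y < δ := by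
      rw [dist_eq_norm, add_sub_cancel_left]
      refine lt_of_le_of_lt (le_trans ?_ ht) (by linarith)
      rw [UnitAddCircle.norm_eq]
      have := round_le t 0
      simpa using this
    have h3 := h h2
    rw [Real.dist_eq] at h3
    exact h3.le
  choose δ hδ hh using h1
  obtain ⟨ε, hε, hε'⟩ : ∃ ε > 0, ∀ m ≤ j, ε ≤ δ m := by
    refine ⟨(Finset.range (j + 1)).inf' ⟨0, by simp⟩ δ, ?_, ?_⟩
    · rw [gt_iff_lt, Finset.lt_inf'_iff]
      exact fun m _ => hδ m
    · intro m hm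
      exact Finset.inf'_le _ (by rw [Finset.mem_range]; omega)
  obtain ⟨K, hK⟩ := exists_nat_gt (1 / (16 * ε))
  refine ⟨K + 1, by omega, fun m hm t ht y => hh m t (le_trans ht ?_) y⟩
  refine le_trans ?_ (hε' m hm)
  rw [div_lt_iff₀ (by positivity)] at hK
  rw [div_le_iff₀ (by positivity)]
  push_cast
  nlinarith

/-- **The choice of the frequencies.** -/
theorem exists_N (a : ℕ → 𝕋 → ℝ) (ha : ∀ m, Continuous (a m)) : ∃ N : ℕ → ℕ,
    (∀ n, 0 < N n) ∧ (∀ n, 4 * N n ∣ N (n + 1)) ∧ (∀ n, 4 ^ n ≤ N n) ∧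
    ∀ n, ∀ m < n, ∀ y : 𝕋,
      |a m (y + (((N m : ℝ) / (4 * N n) : ℝ) : 𝕋)) - a m y| ≤ (1 / 4 : ℝ) ^ (n + 1) := by
  choose K hK1 hK using SI.exists_modulus a ha
  set N : ℕ → ℕ := fun n => ∏ j ∈ Finset.range n, (4 * K j) with hN
  have hsucc : ∀ n, N (n + 1) = N n * (4 * K n) := fun n => Finset.prod_range_succ _ _
  have hpos : ∀ n, 0 < N n := fun n => Finset.prod_pos (fun j _ => by
    have := hK1 j
    omega)
  have hmono : ∀ m n, m ≤ n → N m ≤ N n := by
    intro m n hmn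
    have : Monotone N := monotone_nat_of_le_succ (fun n => by
      rw [hsucc]
      have := hK1 n
      exact Nat.le_mul_of_pos_right _ (by omega))
    exact this hmn
  refine ⟨N, hpos, fun n => ⟨K n, by rw [hsucc]; ring⟩, ?_, ?_⟩
  · intro n
    induction n with
    | zero => simp [hN]
    | succ n ih =>
      rw [hsucc, pow_succ]
      have := hK1 n
      exact Nat.mul_le_mul ih (by omega)
  · intro n m hm y
    obtain ⟨k, rfl⟩ : ∃ k, n = k + 1 := ⟨n - 1, by omega⟩
    refine hK k m (by omega) _ ?_ y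
    have h1 : (N m : ℝ) ≤ N k := by exact_mod_cast hmono m k (by omega)
    have h2 : (0 : ℝ) < N k := by exact_mod_cast hpos k
    have h3 : (1 : ℝ) ≤ K k := by exact_mod_cast hK1 k
    rw [abs_of_nonneg (by positivity), hsucc]
    push_cast
    rw [div_le_div_iff₀ (by positivity) (by positivity)]
    nlinarith

end TransAlg
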