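import Pool.Agent.Work.MP_56c4bc_an.Gate
import Pool.Agent.Work.MP_56c4bc_an.FejerRiesz
import Pool.Agent.Work.MP_56c4bc_an.Limit
import Pool.Agent.Work.MP_56c4bc_an.SignInt

/-!
# Existence of the data (helper46)

The infinite product of the gates gives a member of `Data`.
-/

open MeasureTheory AddCircle Complex Filter Topology
open scoped ENNReal ComplexConjugate

namespace TransAlg

namespace Mk

variable (a : ℕ → 𝕋 → ℝ) (b : ℕ → 𝕋 → ℂ) (N : ℕ → ℕ)

/-- the products without signs -/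
noncomputable def Q : ℕ → 𝕋 → ℂ × ℂ
  | 0, _ => (1, 0)
  | m + 1, x =>
    (((a m (N m • x) : ℂ) * (Q m x).1 - conj (b m (N m • x)) * (Q m x).2),
     (b m (N m • x) * (Q m x).1 + (a m (N m • x) : ℂ) * (Q m x).2))

/-- the product of the signs -/
noncomputable def E (n : ℕ) (x : 𝕋) : ℝ := ∏ m ∈ Finset.range n, sg (a m (N m • x))

theorem E_sq (n : ℕ) (x : 𝕋) : E a N n x ^ 2 = 1 := by
  unfold E
  rw [← Finset.prod_pow]
  exact Finset.prod_eq_one fun m _ => sg_sq _

theorem V_eq (m : ℕ) (x : 𝕋) : (V a b N m x).1 = (E a N m x : ℂ) * (Q a b N m x).1 ∧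
    (V a b N m x).2 = (E a N m x : ℂ) * (Q a b N m x).2 := by
  induction m with
  | zero => simp [V, Q, E]
  | succ m ih =>
    have hE : (E a N (m + 1) x : ℂ) = (E a N m x : ℂ) * (sg (a m (N m • x)) : ℂ) := by
      unfold E
      rw [Finset.prod_range_succ]
      push_cast
      ring
    constructor
    · simp only [V, Q]
      rw [ih.1, ih.2, hE]
      ring
    · simp only [V, Q]
      rw [ih.1, ih.2, hE]
      ring

/-- the degree of the products -/
def deg (D N : ℕ → ℕ) : ℕ → ℕ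
  | 0 => 0
  | m + 1 => N m * D m + deg D N m

theorem Q_mem (D : ℕ → ℕ) (ha : ∀ m, (fun x => (a m x : ℂ)) ∈ TP (D m))
    (hb : ∀ m, b m ∈ TP (D m)) (m : ℕ) :
    (fun x => (Q a b N m x).1) ∈ TP (deg D N m) ∧ (fun x => (Q a b N m x).2) ∈ TP (deg D N m) := by
  induction m with
  | zero =>
    constructor
    · exact TP.one_mem _
    · exact Submodule.zero_mem _
  | succ m ih =>
    have h1 : (fun x => (a m (N m • x) : ℂ)) ∈ TP (N m * D m) := TP.comp_nsmul (ha m) (N m)
    have h2 : (fun x => b m (N m • x)) ∈ TP (N m * D m) := TP.comp_nsmul (hb m) (N m)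
    have h3 : (fun x => conj (b m (N m • x))) ∈ TP (N m * D m) := TP.conj h2
    constructor
    · exact Submodule.sub_mem _ (TP.mul h1 ih.1) (TP.mul h3 ih.2)
    · exact Submodule.add_mem _ (TP.mul h2 ih.1) (TP.mul h1 ih.2)

/-- the hermitian form -/
def ip (u v : ℂ × ℂ) : ℂ := conj u.1 * v.1 + conj u.2 * v.2

/-- the determinant -/
def dt (u v : ℂ × ℂ) : ℂ := u.1 * v.2 - u.2 * v.1

theorem V_step (h1 : ∀ m x, a m x ^ 2 + ‖b m x‖ ^ 2 = 1) (m : ℕ) (x y : 𝕋)
    (hxy : N m • x = N m • y) :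
    ip (V a b N (m + 1) x) (V a b N (m + 1) y) = ip (V a b N m x) (V a b N m y) ∧
    dt (V a b N (m + 1) x) (V a b N (m + 1) y) = dt (V a b N m x) (V a b N m y) := by
  have hb : (b m (N m • y)) * conj (b m (N m • y)) = 1 - (a m (N m • y) : ℂ) ^ 2 := by
    rw [Complex.mul_conj, Complex.normSq_eq_norm_sq]
    have := h1 m (N m • y)
    have h2 : ‖b m (N m • y)‖ ^ 2 = 1 - a m (N m • y) ^ 2 := by linarith
    rw [h2]
    push_cast
    ring
  have hs : ((sg (a m (N m • y)) : ℝ) : ℂ) ^ 2 = 1 := by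
    rw [← Complex.ofReal_pow, sg_sq, Complex.ofReal_one]
  constructor
  · simp only [ip, V, hxy, map_mul, map_sub, map_add, Complex.conj_ofReal, Complex.conj_conj]
    linear_combination
      ((sg (a m (N m • y)) : ℂ) ^ 2 * (conj (V a b N m x).1 * (V a b N m y).1 +
        conj (V a b N m x).2 * (V a b N m y).2)) * hb +
      (conj (V a b N m x).1 * (V a b N m y).1 + conj (V a b N m x).2 * (V a b N m y).2) * hs
  · simp only [dt, V, hxy]
    linear_combination
      ((sg (a m (N m • y)) : ℂ) ^ 2 * ((V a b N m x).1 * (V a b N m y).2 -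
        (V a b N m x).2 * (V a b N m y).1)) * hb +
      ((V a b N m x).1 * (V a b N m y).2 - (V a b N m x).2 * (V a b N m y).1) * hs

theorem V_stable (h1 : ∀ m x, a m x ^ 2 + ‖b m x‖ ^ 2 = 1) (n : ℕ) (x y : 𝕋)
    (hxy : ∀ m, n ≤ m → N m • x = N m • y) (k : ℕ) :
    ip (V a b N (n + k) x) (V a b N (n + k) y) = ip (V a b N n x) (V a b N n y) ∧
    dt (V a b N (n + k) x) (V a b N (n + k) y) = dt (V a b N n x) (V a b N n y) := by
  induction k with
  | zero => exact ⟨rfl, rfl⟩
  | succ k ih =>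
    have := V_step a b N h1 (n + k) x y (hxy _ (by omega))
    exact ⟨this.1.trans ih.1, this.2.trans ih.2⟩

theorem V_norm (h1 : ∀ m x, a m x ^ 2 + ‖b m x‖ ^ 2 = 1) (n : ℕ) (x : 𝕋) :
    ‖(V a b N n x).1‖ ^ 2 + ‖(V a b N n x).2‖ ^ 2 = 1 := by
  have h := (V_stable a b N h1 0 x x (fun m _ => rfl) n).1
  rw [zero_add] at h
  have h0 : ip (V a b N 0 x) (V a b N 0 x) = 1 := by simp [ip, V]
  rw [h0] at h
  unfold ip at h
  rw [← Complex.normSq_eq_conj_mul_self, ← Complex.normSq_eq_conj_mul_self,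
    Complex.normSq_eq_norm_sq, Complex.normSq_eq_norm_sq] at h
  exact_mod_cast h

theorem lim_eq {α β : 𝕋 → ℂ}
    (h1 : ∀ m x, a m x ^ 2 + ‖b m x‖ ^ 2 = 1)
    (x y : 𝕋)
    (hx1 : Tendsto (fun n => (V a b N n x).1) atTop (𝓝 (α x)))
    (hx2 : Tendsto (fun n => (V a b N n x).2) atTop (𝓝 (β x)))
    (hy1 : Tendsto (fun n => (V a b N n y).1) atTop (𝓝 (α y)))
    (hy2 : Tendsto (fun n => (V a b N n y).2) atTop (𝓝 (β y))) (n : ℕ)
    (hxy : ∀ m, n ≤ m → N m • x = N m • y) :
    conj (α x) * α y + conj (β x) * β y = ip (V a b N n x) (V a b N n y) ∧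
    α x * β y - β x * α y = dt (V a b N n x) (V a b N n y) := by
  have hcj : ∀ {u : ℕ → ℂ} {l : ℂ}, Tendsto u atTop (𝓝 l) →
      Tendsto (fun n => conj (u n)) atTop (𝓝 (conj l)) := fun h =>
    (Complex.continuous_conj.tendsto _).comp h
  constructor
  · have h : Tendsto (fun k => ip (V a b N k x) (V a b N k y)) atTop
        (𝓝 (conj (α x) * α y + conj (β x) * β y)) :=
      ((hcj hx1).mul hy1).add ((hcj hx2).mul hy2)
    refine tendsto_nhds_unique h ?_
    refine tendsto_const_nhds.congr' ?_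
    filter_upwards [eventually_ge_atTop n] with k hk
    obtain ⟨j, rfl⟩ := Nat.exists_eq_add_of_le hk
    exact (V_stable a b N h1 n x y hxy j).1.symm
  · have h : Tendsto (fun k => dt (V a b N k x) (V a b N k y)) atTop
        (𝓝 (α x * β y - β x * α y)) := (hx1.mul hy2).sub (hx2.mul hy1)
    refine tendsto_nhds_unique h ?_
    refine tendsto_const_nhds.congr' ?_
    filter_upwards [eventually_ge_atTop n] with k hk
    obtain ⟨j, rfl⟩ := Nat.exists_eq_add_of_le hk
    exact (V_stable a b N h1 n x y hxy j).2.symm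

theorem ae_add {p : 𝕋 → Prop} (h : ∀ᵐ x ∂μ, p x) (t : 𝕋) : ∀ᵐ x ∂μ, p (x + t) :=
  (measurePreserving_add_right μ t).quasiMeasurePreserving.ae h

theorem four_dvd (hN : ∀ n, 4 * N n ∣ N (n + 1)) (n : ℕ) : ∀ m, n + 1 ≤ m → 4 * N n ∣ N m := by
  intro m hm
  induction m, hm using Nat.le_induction with
  | base => exact hN n
  | succ m _ ih => exact ih.trans ((Dvd.intro_left 4 rfl).trans (hN m))

end Mk

theorem exists_data : Nonempty Data := by
  have hg := fun m : ℕ => exists_gate_of fejer_riesz ((1 / 4 : ℝ) ^ (m + 3)) (by positivity)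
  choose D a b hTa hTb h1 hodd hint using hg
  have hac : ∀ m, Continuous (a m) := by
    intro m
    have h := TP.continuous (hTa m)
    have h2 : a m = fun x => ((a m x : ℂ)).re := by funext x; simp
    rw [h2]
    exact Complex.continuous_re.comp h
  have hbc : ∀ m, Continuous (b m) := fun m => TP.continuous (hTb m)
  obtain ⟨N, hNpos, hNdvd, hNge, hNmod⟩ := exists_N a hac
  have hs0 : ∀ m, ∫ x, √(1 - |a m x|) ∂μ ≤ (1 / 4 : ℝ) ^ m := by
    intro m
    refine (hint m).trans ?_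
    exact pow_le_pow_of_le_one (by norm_num) (by norm_num) (by omega)
  obtain ⟨α, β, hα, hβ, hVα, hVβ⟩ := exists_limit a b N hac hbc hNpos h1 hs0
  have hle : ∀ m x, |a m x| ≤ 1 := by
    intro m x
    have h := h1 m x
    have h2 : a m x ^ 2 ≤ 1 := by nlinarith [sq_nonneg ‖b m x‖]
    exact abs_le_one_iff_mul_self_le_one.2 (by nlinarith)
  have hsmall := integral_sign_small a hac hle hodd hint N hNpos hNmod
  have hinv : ∀ n (t : 𝕋), (4 * N n) • t = 0 → ∀ x : 𝕋, ∀ m, n + 1 ≤ m →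
      N m • x = N m • (x + t) := by
    intro n t ht x m hm
    obtain ⟨c, hc⟩ := Mk.four_dvd N hNdvd n m hm
    rw [nsmul_add, hc, mul_comm, mul_nsmul' t c, ht, nsmul_zero, add_zero]
  refine ⟨{
    α := α
    β := β
    hα := hα
    hβ := hβ
    unit := ?_
    ε := fun n => Mk.E a N (n + 1)
    hε := ?_
    ε_sq := fun n x => Mk.E_sq a N (n + 1) x
    N := fun n => 4 * N n
    N_pos := fun n => Nat.mul_pos (by norm_num) (hNpos n)
    M := fun n => Mk.deg D N (n + 1)
    A := fun n x => (Mk.Q a b N (n + 1) x).1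
    B := fun n x => (Mk.Q a b N (n + 1) x).2
    hA := fun n => (Mk.Q_mem a b N D hTa hTb (n + 1)).1
    hB := fun n => (Mk.Q_mem a b N D hTa hTb (n + 1)).2
    inv1 := ?_
    inv2 := ?_
    t := fun n => ((1 / (4 * N n) : ℝ) : 𝕋)
    N_t := ?_
    t_lim := ?_
    small := ?_
    sep := ?_ }⟩
  · filter_upwards [hVα, hVβ] with x hx1 hx2
    have h : Tendsto (fun n => ‖(V a b N n x).1‖ ^ 2 + ‖(V a b N n x).2‖ ^ 2) atTop
        (𝓝 (‖α x‖ ^ 2 + ‖β x‖ ^ 2)) := (hx1.norm.pow 2).add (hx2.norm.pow 2)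
    refine tendsto_nhds_unique h ?_
    simp only [Mk.V_norm a b N h1]
    exact tendsto_const_nhds
  · intro n
    have h : ∀ m, Measurable fun x : 𝕋 => sg (a m (N m • x)) := fun m =>
      measurable_sg.comp ((hac m).measurable.comp (continuous_nsmul (N m)).measurable)
    exact Finset.measurable_prod _ fun m _ => h m
  · intro n t ht
    filter_upwards [hVα, hVβ, Mk.ae_add hVα t, Mk.ae_add hVβ t] with x hx1 hx2 hy1 hy2
    rw [(Mk.lim_eq a b N h1 x (x + t) hx1 hx2 hy1 hy2 (n + 1) (hinv n t ht x)).1]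
    unfold Mk.ip
    rw [(Mk.V_eq a b N (n + 1) x).1, (Mk.V_eq a b N (n + 1) x).2,
      (Mk.V_eq a b N (n + 1) (x + t)).1, (Mk.V_eq a b N (n + 1) (x + t)).2]
    simp only [map_mul, Complex.conj_ofReal]
    push_cast
    ring
  · intro n t ht
    filter_upwards [hVα, hVβ, Mk.ae_add hVα t, Mk.ae_add hVβ t] with x hx1 hx2 hy1 hy2
    rw [(Mk.lim_eq a b N h1 x (x + t) hx1 hx2 hy1 hy2 (n + 1) (hinv n t ht x)).2]
    unfold Mk.dt
    rw [(Mk.V_eq a b N (n + 1) x).1, (Mk.V_eq a b N (n + 1) x).2,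
      (Mk.V_eq a b N (n + 1) (x + t)).1, (Mk.V_eq a b N (n + 1) (x + t)).2]
    push_cast
    ring
  · intro n
    have hN : (N n : ℝ) ≠ 0 := by exact_mod_cast (hNpos n).ne'
    rw [← AddCircle.coe_nsmul]
    have : (4 * N n) • (1 / (4 * N n) : ℝ) = 1 := by
      rw [nsmul_eq_mul]; push_cast; field_simp
    rw [this]
    exact AddCircle.coe_period 1
  · have h : Tendsto (fun n => (1 / (4 * N n) : ℝ)) atTop (𝓝 0) := by
      refine squeeze_zero (fun n => by positivity) (g := fun n : ℕ => (1 / 4 : ℝ) ^ n) ?_ ?_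
      · intro n
        have h1 : ((4 : ℝ) ^ n) ≤ N n := by exact_mod_cast hNge n
        have h2 : (0 : ℝ) < 4 ^ n := by positivity
        rw [one_div_pow]
        exact one_div_le_one_div_of_le h2 (by nlinarith)
      · exact tendsto_pow_atTop_nhds_zero_of_lt_one (by norm_num) (by norm_num)
    have h2 : Tendsto (fun r : ℝ => (r : 𝕋)) (𝓝 0) (𝓝 ((0 : ℝ) : 𝕋)) :=
      (AddCircle.continuous_mk' 1).tendsto 0
    have h3 := h2.comp h
    rw [AddCircle.coe_zero] at h3
    exact h3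
  · intro n
    exact hsmall n
  · intro k hk
    obtain ⟨n, hn⟩ : ∃ n : ℕ, k.natAbs < 4 * N n := by
      refine ⟨k.natAbs, ?_⟩
      have h1 := hNge k.natAbs
      have h2 : k.natAbs < 4 ^ k.natAbs := Nat.lt_pow_self (by norm_num)
      omega
    refine ⟨n, ((1 / (4 * N n) : ℝ) : 𝕋), ?_, ?_⟩
    · have hN : (N n : ℝ) ≠ 0 := by exact_mod_cast (hNpos n).ne'
      rw [← AddCircle.coe_nsmul]
      have : (4 * N n) • (1 / (4 * N n) : ℝ) = 1 := by
        rw [nsmul_eq_mul]; push_cast; field_simp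
      rw [this]
      exact AddCircle.coe_period 1
    · intro h
      rw [fourier_coe_apply] at h
      rw [Complex.exp_eq_one_iff] at h
      obtain ⟨j, hj⟩ := h
      have hN : (N n : ℂ) ≠ 0 := by exact_mod_cast (hNpos n).ne'
      have h2 : (2 * Real.pi * Complex.I : ℂ) ≠ 0 := Complex.two_pi_I_ne_zero
      have h3 : (k : ℂ) = j * (4 * N n) := by
        have h4 : (2 * Real.pi * Complex.I : ℂ) * k = (2 * Real.pi * Complex.I) * (j * (4 * N n)) := by
          push_cast at hj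
          field_simp at hj
          linear_combination (2 * Real.pi * Complex.I) * hj
        exact mul_left_cancel₀ h2 h4
      have h5 : k = j * (4 * N n) := by exact_mod_cast h3
      have hj0 : j ≠ 0 := by rintro rfl; simp at h5; exact hk h5
      have h6 : k.natAbs = j.natAbs * (4 * N n) := by
        rw [h5, Int.natAbs_mul, Int.natAbs_mul]; simp
      have h7 : 1 ≤ j.natAbs := Int.natAbs_pos.2 hj0
      nlinarith

end TransAlg
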