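import Pool.Agent.Work.MP_56c4bc_an.BeurlingT

/-!
# The doubly invariant case
-/

open MeasureTheory AddCircle Complex Filter Topology
open scoped ENNReal ComplexConjugate

namespace TransAlg

/-- the indicator function of `E` -/
private noncomputable def chi (E : Set 𝕋) : 𝕋 → ℂ := E.indicator fun _ => (1 : ℂ)

private theorem chi_measurable {E : Set 𝕋} (hE : MeasurableSet E) : Measurable (chi E) :=
  measurable_const.indicator hE

private theorem chi_in {E : Set 𝕋} {x : 𝕋} (h : x ∈ E) : chi E x = 1 :=
  Set.indicator_of_mem h _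

private theorem chi_out {E : Set 𝕋} {x : 𝕋} (h : x ∉ E) : chi E x = 0 :=
  Set.indicator_of_notMem h _

private theorem chi_norm (E : Set 𝕋) (x : 𝕋) : ‖chi E x‖ ≤ 1 := by
  by_cases h : x ∈ E
  · rw [chi_in h]; simp
  · rw [chi_out h]; simp

private theorem chi_memLp {E : Set 𝕋} (hE : MeasurableSet E) : MemLp (chi E) 2 μ :=
  MemLp.of_bound (chi_measurable hE).aestronglyMeasurable 1 (ae_of_all _ (chi_norm E))

/-- an invariant closed subspace `L²(E)`: the complement of `E` is invariant under translation -/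
private theorem out_shift (D : Data) (K : Submodule ℂ L2) {E : Set 𝕋} (hE : MeasurableSet E)
    (hK : ∀ f : L2, f ∈ K ↔ ∀ᵐ x ∂μ, x ∉ E → (f : 𝕋 → ℂ) x = 0) (hW : WInv D K)
    (n : ℕ) (t : 𝕋) (ht : D.N n • t = 0) : ∀ᵐ x ∂μ, x ∉ E → x + t ∉ E := by
  obtain ⟨f, hfe⟩ : ∃ f : L2, (f : 𝕋 → ℂ) =ᵐ[μ] chi E :=
    ⟨(chi_memLp hE).toLp _, MemLp.coeFn_toLp _⟩
  have hfK : f ∈ K := by
    rw [hK]
    filter_upwards [hfe] with x hx hxE
    rw [hx, chi_out hxE]
  have hm : Measurable (fun x : 𝕋 => (fourier (2 * (D.M n : ℤ)) x : ℂ) *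
      ((D.ε n x * D.ε n (x + t) : ℝ) : ℂ)) := by
    refine (fourier _).continuous.measurable.mul ?_
    refine Complex.measurable_ofReal.comp ?_
    exact (D.hε n).mul ((D.hε n).comp (measurable_add_const t))
  have hb : ∀ x : 𝕋, ‖(fourier (2 * (D.M n : ℤ)) x : ℂ) *
      ((D.ε n x * D.ε n (x + t) : ℝ) : ℂ)‖ ≤ 1 := by
    intro x
    have h1 : |D.ε n x| = 1 := by
      have := D.ε_sq n x
      rw [← sq_abs] at this
      nlinarith [abs_nonneg (D.ε n x)]
    have h2 : |D.ε n (x + t)| = 1 := by
      have := D.ε_sq n (x + t)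
      rw [← sq_abs] at this
      nlinarith [abs_nonneg (D.ε n (x + t))]
    rw [norm_mul, bt_norm_fourier, one_mul, Complex.norm_real, Real.norm_eq_abs, abs_mul, h1,
      h2, one_mul]
  obtain ⟨T, hT⟩ := exists_W _ hm hb t
  have hTf := hT f
  have hTK : T f ∈ K := hW n t ht f hfK (T f) hTf
  rw [hK] at hTK
  have hmp : MeasurePreserving (fun x : 𝕋 => x + t) μ μ := measurePreserving_add_right μ t
  have hfe0 : ∀ᵐ y ∂μ, (f : 𝕋 → ℂ) y = chi E y := hfe
  have hq := hmp.quasiMeasurePreserving
  have hfe' := hq.ae hfe0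
  filter_upwards [hTK, hTf, hfe'] with x h1 h2 h3 hx hx'
  have h4 := h1 hx
  rw [h2, h3, chi_in hx', mul_one] at h4
  have h5 : ‖(fourier (2 * (D.M n : ℤ)) x : ℂ)‖ = 1 := bt_norm_fourier _ _
  rcases mul_eq_zero.1 h4 with h6 | h6
  · rw [h6] at h5
    simp at h5
  · rw [Complex.ofReal_eq_zero] at h6
    have h7 := D.ε_sq n x
    have h8 := D.ε_sq n (x + t)
    rcases mul_eq_zero.1 h6 with h9 | h9
    · rw [h9] at h7
      norm_num at h7
    · rw [h9] at h8
      norm_num at h8

/-! [T1] the doubly invariant case -/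
theorem case_reducing (D : Data) (K : Submodule ℂ L2) (hcl : IsClosed (K : Set L2))
    (hz : ∀ k : ℤ, ∀ f ∈ K, ∀ g : L2,
      (g : 𝕋 → ℂ) =ᵐ[μ] (fun x => (fourier k x : ℂ) * f x) → g ∈ K)
    (hW : WInv D K) : K = ⊥ ∨ K = ⊤ := by
  obtain ⟨E, hE, hK⟩ := bt_case1 hcl (fun n f hf => hz n f hf _ (bt_T_ae n f))
  -- translation invariance
  have hinv : ∀ (n : ℕ) (t : 𝕋), D.N n • t = 0 →
      (fun x => chi E (x + t)) =ᵐ[μ] chi E := by
    intro n t ht
    have ht' : D.N n • (-t) = 0 := by rw [smul_neg, ht, neg_zero]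
    have h1 := out_shift D K hE hK hW n t ht
    have h2 := out_shift D K hE hK hW n (-t) ht'
    have hmp : MeasurePreserving (fun x : 𝕋 => x + t) μ μ := measurePreserving_add_right μ t
    have hq := hmp.quasiMeasurePreserving
    have h3 := hq.ae h2
    filter_upwards [h1, h3] with x h4 h5
    rw [add_neg_cancel_right] at h5
    by_cases hx : x ∈ E
    · have : x + t ∈ E := by
        by_contra h
        exact h5 h hx
      rw [chi_in hx, chi_in this]
    · rw [chi_out hx, chi_out (h4 hx)]
  have hint : Integrable (chi E) μ :=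
    (chi_memLp hE).integrable (by norm_num)
  have hcoef : ∀ k : ℤ, k ≠ 0 → fourierCoeff (chi E) k = 0 := by
    intro k hk
    obtain ⟨n, s, hs, hsk⟩ := D.sep k hk
    have h1 := hinv n s hs
    have h2 : fourierCoeff (chi E) k = (fourier k s : ℂ) * fourierCoeff (chi E) k := by
      have h3 : fourierCoeff (fun x => chi E (x + s)) k = fourierCoeff (chi E) k := by
        unfold fourierCoeff
        apply integral_congr_ae
        filter_upwards [h1] with x hx
        rw [hx]
      have h4 : fourierCoeff (fun x => chi E (x + s)) k =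
          (fourier k s : ℂ) * fourierCoeff (chi E) k := by
        unfold fourierCoeff
        rw [← integral_const_mul,
          ← integral_add_right_eq_self
            (fun x : 𝕋 => (fourier k s : ℂ) * ((fourier (-k) x : ℂ) • chi E x)) s]
        congr 1
        funext x
        have h5 : (fourier k s : ℂ) * fourier (-k) s = 1 := by
          rw [← fourier_add, add_neg_cancel, fourier_zero]
        rw [fourier_add_arg, smul_eq_mul, smul_eq_mul]
        linear_combination -(fourier (-k) x : ℂ) * chi E (x + s) * h5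
      rw [← h4, h3]
    have h6 : (1 - (fourier k s : ℂ)) * fourierCoeff (chi E) k = 0 := by
      linear_combination h2
    rcases mul_eq_zero.1 h6 with h7 | h7
    · exact absurd (sub_eq_zero.1 h7).symm hsk
    · exact h7
  set c : ℂ := fourierCoeff (chi E) 0 with hc
  have hzero : (fun x => chi E x - c) =ᵐ[μ] 0 := by
    refine ae_zero_of_fourierCoeff (hint.sub (integrable_const c)) ?_
    intro k
    have h1 : fourierCoeff (fun x => chi E x - c) k =
        fourierCoeff (chi E) k - c * fourierCoeff (fun _ : 𝕋 => (1 : ℂ)) k := by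
      unfold fourierCoeff
      rw [← integral_const_mul, ← integral_sub]
      · congr 1
        funext x
        simp only [smul_eq_mul]
        ring
      · exact FourierU.integrable_cont_mul hint (fourier (-k))
      · exact (FourierU.integrable_cont_mul (integrable_const (1 : ℂ)) (fourier (-k))).const_mul c
    rw [h1, bt_fourierCoeff_one]
    by_cases hk : k = 0
    · rw [hk, if_pos rfl, mul_one, hc, sub_self]
    · rw [if_neg hk, mul_zero, sub_zero, hcoef k hk]
  by_cases hc0 : c = 0
  · left
    rw [Submodule.eq_bot_iff]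
    intro f hf
    rw [hK] at hf
    apply Lp.ext
    filter_upwards [hf, hzero, Lp.coeFn_zero ℂ 2 μ] with x h1 h2 h3
    rw [h3]
    have hx : x ∉ E := by
      intro hx
      simp only [Pi.zero_apply] at h2
      rw [chi_in hx, hc0, sub_zero] at h2
      exact one_ne_zero h2
    rw [h1 hx]
    rfl
  · right
    rw [Submodule.eq_top_iff']
    intro f
    rw [hK]
    filter_upwards [hzero] with x h1 hx
    exfalso
    simp only [Pi.zero_apply] at h1
    rw [chi_out hx, zero_sub, neg_eq_zero] at h1
    exact hc0 h1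

end TransAlg
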