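import Mathlib

/-!
Uniqueness of Fourier coefficients in `L¹` of the circle, and: a unimodular function all of whose
Fourier coefficients vanish outside a bounded range is a monomial.
-/

open MeasureTheory AddCircle Complex Filter Topology
open scoped ENNReal ComplexConjugate

namespace TransAlg

namespace FourierU

abbrev TT : Type := AddCircle (1 : ℝ)
noncomputable abbrev mu : Measure TT := haarAddCircle

theorem integrable_cont_mul {f : TT → ℂ} (hf : Integrable f mu) (g : C(TT, ℂ)) :
    Integrable (fun x => g x * f x) mu := by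
  apply hf.bdd_mul (c := ‖g‖)
  · exact g.continuous.aestronglyMeasurable
  · exact ae_of_all _ fun x => g.norm_coe_le_norm x

/-- the linear functional `g ↦ ∫ g f` -/
noncomputable def Lam {f : TT → ℂ} (hf : Integrable f mu) : C(TT, ℂ) →L[ℂ] ℂ :=
  LinearMap.mkContinuous
    { toFun := fun g => ∫ x, g x * f x ∂mu
      map_add' := fun g h => by
        rw [← integral_add (integrable_cont_mul hf g) (integrable_cont_mul hf h)]
        congr 1; ext x; simp [add_mul]
      map_smul' := fun c g => by
        rw [RingHom.id_apply, smul_eq_mul, ← integral_const_mul]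
        congr 1; ext x; simp [mul_assoc] }
    (∫ x, ‖f x‖ ∂mu) (fun g => by
      show ‖∫ x, g x * f x ∂mu‖ ≤ _
      calc ‖∫ x, g x * f x ∂mu‖ ≤ ∫ x, ‖g x * f x‖ ∂mu := norm_integral_le_integral_norm _
        _ ≤ ∫ x, ‖g‖ * ‖f x‖ ∂mu := by
          apply integral_mono (integrable_cont_mul hf g).norm (hf.norm.const_mul _)
          intro x
          simp only [norm_mul]
          exact mul_le_mul_of_nonneg_right (g.norm_coe_le_norm x) (norm_nonneg _)
        _ = (∫ x, ‖f x‖ ∂mu) * ‖g‖ := by rw [integral_const_mul, mul_comm])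

theorem Lam_apply {f : TT → ℂ} (hf : Integrable f mu) (g : C(TT, ℂ)) :
    Lam hf g = ∫ x, g x * f x ∂mu := rfl

theorem integral_cont_mul_eq_zero {f : TT → ℂ} (hf : Integrable f mu)
    (h : ∀ n : ℤ, fourierCoeff f n = 0) (g : C(TT, ℂ)) : ∫ x, g x * f x ∂mu = 0 := by
  have h1 : (Submodule.span ℂ (Set.range (@fourier (1:ℝ)))).topologicalClosure
      ≤ (Lam hf).ker := by
    apply Submodule.topologicalClosure_minimal _ _ (Lam hf).isClosed_ker
    rw [Submodule.span_le]
    rintro _ ⟨n, rfl⟩
    have h2 := h (-n)
    rw [fourierCoeff, neg_neg] at h2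
    simpa [Lam_apply] using h2
  rw [span_fourier_closure_eq_top] at h1
  have h3 : g ∈ (Lam hf).ker := h1 Submodule.mem_top
  simpa [Lam_apply] using h3

theorem setIntegral_compact_eq_zero {f : TT → ℂ} (hf : Integrable f mu)
    (h : ∀ n : ℤ, fourierCoeff f n = 0) (s : Set TT) (hs : IsCompact s) :
    ∫ x in s, f x ∂mu = 0 := by
  have hcl : IsClosed s := hs.isClosed
  have hpos : ∀ n : ℕ, 0 < 1 / ((n : ℝ) + 1) := fun n => Nat.one_div_pos_of_nat
  have hlim : Tendsto (fun n : ℕ => 1 / ((n : ℝ) + 1)) atTop (𝓝 0) :=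
    tendsto_one_div_add_atTop_nhds_zero_nat
  have ht := thickenedIndicator_tendsto_indicator_closure hpos hlim s
  rw [tendsto_pi_nhds] at ht
  let G : ℕ → C(TT, ℂ) := fun n =>
    ⟨fun x => (((thickenedIndicator (hpos n) s x : NNReal) : ℝ) : ℂ), by fun_prop⟩
  have h0 : ∀ n, ∫ x, G n x * f x ∂mu = 0 := fun n => integral_cont_mul_eq_zero hf h (G n)
  have hle : ∀ n x, ‖G n x‖ ≤ 1 := by
    intro n x
    show ‖(((thickenedIndicator (hpos n) s x : NNReal) : ℝ) : ℂ)‖ ≤ 1
    rw [Complex.norm_real, Real.norm_eq_abs, abs_of_nonneg (NNReal.coe_nonneg _)]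
    exact_mod_cast thickenedIndicator_le_one (hpos n) s x
  have hT : Tendsto (fun n => ∫ x, G n x * f x ∂mu) atTop
      (𝓝 (∫ x, s.indicator (fun _ => (1:ℂ)) x * f x ∂mu)) := by
    apply tendsto_integral_of_dominated_convergence (fun x => ‖f x‖)
    · intro n; exact (integrable_cont_mul hf (G n)).aestronglyMeasurable
    · exact hf.norm
    · intro n
      refine ae_of_all _ fun x => ?_
      rw [norm_mul]
      calc ‖G n x‖ * ‖f x‖ ≤ 1 * ‖f x‖ :=
            mul_le_mul_of_nonneg_right (hle n x) (norm_nonneg _)
        _ = ‖f x‖ := one_mul _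
    · refine ae_of_all _ fun x => ?_
      apply Tendsto.mul_const
      have h2 := ht x
      rw [hcl.closure_eq] at h2
      have h3 : Tendsto (fun n => (((thickenedIndicator (hpos n) s x : NNReal) : ℝ) : ℂ)) atTop
          (𝓝 (((s.indicator (fun _ => (1 : NNReal)) x : NNReal) : ℝ) : ℂ)) := by
        have hc : Continuous (fun y : NNReal => ((y : ℝ) : ℂ)) := by fun_prop
        exact (hc.tendsto _).comp h2
      have h4 : (((s.indicator (fun _ => (1 : NNReal)) x : NNReal) : ℝ) : ℂ)
          = s.indicator (fun _ => (1:ℂ)) x := by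
        by_cases hx : x ∈ s <;> simp [hx]
      rw [h4] at h3
      exact h3
  simp only [h0] at hT
  have h5 := tendsto_nhds_unique hT tendsto_const_nhds
  rw [← integral_indicator hcl.measurableSet]
  rw [← h5]
  congr 1; ext x
  by_cases hx : x ∈ s <;> simp [hx]

end FourierU

open FourierU

theorem ae_zero_of_fourierCoeff {f : AddCircle (1 : ℝ) → ℂ} (hf : Integrable f haarAddCircle)
    (h : ∀ n : ℤ, fourierCoeff f n = 0) : f =ᵐ[haarAddCircle] 0 :=
  ae_eq_zero_of_forall_setIntegral_isCompact_eq_zero' hf.locallyIntegrable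
    (setIntegral_compact_eq_zero hf h)

namespace FourierU

theorem fourierCoeff_fourier_fun (k n : ℤ) :
    fourierCoeff (fun x : TT => (fourier (T := (1:ℝ)) k x : ℂ)) n = if n = k then 1 else 0 := by
  have h := congrFun (fourierCoeff_fourier (T := (1:ℝ)) k) n
  rw [Pi.single_apply] at h
  exact h

theorem integrable_fourier (k : ℤ) : Integrable (fun x : TT => (fourier (T := (1:ℝ)) k x : ℂ)) mu :=
  (fourier k).continuous.integrable_of_hasCompactSupport
    (HasCompactSupport.of_compactSpace _)

/-- the trigonometric polynomial with coefficients `c` -/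
noncomputable def poly (s : Finset ℤ) (c : ℤ → ℂ) (x : TT) : ℂ := ∑ k ∈ s, c k * fourier (T := (1:ℝ)) k x

theorem poly_integrable (s : Finset ℤ) (c : ℤ → ℂ) : Integrable (poly s c) mu := by
  unfold poly
  apply integrable_finsetSum
  intro k _
  exact (integrable_fourier k).const_mul _

theorem fourierCoeff_poly (s : Finset ℤ) (c : ℤ → ℂ) (n : ℤ) :
    fourierCoeff (poly s c) n = if n ∈ s then c n else 0 := by
  have h : poly s c = ∑ k ∈ s, fun x : TT => c k * fourier (T := (1:ℝ)) k x := by
    ext x; simp [poly]
  rw [h, fourierCoeff.sum _ _ (fun k _ => (integrable_fourier k).const_mul _), Finset.sum_apply]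
  simp only [fourierCoeff.const_mul, fourierCoeff_fourier_fun]
  simp

end FourierU

theorem monomial_of_unimodular {f : AddCircle (1 : ℝ) → ℂ}
    (hf : AEStronglyMeasurable f haarAddCircle)
    (h1 : ∀ᵐ x ∂haarAddCircle, ‖f x‖ = 1) (M : ℕ)
    (h : ∀ n : ℤ, (M : ℤ) < |n| → fourierCoeff f n = 0) :
    ∃ (c : ℂ) (k : ℤ), ‖c‖ = 1 ∧ f =ᵐ[haarAddCircle] fun x => c * fourier k x := by
  classical
  have hint : Integrable f haarAddCircle := by
    apply Integrable.of_bound hf 1
    filter_upwards [h1] with x hx using hx.le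
  -- the support of the Fourier coefficients
  let c : ℤ → ℂ := fourierCoeff f
  let S : Finset ℤ := (Finset.Icc (-(M:ℤ)) M).filter (fun k => c k ≠ 0)
  have hS : ∀ n, n ∉ S → c n = 0 := by
    intro n hn
    by_cases hM : (M : ℤ) < |n|
    · exact h n hM
    · rw [not_lt, abs_le] at hM
      by_contra hc
      exact hn (Finset.mem_filter.2 ⟨Finset.mem_Icc.2 hM, hc⟩)
  have hS' : ∀ n, n ∈ S → c n ≠ 0 := fun n hn => (Finset.mem_filter.1 hn).2
  have hfp : f =ᵐ[haarAddCircle] poly S c := by
    have h2 : (f - poly S c) =ᵐ[haarAddCircle] 0 := by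
      apply ae_zero_of_fourierCoeff (hint.sub (poly_integrable S c))
      intro n
      have h3 : f - poly S c = f + (fun x => (-1 : ℂ) * poly S c x) := by
        ext x; simp [sub_eq_add_neg]
      rw [h3, fourierCoeff.add hint ((poly_integrable S c).const_mul _), Pi.add_apply,
        fourierCoeff.const_mul, fourierCoeff_poly]
      by_cases hn : n ∈ S
      · simp [hn, c]
      · simp [hn]; exact hS n hn
    filter_upwards [h2] with x hx
    simpa [sub_eq_zero] using hx
  -- `|p|² = 1` a.e.
  have hp1 : ∀ᵐ x ∂haarAddCircle, poly S c x * conj (poly S c x) = 1 := by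
    filter_upwards [hfp, h1] with x hx hx1
    rw [← hx, Complex.mul_conj, Complex.normSq_eq_norm_sq, hx1]; simp
  -- nonempty
  have hne : S.Nonempty := by
    rw [Finset.nonempty_iff_ne_empty]
    intro he
    have h4 : ∀ᵐ x ∂(haarAddCircle : Measure TT), False := by
      filter_upwards [hp1] with x hx
      simp [poly, he] at hx
    have h5 : (haarAddCircle : Measure TT) Set.univ = 0 := by
      simpa [ae_iff] using h4
    rw [measure_univ] at h5
    exact one_ne_zero h5
  set a := S.min' hne with ha
  set b := S.max' hne with hb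
  have haS : a ∈ S := S.min'_mem hne
  have hbS : b ∈ S := S.max'_mem hne
  -- the coefficient of `b - a` in `|p|²`
  have hprod : ∀ x : TT, poly S c x * conj (poly S c x)
      = ∑ k ∈ S, ∑ l ∈ S, (c k * conj (c l)) * fourier (k - l) x := by
    intro x
    unfold poly
    rw [map_sum, Finset.sum_mul_sum]
    apply Finset.sum_congr rfl; intro k _
    apply Finset.sum_congr rfl; intro l _
    rw [map_mul, ← fourier_neg, sub_eq_add_neg, fourier_add]
    ring
  have hco : fourierCoeff (fun x : TT => poly S c x * conj (poly S c x)) (b - a)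
      = c b * conj (c a) := by
    have h6 : (fun x : TT => poly S c x * conj (poly S c x))
        = ∑ k ∈ S, ∑ l ∈ S, (fun x : TT => (c k * conj (c l)) * fourier (k - l) x) := by
      ext x; rw [hprod]; simp [Finset.sum_apply]
    have hI : ∀ k l : ℤ, Integrable (fun x : TT => (c k * conj (c l)) * fourier (k - l) x)
        haarAddCircle := fun k l => (integrable_fourier _).const_mul _
    rw [h6, fourierCoeff.sum _ _ (fun k _ => integrable_finsetSum' _ (fun l _ => hI k l)),
      Finset.sum_apply]
    have h7 : ∀ k ∈ S, fourierCoeff (∑ l ∈ S, (fun x : TT => (c k * conj (c l)) *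
        fourier (k - l) x)) (b - a) = if k = b then c b * conj (c a) else 0 := by
      intro k hk
      rw [fourierCoeff.sum _ _ (fun l _ => hI k l), Finset.sum_apply]
      simp only [fourierCoeff.const_mul, fourierCoeff_fourier_fun]
      by_cases hkb : k = b
      · rw [if_pos hkb]
        rw [Finset.sum_eq_single a]
        · simp [hkb]
        · intro l hl hla
          rw [if_neg, mul_zero]
          intro he; apply hla; omega
        · intro hn; exact absurd haS hn
      · rw [if_neg hkb]
        apply Finset.sum_eq_zero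
        intro l hl
        rw [if_neg, mul_zero]
        intro he
        have h8 : k ≤ b := S.le_max' k hk
        have h9 : a ≤ l := S.min'_le l hl
        apply hkb; omega
    rw [Finset.sum_congr rfl h7]
    simp [hbS]
  have hco1 : fourierCoeff (fun x : TT => poly S c x * conj (poly S c x)) (b - a)
      = if b - a = 0 then 1 else 0 := by
    have h10 : (fun x : TT => poly S c x * conj (poly S c x))
        =ᵐ[haarAddCircle] (fun x : TT => (fourier (T := (1:ℝ)) 0 x : ℂ)) := by
      filter_upwards [hp1] with x hx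
      rw [hx, fourier_zero]
    rw [fourierCoeff_congr_ae h10, fourierCoeff_fourier_fun]
  have hab : b = a := by
    by_contra hne'
    rw [hco, if_neg (by intro h; apply hne'; omega)] at hco1
    rcases mul_eq_zero.1 hco1 with h11 | h11
    · exact hS' b hbS h11
    · exact hS' a haS (by simpa using h11)
  have hSa : S = {a} := by
    apply Finset.eq_singleton_iff_unique_mem.2 ⟨haS, ?_⟩
    intro x hx
    have h8 : x ≤ b := S.le_max' x hx
    have h9 : a ≤ x := S.min'_le x hx
    omega
  refine ⟨c a, a, ?_, ?_⟩
  · rw [hco, hab] at hco1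
    simp only [sub_self, if_true] at hco1
    rw [Complex.mul_conj, Complex.normSq_eq_norm_sq] at hco1
    have h12 : ‖c a‖ ^ 2 = 1 := by exact_mod_cast hco1
    have h13 : 0 ≤ ‖c a‖ := norm_nonneg _
    nlinarith
  · filter_upwards [hfp] with x hx
    rw [hx]; simp [poly, hSa]

end TransAlg
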