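import Pool.Agent.Work.MP_56c4bc_an.Defs
import Pool.Agent.Work.MP_56c4bc_an.Fourier
import Pool.Agent.Work.MP_56c4bc_an.WOp

/-!
# The theorem of Beurling and Helson on the circle
-/

open MeasureTheory AddCircle Complex Filter Topology Set
open scoped ENNReal ComplexConjugate InnerProductSpace

namespace TransAlg

/-! ### multiplication by the characters -/

theorem bt_norm_fourier (n : ℤ) (x : 𝕋) : ‖(fourier n x : ℂ)‖ = 1 := by
  rw [fourier_apply, Circle.norm_coe]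

theorem bt_conj_fourier (n : ℤ) (x : 𝕋) : conj (fourier n x : ℂ) = fourier (-n) x :=
  fourier_neg.symm

/-- the operator of multiplication by a bounded measurable function -/
theorem bt_exists_mul (φ : 𝕋 → ℂ) (hφ : Measurable φ) (hb : ∀ x, ‖φ x‖ ≤ 1) :
    ∃ T : Lp ℂ 2 μ →L[ℂ] Lp ℂ 2 μ, ∀ f : Lp ℂ 2 μ,
      (T f : 𝕋 → ℂ) =ᵐ[μ] fun x => φ x * (f : 𝕋 → ℂ) x := by
  obtain ⟨T, hT⟩ := exists_W φ hφ hb 0
  refine ⟨T, fun f => ?_⟩
  simpa only [add_zero] using hT f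

/-- multiplication by `fourier n` -/
noncomputable def bt_T (n : ℤ) : Lp ℂ 2 μ →L[ℂ] Lp ℂ 2 μ :=
  (bt_exists_mul (fun x => fourier n x) (fourier n).continuous.measurable
    (fun x => (bt_norm_fourier n x).le)).choose

theorem bt_T_ae (n : ℤ) (f : Lp ℂ 2 μ) :
    (bt_T n f : 𝕋 → ℂ) =ᵐ[μ] fun x => fourier n x * (f : 𝕋 → ℂ) x :=
  (bt_exists_mul (fun x => fourier n x) (fourier n).continuous.measurable
    (fun x => (bt_norm_fourier n x).le)).choose_spec f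

theorem bt_ae_e (n : ℤ) : (fourierLp 2 n : Lp ℂ 2 μ) =ᵐ[μ] fun x => (fourier n x : ℂ) :=
  coeFn_fourierLp 2 n

theorem bt_T_T (m n : ℤ) (f : Lp ℂ 2 μ) : bt_T m (bt_T n f) = bt_T (m + n) f := by
  apply Lp.ext
  filter_upwards [bt_T_ae m (bt_T n f), bt_T_ae n f, bt_T_ae (m + n) f] with x h1 h2 h3
  rw [h1, h2, h3, fourier_add, mul_assoc]

theorem bt_T_zero (f : Lp ℂ 2 μ) : bt_T 0 f = f := by
  apply Lp.ext
  filter_upwards [bt_T_ae 0 f] with x h1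
  rw [h1, fourier_zero, one_mul]

theorem bt_T_e (n m : ℤ) : bt_T n (fourierLp 2 m) = fourierLp 2 (n + m) := by
  apply Lp.ext
  filter_upwards [bt_T_ae n (fourierLp 2 m), bt_ae_e m, bt_ae_e (n + m)] with x h1 h2 h3
  rw [h1, h2, h3, fourier_add]

/-- the inner product as an integral, with representatives -/
theorem bt_inner {f g : Lp ℂ 2 μ} {F G : 𝕋 → ℂ} (hF : (f : 𝕋 → ℂ) =ᵐ[μ] F)
    (hG : (g : 𝕋 → ℂ) =ᵐ[μ] G) : ⟪f, g⟫_ℂ = ∫ x, G x * conj (F x) ∂μ := by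
  rw [L2.inner_def]
  apply integral_congr_ae
  filter_upwards [hF, hG] with x h1 h2
  rw [h1, h2, RCLike.inner_apply]

theorem bt_integrable {f g : Lp ℂ 2 μ} {F G : 𝕋 → ℂ} (hF : (f : 𝕋 → ℂ) =ᵐ[μ] F)
    (hG : (g : 𝕋 → ℂ) =ᵐ[μ] G) : Integrable (fun x => G x * conj (F x)) μ := by
  refine (L2.integrable_inner (𝕜 := ℂ) f g).congr ?_
  filter_upwards [hF, hG] with x h1 h2
  rw [h1, h2, RCLike.inner_apply]

theorem bt_T_adj (n : ℤ) (f g : Lp ℂ 2 μ) : ⟪bt_T n f, g⟫_ℂ = ⟪f, bt_T (-n) g⟫_ℂ := by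
  rw [bt_inner (bt_T_ae n f) (ae_eq_refl (g : 𝕋 → ℂ)),
    bt_inner (ae_eq_refl (f : 𝕋 → ℂ)) (bt_T_ae (-n) g)]
  congr 1
  funext x
  rw [map_mul, bt_conj_fourier]
  ring

theorem bt_mul_conj {z : ℂ} (h : ‖z‖ = 1) : z * conj z = 1 := by
  rw [Complex.mul_conj, Complex.normSq_eq_norm_sq, h]
  simp

/-- a unimodular function acts unitarily -/
theorem bt_mul_inner {q : 𝕋 → ℂ} (h1 : ∀ x, ‖q x‖ = 1) {f g f' g' : Lp ℂ 2 μ}
    (hf : (f' : 𝕋 → ℂ) =ᵐ[μ] fun x => q x * (f : 𝕋 → ℂ) x)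
    (hg : (g' : 𝕋 → ℂ) =ᵐ[μ] fun x => q x * (g : 𝕋 → ℂ) x) : ⟪f', g'⟫_ℂ = ⟪f, g⟫_ℂ := by
  rw [bt_inner hf hg, bt_inner (ae_eq_refl (f : 𝕋 → ℂ)) (ae_eq_refl (g : 𝕋 → ℂ))]
  congr 1
  funext x
  have h2 := bt_mul_conj (h1 x)
  rw [map_mul]
  linear_combination ((g : 𝕋 → ℂ) x * conj ((f : 𝕋 → ℂ) x)) * h2

theorem bt_fourierCoeff (f : Lp ℂ 2 μ) (n : ℤ) :
    ⟪(fourierLp 2 n : Lp ℂ 2 μ), f⟫_ℂ = fourierCoeff (f : 𝕋 → ℂ) n := by
  rw [← fourierBasis_repr, fourierBasis.repr_apply_apply, coe_fourierBasis]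

theorem bt_orth (m n : ℤ) : ⟪(fourierLp 2 m : Lp ℂ 2 μ), fourierLp 2 n⟫_ℂ =
    if m = n then 1 else 0 := by
  have := (orthonormal_iff_ite.1 (orthonormal_fourier (T := (1 : ℝ)))) m n
  exact this

/-- the Fourier coefficients of a product `g conj f` -/
theorem bt_coeff (f g : Lp ℂ 2 μ) (n : ℤ) :
    fourierCoeff (fun x => (g : 𝕋 → ℂ) x * conj ((f : 𝕋 → ℂ) x)) n = ⟪bt_T n f, g⟫_ℂ := by
  rw [bt_inner (bt_T_ae n f) (ae_eq_refl (g : 𝕋 → ℂ))]
  unfold fourierCoeff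
  congr 1
  funext x
  rw [map_mul, bt_conj_fourier, smul_eq_mul]
  ring

/-- if `g conj f` has no Fourier coefficients, it vanishes -/
theorem bt_uniq {f g : Lp ℂ 2 μ} (h : ∀ n : ℤ, ⟪bt_T n f, g⟫_ℂ = 0) :
    (fun x => (g : 𝕋 → ℂ) x * conj ((f : 𝕋 → ℂ) x)) =ᵐ[μ] 0 :=
  ae_zero_of_fourierCoeff (bt_integrable (ae_eq_refl (f : 𝕋 → ℂ)) (ae_eq_refl (g : 𝕋 → ℂ)))
    fun n => by rw [bt_coeff, h n]

theorem bt_fourierCoeff_one (n : ℤ) : fourierCoeff (fun _ : 𝕋 => (1 : ℂ)) n =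
    if n = 0 then 1 else 0 := by
  have h := bt_coeff (fourierLp 2 0) (fourierLp 2 0) n
  rw [bt_T_e, add_zero, bt_orth] at h
  rw [← h]
  apply integral_congr_ae
  filter_upwards [bt_ae_e 0] with x hx
  simp only [hx, fourier_zero, map_one, mul_one]

/-! ### the theorem -/

section

variable {M : Submodule ℂ (Lp ℂ 2 μ)}

theorem bt_T_mem_nat (hU : ∀ f ∈ M, bt_T 1 f ∈ M) (n : ℕ) : ∀ f ∈ M, bt_T n f ∈ M := by
  induction n with
  | zero =>
    intro f hf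
    rw [Nat.cast_zero, bt_T_zero]
    exact hf
  | succ n ih =>
    intro f hf
    have h1 := ih _ (hU f hf)
    rw [bt_T_T] at h1
    rwa [Nat.cast_succ]

theorem bt_T_mem_neg (hU : ∀ f ∈ M, bt_T (-1) f ∈ M) (n : ℕ) : ∀ f ∈ M, bt_T (-n) f ∈ M := by
  induction n with
  | zero =>
    intro f hf
    rw [Nat.cast_zero, neg_zero, bt_T_zero]
    exact hf
  | succ n ih =>
    intro f hf
    have h1 := ih _ (hU f hf)
    rw [bt_T_T] at h1
    have e : -((n + 1 : ℕ) : ℤ) = -(n : ℤ) + -1 := by push_cast; ring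
    rwa [e]

/-- the reducing case -/
theorem bt_case1 (hM : IsClosed (M : Set (Lp ℂ 2 μ))) (hU : ∀ n : ℤ, ∀ f ∈ M, bt_T n f ∈ M) :
    ∃ E : Set 𝕋, MeasurableSet E ∧
      ∀ f : Lp ℂ 2 μ, f ∈ M ↔ ∀ᵐ x ∂μ, x ∉ E → (f : 𝕋 → ℂ) x = 0 := by
  classical
  have : CompleteSpace M := hM.completeSpace_coe
  set P : Lp ℂ 2 μ →L[ℂ] Lp ℂ 2 μ := M.starProjection with hP
  set f0 : Lp ℂ 2 μ := P (fourierLp 2 0) with hf0
  have hf0M : f0 ∈ M := Submodule.starProjection_apply_mem _ _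
  have hperp : fourierLp 2 0 - f0 ∈ Mᗮ := Submodule.sub_starProjection_mem_orthogonal _
  have hz : (fun x => ((fourierLp 2 0 - f0 : Lp ℂ 2 μ) : 𝕋 → ℂ) x *
      conj ((f0 : 𝕋 → ℂ) x)) =ᵐ[μ] 0 := by
    refine bt_uniq fun n => ?_
    exact Submodule.inner_right_of_mem_orthogonal (hU n f0 hf0M) hperp
  set E : Set 𝕋 := {x | (f0 : 𝕋 → ℂ) x ≠ 0} with hE
  have hEm : MeasurableSet E := by
    have := (Lp.stronglyMeasurable f0).measurable
    exact (this (measurableSet_singleton (0 : ℂ))).compl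
  have hf0E : (f0 : 𝕋 → ℂ) =ᵐ[μ] fun x => E.indicator (fun _ => (1 : ℂ)) x := by
    filter_upwards [hz, Lp.coeFn_sub (fourierLp 2 0) f0, bt_ae_e 0] with x h1 h2 h3
    by_cases hx : x ∈ E
    · rw [indicator_of_mem hx]
      have hx' : (f0 : 𝕋 → ℂ) x ≠ 0 := hx
      have h4 : ((fourierLp 2 0 - f0 : Lp ℂ 2 μ) : 𝕋 → ℂ) x = 0 := by
        rcases mul_eq_zero.1 h1 with h | h
        · exact h
        · exact absurd ((map_eq_zero _).1 h) hx'
      rw [h2, Pi.sub_apply, h3, fourier_zero] at h4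
      exact (sub_eq_zero.1 h4).symm
    · rw [indicator_of_notMem hx]
      by_contra h
      exact hx h
  obtain ⟨Q, hQ⟩ := bt_exists_mul (E.indicator fun _ => (1 : ℂ))
    ((measurable_const).indicator hEm) (fun x => by
      by_cases hx : x ∈ E
      · rw [indicator_of_mem hx]; simp
      · rw [indicator_of_notMem hx]; simp)
  have hPe : ∀ n, P (fourierLp 2 n) = Q (fourierLp 2 n) := by
    intro n
    have h1 : P (fourierLp 2 n) = bt_T n f0 := by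
      apply Submodule.eq_starProjection_of_mem_orthogonal
      · exact hU n f0 hf0M
      · have : fourierLp 2 n - bt_T n f0 = bt_T n (fourierLp 2 0 - f0) := by
          rw [map_sub, bt_T_e, add_zero]
        rw [this, Submodule.mem_orthogonal]
        intro u hu
        have h2 := bt_T_adj (-n) u (fourierLp 2 0 - f0)
        rw [neg_neg] at h2
        rw [← h2]
        exact Submodule.inner_right_of_mem_orthogonal (hU (-n) u hu) hperp
    rw [h1]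
    apply Lp.ext
    filter_upwards [bt_T_ae n f0, hf0E, hQ (fourierLp 2 n), bt_ae_e n] with x h1 h2 h3 h4
    rw [h1, h2, h3, h4]
    ring
  have hPQ : P = Q := by
    have hd : Dense ((Submodule.span ℂ (range (fourierLp 2)) :
        Submodule ℂ (Lp ℂ 2 μ)) : Set (Lp ℂ 2 μ)) := by
      have h1 := (fourierBasis (T := (1 : ℝ))).dense_span
      rw [coe_fourierBasis] at h1
      exact (Submodule.dense_iff_topologicalClosure_eq_top).2 h1
    refine ContinuousLinearMap.ext_on hd ?_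
    rintro _ ⟨n, rfl⟩
    exact hPe n
  refine ⟨E, hEm, fun f => ?_⟩
  rw [← Submodule.starProjection_eq_self_iff, ← hP, hPQ]
  constructor
  · intro h
    filter_upwards [hQ f] with x h1 hx
    rw [h, indicator_of_notMem hx, zero_mul] at h1
    exact h1
  · intro h
    apply Lp.ext
    filter_upwards [hQ f, h] with x h1 h2
    rw [h1]
    by_cases hx : x ∈ E
    · rw [indicator_of_mem hx, one_mul]
    · rw [h2 hx, mul_zero]

/-- the simply invariant case -/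
theorem bt_case2 (hM : IsClosed (M : Set (Lp ℂ 2 μ))) (hU : ∀ f ∈ M, bt_T 1 f ∈ M)
    {f1 : Lp ℂ 2 μ} (hf1 : f1 ∈ M) (hf1' : bt_T (-1) f1 ∉ M) :
    ∃ q : 𝕋 → ℂ, Measurable q ∧ (∀ x, ‖q x‖ = 1) ∧
      ∀ f g : Lp ℂ 2 μ, (g : 𝕋 → ℂ) =ᵐ[μ] (fun x => q x * (f : 𝕋 → ℂ) x) →
        (g ∈ M ↔ ∀ n : ℤ, n < 0 → fourierCoeff (f : 𝕋 → ℂ) n = 0) := by
  classical
  have hUn := bt_T_mem_nat hU
  -- the subspace `U M`
  set N : Submodule ℂ (Lp ℂ 2 μ) := M.comap (bt_T (-1) : Lp ℂ 2 μ →ₗ[ℂ] Lp ℂ 2 μ) with hN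
  have hNmem : ∀ f, f ∈ N ↔ bt_T (-1) f ∈ M := fun f => Iff.rfl
  have hNM : N ≤ M := by
    intro f hf
    have h1 := hU _ ((hNmem f).1 hf)
    rw [bt_T_T, add_neg_cancel, bt_T_zero] at h1
    exact h1
  have hNc : IsClosed (N : Set (Lp ℂ 2 μ)) := hM.preimage (bt_T (-1)).continuous
  have : CompleteSpace N := hNc.completeSpace_coe
  have hTN : ∀ n : ℕ, 1 ≤ n → ∀ f ∈ M, bt_T n f ∈ N := by
    intro n hn f hf
    rw [hNmem, bt_T_T]
    have e1 : -1 + (n : ℤ) = ((n - 1 : ℕ) : ℤ) := by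
      push_cast [Nat.cast_sub hn]
      ring
    rw [e1]
    exact hUn _ f hf
  set g0 : Lp ℂ 2 μ := f1 - N.starProjection f1 with hg0
  have hg0M : g0 ∈ M := M.sub_mem hf1 (hNM (Submodule.starProjection_apply_mem _ _))
  have hg0N : g0 ∈ Nᗮ := Submodule.sub_starProjection_mem_orthogonal _
  have hg0ne : g0 ≠ 0 := by
    intro h
    apply hf1'
    rw [← hNmem]
    rw [hg0, sub_eq_zero] at h
    rw [h]
    exact Submodule.starProjection_apply_mem _ _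
  set q0 : Lp ℂ 2 μ := ((‖g0‖ : ℂ)⁻¹) • g0 with hq0
  have hq0M : q0 ∈ M := M.smul_mem _ hg0M
  have hq0N : q0 ∈ Nᗮ := Submodule.smul_mem _ _ hg0N
  have hq0n : ⟪q0, q0⟫_ℂ = 1 := by
    have h1 : ‖q0‖ = 1 := by
      rw [hq0, norm_smul, norm_inv, Complex.norm_real, norm_norm,
        inv_mul_cancel₀ (norm_ne_zero_iff.2 hg0ne)]
    rw [inner_self_eq_norm_sq_to_K, h1]
    simp
  have hpos : ∀ n : ℕ, 1 ≤ n → ∀ g ∈ M, ⟪q0, bt_T n g⟫_ℂ = 0 := by
    intro n hn g hg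
    exact Submodule.inner_left_of_mem_orthogonal (hTN n hn g hg) hq0N
  have hcoef : ∀ n : ℤ, ⟪bt_T n q0, q0⟫_ℂ = if n = 0 then 1 else 0 := by
    intro n
    rcases lt_trichotomy n 0 with h | h | h
    · rw [if_neg h.ne, bt_T_adj]
      obtain ⟨k, hk⟩ := Int.eq_ofNat_of_zero_le (by omega : 0 ≤ -n)
      rw [hk]
      exact hpos k (by omega) q0 hq0M
    · rw [if_pos h, h, bt_T_zero, hq0n]
    · rw [if_neg h.ne', ← inner_conj_symm]
      obtain ⟨k, hk⟩ := Int.eq_ofNat_of_zero_le h.le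
      rw [hk, hpos k (by omega) q0 hq0M, map_zero]
  have habs : (fun x => (q0 : 𝕋 → ℂ) x * conj ((q0 : 𝕋 → ℂ) x) - 1) =ᵐ[μ] 0 := by
    have hi1 : Integrable (fun x => (q0 : 𝕋 → ℂ) x * conj ((q0 : 𝕋 → ℂ) x)) μ :=
      bt_integrable (ae_eq_refl (q0 : 𝕋 → ℂ)) (ae_eq_refl (q0 : 𝕋 → ℂ))
    refine ae_zero_of_fourierCoeff (hi1.sub (integrable_const 1)) fun n => ?_
    have hb1 : ∀ F : 𝕋 → ℂ, Integrable F μ →
        Integrable (fun x => (fourier (-n) x : ℂ) • F x) μ := by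
      intro F hF
      refine hF.bdd_mul (c := 1) ?_ ?_
      · exact (fourier (-n)).continuous.aestronglyMeasurable
      · exact Eventually.of_forall fun x => (bt_norm_fourier (-n) x).le
    have h1 : fourierCoeff (fun x => (q0 : 𝕋 → ℂ) x * conj ((q0 : 𝕋 → ℂ) x) - 1) n =
        fourierCoeff (fun x => (q0 : 𝕋 → ℂ) x * conj ((q0 : 𝕋 → ℂ) x)) n -
        fourierCoeff (fun _ : 𝕋 => (1 : ℂ)) n := by
      unfold fourierCoeff
      rw [← integral_sub (hb1 _ hi1) (hb1 _ (integrable_const 1))]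
      congr 1
      funext x
      rw [smul_sub]
    rw [h1, bt_coeff, hcoef, bt_fourierCoeff_one, sub_self]
  -- the unimodular function
  set q : 𝕋 → ℂ := fun x => if ‖(q0 : 𝕋 → ℂ) x‖ = 1 then (q0 : 𝕋 → ℂ) x else 1 with hq
  have hq0m : Measurable (q0 : 𝕋 → ℂ) := (Lp.stronglyMeasurable q0).measurable
  have hqm : Measurable q := by
    refine Measurable.ite ?_ hq0m measurable_const
    exact measurableSet_eq_fun hq0m.norm measurable_const
  have hq1 : ∀ x, ‖q x‖ = 1 := by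
    intro x
    simp only [hq]
    split_ifs with h
    · exact h
    · exact norm_one
  have hqe : (q0 : 𝕋 → ℂ) =ᵐ[μ] q := by
    filter_upwards [habs] with x hx
    have h1 : ‖(q0 : 𝕋 → ℂ) x‖ = 1 := by
      have h2 : (q0 : 𝕋 → ℂ) x * conj ((q0 : 𝕋 → ℂ) x) = 1 := sub_eq_zero.1 hx
      rw [Complex.mul_conj, Complex.normSq_eq_norm_sq] at h2
      have h3 : ‖(q0 : 𝕋 → ℂ) x‖ ^ 2 = 1 := by exact_mod_cast h2
      exact (pow_eq_one_iff_of_nonneg (norm_nonneg _) two_ne_zero).1 h3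
    simp only [hq]
    rw [if_pos h1]
  obtain ⟨Q, hQ⟩ := bt_exists_mul q hqm (fun x => (hq1 x).le)
  have hQe : ∀ n, Q (fourierLp 2 n) = bt_T n q0 := by
    intro n
    apply Lp.ext
    filter_upwards [hQ (fourierLp 2 n), bt_ae_e n, bt_T_ae n q0, hqe] with x h1 h2 h3 h4
    rw [h1, h2, h3, h4]
    ring
  refine ⟨q, hqm, hq1, fun f g hfg => ?_⟩
  have hg : g = Q f := by
    apply Lp.ext
    filter_upwards [hfg, hQ f] with x h1 h2
    rw [h1, h2]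
  constructor
  · intro hgM n hn
    rw [← bt_fourierCoeff, ← bt_mul_inner hq1 (hQ (fourierLp 2 n)) (hQ f), ← hg, hQe, bt_T_adj]
    obtain ⟨k, hk⟩ := Int.eq_ofNat_of_zero_le (by omega : 0 ≤ -n)
    rw [hk]
    exact hpos k (by omega) g hgM
  · intro hf
    have hs := ((fourierBasis (T := (1 : ℝ))).hasSum_repr f).mapL Q
    rw [hg]
    refine hM.mem_of_tendsto hs (Eventually.of_forall fun s => ?_)
    refine M.sum_mem fun n _ => ?_
    rw [fourierBasis_repr, map_smul, coe_fourierBasis]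
    rcases lt_or_ge n 0 with h | h
    · rw [hf n h, zero_smul]
      exact M.zero_mem
    · refine M.smul_mem _ ?_
      rw [hQe]
      obtain ⟨k, hk⟩ := Int.eq_ofNat_of_zero_le h
      rw [hk]
      exact hUn k q0 hq0M

end

/-- Beurling-Helson: a closed subspace invariant under the multiplication by `fourier 1` is the
space of the functions vanishing off a set, or a unimodular multiple of the Hardy space. -/
theorem beurling_helson_circle (M : Submodule ℂ (Lp ℂ 2 μ)) (hM : IsClosed (M : Set (Lp ℂ 2 μ)))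
    (hU : ∀ f g : Lp ℂ 2 μ, f ∈ M →
      (g : 𝕋 → ℂ) =ᵐ[μ] (fun x => fourier 1 x * (f : 𝕋 → ℂ) x) → g ∈ M) :
    (∃ E : Set 𝕋, MeasurableSet E ∧
      ∀ f : Lp ℂ 2 μ, f ∈ M ↔ ∀ᵐ x ∂μ, x ∉ E → (f : 𝕋 → ℂ) x = 0) ∨
    (∃ q : 𝕋 → ℂ, Measurable q ∧ (∀ x, ‖q x‖ = 1) ∧
      ∀ f g : Lp ℂ 2 μ, (g : 𝕋 → ℂ) =ᵐ[μ] (fun x => q x * (f : 𝕋 → ℂ) x) →
        (g ∈ M ↔ ∀ n : ℤ, n < 0 → fourierCoeff (f : 𝕋 → ℂ) n = 0)) := by
  have hU1 : ∀ f ∈ M, bt_T 1 f ∈ M := fun f hf => hU f _ hf (bt_T_ae 1 f)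
  by_cases h : ∀ f ∈ M, bt_T (-1) f ∈ M
  · left
    refine bt_case1 hM ?_
    intro n f hf
    obtain ⟨k, hk | hk⟩ := Int.eq_nat_or_neg n
    · rw [hk]
      exact bt_T_mem_nat hU1 k f hf
    · rw [hk]
      exact bt_T_mem_neg h k f hf
  · right
    push Not at h
    obtain ⟨f1, hf1, hf1'⟩ := h
    exact bt_case2 hM hU1 hf1 hf1'

end TransAlg
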