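import Pool.Agent.Work.MP_56c4bc_an.Defs
import Pool.Agent.Work.MP_56c4bc_an.BeurlingT

/-!
# The subspaces `q H²` are not invariant
-/

open MeasureTheory AddCircle Complex Filter Topology
open scoped ENNReal ComplexConjugate

namespace TransAlg

theorem mp_add (t : 𝕋) : MeasurePreserving (fun x : 𝕋 => x + t) μ μ :=
  measurePreserving_add_right μ t

theorem ae_translate {p : 𝕋 → Prop} (h : ∀ᵐ x ∂μ, p x) (t : 𝕋) : ∀ᵐ x ∂μ, p (x + t) :=
  (mp_add t).quasiMeasurePreserving.ae h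

theorem fourierCoeff_def' (f : 𝕋 → ℂ) (n : ℤ) :
    fourierCoeff f n = ∫ x, (fourier (-n) x : ℂ) * f x ∂μ := rfl

theorem fourierCoeff_mul_fourier (f : 𝕋 → ℂ) (k n : ℤ) :
    fourierCoeff (fun x => (fourier k x : ℂ) * f x) n = fourierCoeff f (n - k) := by
  rw [fourierCoeff_def', fourierCoeff_def']
  congr 1
  funext x
  rw [← mul_assoc, ← fourier_add]
  congr 3
  ring

theorem fourierCoeff_conj (f : 𝕋 → ℂ) (n : ℤ) :
    fourierCoeff (fun x => conj (f x)) n = conj (fourierCoeff f (-n)) := by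
  rw [fourierCoeff_def', fourierCoeff_def', ← integral_conj]
  congr 1
  funext x
  rw [map_mul, neg_neg, fourier_neg]

theorem fourierCoeff_translate (f : 𝕋 → ℂ) (t : 𝕋) (n : ℤ) :
    fourierCoeff (fun x => f (x + t)) n = (fourier n t : ℂ) * fourierCoeff f n := by
  rw [fourierCoeff_def', fourierCoeff_def', ← integral_const_mul]
  rw [← integral_add_right_eq_self (fun x => (fourier n t : ℂ) * ((fourier (-n) x : ℂ) * f x)) t]
  congr 1
  funext x
  rw [fourier_add_arg]
  have h : (fourier n t : ℂ) * fourier (-n) t = 1 := by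
    rw [← fourier_add, add_neg_cancel, fourier_zero]
  linear_combination (-(fourier (-n) x : ℂ) * f (x + t)) * h

theorem mul_conj_one {z : ℂ} (h : ‖z‖ = 1) : z * conj z = 1 := bt_mul_conj h

section

variable (D : Data) (q : 𝕋 → ℂ)

/-- `F_t(x) = ε(x) ε(x+t) q(x+t) conj (q x)` -/
noncomputable def FF (n : ℕ) (t : 𝕋) (x : 𝕋) : ℂ :=
  ((D.ε n x * D.ε n (x + t) : ℝ) : ℂ) * q (x + t) * conj (q x)

theorem eps_norm (n : ℕ) (x : 𝕋) : |D.ε n x| = 1 := by
  have h := D.ε_sq n x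
  rw [← sq_abs] at h
  exact (pow_eq_one_iff_of_nonneg (abs_nonneg _) two_ne_zero).1 h

theorem FF_norm (hq1 : ∀ x, ‖q x‖ = 1) (n : ℕ) (t x : 𝕋) : ‖FF D q n t x‖ = 1 := by
  unfold FF
  rw [norm_mul, norm_mul, hq1, Complex.norm_real, norm_mul, Real.norm_eq_abs, Real.norm_eq_abs,
    eps_norm, eps_norm, RCLike.norm_conj, hq1]
  norm_num

theorem FF_meas (hqm : Measurable q) (n : ℕ) (t : 𝕋) : Measurable (FF D q n t) := by
  unfold FF
  have h1 : Measurable (fun x : 𝕋 => x + t) := measurable_add_const t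
  have h2 := D.hε n
  refine (Measurable.mul ?_ (hqm.comp h1)).mul (RCLike.continuous_conj.measurable.comp hqm)
  exact Complex.measurable_ofReal.comp (h2.mul (h2.comp h1))

theorem FF_integrable (hqm : Measurable q) (hq1 : ∀ x, ‖q x‖ = 1) (n : ℕ) (t : 𝕋) :
    Integrable (FF D q n t) μ :=
  Integrable.of_bound (FF_meas D q hqm n t).aestronglyMeasurable 1
    (Eventually.of_forall fun x => (FF_norm D q hq1 n t x).le)

theorem FF_conj (n : ℕ) (t x : 𝕋) :
    conj (FF D q n t x) = FF D q n (-t) (x + t) := by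
  unfold FF
  rw [add_neg_cancel_right]
  simp only [map_mul, Complex.conj_conj, Complex.conj_ofReal]
  push_cast
  ring

/-- negative frequencies below `-2M` vanish -/
theorem FF_low {K : Submodule ℂ L2} (hW : WInv D K) (hqm : Measurable q) (hq1 : ∀ x, ‖q x‖ = 1)
    (hmem : ∀ f g : L2, (g : 𝕋 → ℂ) =ᵐ[μ] (fun x => q x * (f : 𝕋 → ℂ) x) →
      (g ∈ K ↔ ∀ n : ℤ, n < 0 → fourierCoeff (f : 𝕋 → ℂ) n = 0))
    (n : ℕ) (t : 𝕋) (ht : D.N n • t = 0) (j : ℤ) (hj : j < -(2 * (D.M n : ℤ))) :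
    fourierCoeff (FF D q n t) j = 0 := by
  -- the vector `q`
  have hqL : MemLp q 2 μ := MemLp.of_bound hqm.aestronglyMeasurable 1
    (Eventually.of_forall fun x => (hq1 x).le)
  have hqK : hqL.toLp q ∈ K := by
    rw [hmem (fourierLp 2 0) (hqL.toLp q)]
    · intro m hm
      rw [fourierCoeff_congr_ae (bt_ae_e 0)]
      have : (fun x : 𝕋 => (fourier 0 x : ℂ)) = fun _ => (1 : ℂ) := by funext x; simp
      rw [this, bt_fourierCoeff_one, if_neg hm.ne]
    · filter_upwards [hqL.coeFn_toLp, bt_ae_e 0] with x h1 h2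
      rw [h1, h2, fourier_zero, mul_one]
  -- the vector `I = z^{2M} F_t`
  have hI : MemLp (fun x => (fourier (2 * (D.M n : ℤ)) x : ℂ) * FF D q n t x) 2 μ :=
    MemLp.of_bound ((fourier _).continuous.measurable.mul (FF_meas D q hqm n t)).aestronglyMeasurable
      1 (Eventually.of_forall fun x => by
        rw [norm_mul, FF_norm D q hq1, bt_norm_fourier, mul_one])
  have hw : MemLp (fun x => q x * ((fourier (2 * (D.M n : ℤ)) x : ℂ) * FF D q n t x)) 2 μ :=
    MemLp.of_bound (hqm.mul ((fourier _).continuous.measurable.mul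
      (FF_meas D q hqm n t))).aestronglyMeasurable
      1 (Eventually.of_forall fun x => by
        rw [norm_mul, norm_mul, FF_norm D q hq1, bt_norm_fourier, hq1]; norm_num)
  have hwK : hw.toLp _ ∈ K := by
    refine hW n t ht _ hqK _ ?_
    filter_upwards [hw.coeFn_toLp, ae_translate hqL.coeFn_toLp t] with x h1 h2
    rw [h1, h2]
    unfold FF
    have h3 := mul_conj_one (hq1 x)
    linear_combination ((fourier (2 * (D.M n : ℤ)) x : ℂ) *
      ((D.ε n x * D.ε n (x + t) : ℝ) : ℂ) * q (x + t)) * h3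
  have hcoef := (hmem (hI.toLp _) (hw.toLp _) (by
    filter_upwards [hw.coeFn_toLp, hI.coeFn_toLp] with x h1 h2
    rw [h1, h2])).1 hwK (j + 2 * (D.M n : ℤ)) (by omega)
  rw [fourierCoeff_congr_ae hI.coeFn_toLp, fourierCoeff_mul_fourier] at hcoef
  rwa [add_sub_cancel_right] at hcoef

theorem FF_high {K : Submodule ℂ L2} (hW : WInv D K) (hqm : Measurable q) (hq1 : ∀ x, ‖q x‖ = 1)
    (hmem : ∀ f g : L2, (g : 𝕋 → ℂ) =ᵐ[μ] (fun x => q x * (f : 𝕋 → ℂ) x) →
      (g ∈ K ↔ ∀ n : ℤ, n < 0 → fourierCoeff (f : 𝕋 → ℂ) n = 0))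
    (n : ℕ) (t : 𝕋) (ht : D.N n • t = 0) (j : ℤ) (hj : 2 * (D.M n : ℤ) < j) :
    fourierCoeff (FF D q n t) j = 0 := by
  have h1 : fourierCoeff (fun x => conj (FF D q n t x)) (-j) = 0 := by
    have h2 : (fun x => conj (FF D q n t x)) = fun x => FF D q n (-t) (x + t) := by
      funext x; exact FF_conj D q n t x
    rw [h2, fourierCoeff_translate, FF_low D q hW hqm hq1 hmem n (-t)
      (by rw [smul_neg, ht, neg_zero]) (-j) (by omega), mul_zero]
  rw [fourierCoeff_conj, neg_neg] at h1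
  simpa using congrArg (starRingEnd ℂ) h1

/-- `F_t` is a constant -/
theorem FF_const {K : Submodule ℂ L2} (hW : WInv D K) (hqm : Measurable q) (hq1 : ∀ x, ‖q x‖ = 1)
    (hmem : ∀ f g : L2, (g : 𝕋 → ℂ) =ᵐ[μ] (fun x => q x * (f : 𝕋 → ℂ) x) →
      (g ∈ K ↔ ∀ n : ℤ, n < 0 → fourierCoeff (f : 𝕋 → ℂ) n = 0))
    (n : ℕ) (t : 𝕋) (ht : D.N n • t = 0) :
    ∃ c : ℂ, ‖c‖ = 1 ∧ FF D q n t =ᵐ[μ] fun _ => c := by
  obtain ⟨c, k, hc, hk⟩ := monomial_of_unimodular
    (FF_meas D q hqm n t).aestronglyMeasurable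
    (Eventually.of_forall (FF_norm D q hq1 n t)) (2 * D.M n) (by
      intro j hj
      rcases abs_cases j with ⟨h1, h2⟩ | ⟨h1, h2⟩
      · exact FF_high D q hW hqm hq1 hmem n t ht j (by push_cast at hj; omega)
      · exact FF_low D q hW hqm hq1 hmem n t ht j (by push_cast at hj; omega))
  -- `g = ε q` satisfies `g (x + t) = c z^k g x`
  set g : 𝕋 → ℂ := fun x => ((D.ε n x : ℝ) : ℂ) * q x with hg
  have hgn : ∀ x, ‖g x‖ = 1 := by
    intro x
    rw [hg]
    simp only [norm_mul, Complex.norm_real, Real.norm_eq_abs, eps_norm, hq1, one_mul]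
  have hgt : ∀ᵐ x ∂μ, g (x + t) = c * fourier k x * g x := by
    filter_upwards [hk] with x hx
    rw [← hx]
    simp only [hg, FF]
    have h3 := mul_conj_one (hq1 x)
    have h4 : ((D.ε n x : ℝ) : ℂ) ^ 2 = 1 := by
      rw [← Complex.ofReal_pow, D.ε_sq, Complex.ofReal_one]
    push_cast
    linear_combination (-((D.ε n (x + t) : ℝ) : ℂ) * q (x + t) *
      ((D.ε n x : ℝ) : ℂ) ^ 2) * h3 - ((D.ε n (x + t) : ℝ) : ℂ) * q (x + t) * h4
  have hiter : ∀ j : ℕ, ∃ d : ℂ, ‖d‖ = 1 ∧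
      ∀ᵐ x ∂μ, g (x + j • t) = d * fourier ((j : ℤ) * k) x * g x := by
    intro j
    induction j with
    | zero => exact ⟨1, norm_one, Eventually.of_forall fun x => by simp⟩
    | succ j ih =>
      obtain ⟨d, hd, hdx⟩ := ih
      refine ⟨d * c * fourier k (j • t), ?_, ?_⟩
      · rw [norm_mul, norm_mul, hd, hc, bt_norm_fourier]; norm_num
      · filter_upwards [hdx, ae_translate hgt (j • t)] with x h1 h2
        rw [succ_nsmul, ← add_assoc, h2, h1, fourier_add_arg]
        have : (fourier (((j + 1 : ℕ) : ℤ) * k) x : ℂ) = fourier ((j : ℤ) * k) x * fourier k x := by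
          rw [← fourier_add]; congr 2; push_cast; ring
        rw [this]
        ring
  obtain ⟨d, hd, hdx⟩ := hiter (D.N n)
  have hk0 : k = 0 := by
    by_contra hk0
    have hne : ((D.N n : ℕ) : ℤ) * k ≠ 0 :=
      mul_ne_zero (by exact_mod_cast (D.N_pos n).ne') hk0
    have h1 : ∀ᵐ x ∂μ, (fourier (((D.N n : ℕ) : ℤ) * k) x : ℂ) = conj d := by
      filter_upwards [hdx] with x hx
      rw [ht, add_zero] at hx
      have h2 : g x ≠ 0 := by
        intro h; have := hgn x; rw [h, norm_zero] at this; exact one_ne_zero this.symm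
      have h3 : (1 : ℂ) = d * fourier (((D.N n : ℕ) : ℤ) * k) x := by
        apply mul_right_cancel₀ h2
        rw [one_mul]; exact hx
      have h4 := mul_conj_one hd
      linear_combination (conj d) * (-h3) + (fourier (((D.N n : ℕ) : ℤ) * k) x : ℂ) * (-h4)
    have h2 : fourierCoeff (fun x : 𝕋 => (fourier (((D.N n : ℕ) : ℤ) * k) x : ℂ)) 0 = conj d := by
      rw [fourierCoeff_congr_ae h1, fourierCoeff_def']
      simp
    have h3 : fourierCoeff (fun x : 𝕋 => (fourier (((D.N n : ℕ) : ℤ) * k) x : ℂ)) 0 = 0 := by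
      have := congrFun (fourierCoeff_fourier (T := (1 : ℝ)) (((D.N n : ℕ) : ℤ) * k)) 0
      rw [Pi.single_eq_of_ne hne.symm] at this
      exact this
    rw [h3] at h2
    have h5 := congrArg norm h2
    rw [norm_zero, RCLike.norm_conj, hd] at h5
    exact zero_ne_one h5
  refine ⟨c, hc, ?_⟩
  filter_upwards [hk] with x hx
  rw [hx, hk0, fourier_zero, mul_one]

/-- translation as a continuous map -/
def trC (t : 𝕋) : C(𝕋, 𝕋) := ⟨fun x => x + t, continuous_add_const t⟩

theorem mpC (t : 𝕋) : MeasurePreserving (trC t) μ μ := mp_add t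

theorem continuous_trC : Continuous trC :=
  ContinuousMap.continuous_of_continuous_uncurry _ (by
    show Continuous (fun p : 𝕋 × 𝕋 => p.2 + p.1)
    exact continuous_snd.add continuous_fst)

/-- translation is continuous in `L¹` -/
theorem translate_L1 (hqm : Measurable q) (hq1 : ∀ x, ‖q x‖ = 1) :
    Tendsto (fun n => ∫ x, ‖q (x + D.t n) - q x‖ ∂μ) atTop (𝓝 0) := by
  have hqL : MemLp q 1 μ := MemLp.of_bound hqm.aestronglyMeasurable 1
    (Eventually.of_forall fun x => (hq1 x).le)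
  have h1 := Filter.Tendsto.compMeasurePreservingLp (μ := (μ : Measure 𝕋)) (ν := (μ : Measure 𝕋))
    (f := fun _ : ℕ => hqL.toLp q) (f₀ := hqL.toLp q) (l := atTop)
    (g := fun n => trC (D.t n)) (g₀ := trC 0)
    tendsto_const_nhds ((continuous_trC.tendsto 0).comp D.t_lim) (fun n => mpC (D.t n)) (mpC 0)
    ENNReal.one_ne_top
  have h2 : Lp.compMeasurePreserving (trC 0) (mpC 0) (hqL.toLp q) = hqL.toLp q := by
    refine Lp.ext ?_
    filter_upwards [Lp.coeFn_compMeasurePreserving (hqL.toLp q) (mpC 0)] with x hx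
    rw [hx]
    show (hqL.toLp q : 𝕋 → ℂ) (x + 0) = _
    rw [add_zero]
  rw [h2, tendsto_iff_norm_sub_tendsto_zero] at h1
  refine h1.congr fun n => ?_
  rw [L1.norm_eq_integral_norm]
  refine integral_congr_ae ?_
  filter_upwards [Lp.coeFn_sub (Lp.compMeasurePreserving (trC (D.t n)) (mpC (D.t n)) (hqL.toLp q))
      (hqL.toLp q),
    Lp.coeFn_compMeasurePreserving (hqL.toLp q) (mpC (D.t n)), hqL.coeFn_toLp,
    ae_translate hqL.coeFn_toLp (D.t n)] with x h3 h4 h5 h6
  rw [h3, Pi.sub_apply, h4, h5]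
  show ‖(hqL.toLp q : 𝕋 → ℂ) (x + D.t n) - q x‖ = _
  rw [h6]

/-- no `q H²` is invariant -/
theorem case_q {K : Submodule ℂ L2} (hW : WInv D K) (hqm : Measurable q) (hq1 : ∀ x, ‖q x‖ = 1)
    (hmem : ∀ f g : L2, (g : 𝕋 → ℂ) =ᵐ[μ] (fun x => q x * (f : 𝕋 → ℂ) x) →
      (g ∈ K ↔ ∀ n : ℤ, n < 0 → fourierCoeff (f : 𝕋 → ℂ) n = 0)) : False := by
  have hbound : ∀ n, 1 / 2 ≤ ∫ x, ‖q (x + D.t n) - q x‖ ∂μ := by
    intro n
    obtain ⟨c, hc, hcx⟩ := FF_const D q hW hqm hq1 hmem n (D.t n) (D.N_t n)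
    have h1 : ∫ x, FF D q n (D.t n) x ∂μ = c := by
      rw [integral_congr_ae hcx]; simp
    have hee : Integrable (fun x => D.ε n x * D.ε n (x + D.t n)) μ := by
      have hm : Measurable (fun x => D.ε n x * D.ε n (x + D.t n)) :=
        (D.hε n).mul ((D.hε n).comp (measurable_add_const _))
      refine Integrable.of_bound hm.aestronglyMeasurable 1 (Eventually.of_forall fun x => ?_)
      rw [norm_mul, Real.norm_eq_abs, Real.norm_eq_abs, eps_norm, eps_norm]; norm_num
    have h2 : ∫ x, (FF D q n (D.t n) x - ((D.ε n x * D.ε n (x + D.t n) : ℝ) : ℂ)) ∂μ =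
        c - ((∫ x, D.ε n x * D.ε n (x + D.t n) ∂μ : ℝ) : ℂ) := by
      have hee' : Integrable (fun x => ((D.ε n x * D.ε n (x + D.t n) : ℝ) : ℂ)) μ := hee.ofReal
      rw [integral_sub (FF_integrable D q hqm hq1 n _) hee', h1]
      congr 1
      exact integral_complex_ofReal
    have h3 : ‖c - ((∫ x, D.ε n x * D.ε n (x + D.t n) ∂μ : ℝ) : ℂ)‖ ≤
        ∫ x, ‖q (x + D.t n) - q x‖ ∂μ := by
      rw [← h2]
      refine (norm_integral_le_integral_norm _).trans_eq ?_
      refine integral_congr_ae (Eventually.of_forall fun x => ?_)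
      have h4 := mul_conj_one (hq1 x)
      have h5 : FF D q n (D.t n) x - ((D.ε n x * D.ε n (x + D.t n) : ℝ) : ℂ) =
          ((D.ε n x * D.ε n (x + D.t n) : ℝ) : ℂ) * (q (x + D.t n) - q x) * conj (q x) := by
        unfold FF
        linear_combination (((D.ε n x * D.ε n (x + D.t n) : ℝ) : ℂ)) * h4
      show ‖FF D q n (D.t n) x - ((D.ε n x * D.ε n (x + D.t n) : ℝ) : ℂ)‖ = _
      rw [h5, norm_mul, norm_mul, RCLike.norm_conj, hq1, Complex.norm_real, norm_mul,
        Real.norm_eq_abs, Real.norm_eq_abs, eps_norm, eps_norm]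
      ring
    have h6 : (1 : ℝ) / 2 ≤ ‖c - ((∫ x, D.ε n x * D.ε n (x + D.t n) ∂μ : ℝ) : ℂ)‖ := by
      have h7 := norm_sub_norm_le c ((∫ x, D.ε n x * D.ε n (x + D.t n) ∂μ : ℝ) : ℂ)
      rw [hc, Complex.norm_real, Real.norm_eq_abs] at h7
      have := D.small n
      linarith
    exact h6.trans h3
  have := ge_of_tendsto (translate_L1 D q hqm hq1) (Eventually.of_forall hbound)
  norm_num at this

end

end TransAlg
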