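import Pool.Agent.Work.MP_56c4bc_an.BeurlingT
import Pool.Agent.Work.MP_56c4bc_an.Reducing
import Pool.Agent.Work.MP_56c4bc_an.Wandering

/-!
# Transitivity: the two cases together
-/

open MeasureTheory AddCircle Complex Filter Topology Set
open scoped ENNReal ComplexConjugate InnerProductSpace

namespace TransAlg

/-- the only closed subspaces invariant under all the operators are trivial -/
theorem transitive (D : Data) (K : Submodule ℂ L2) (hcl : IsClosed (K : Set L2))
    (hU : ZInv K) (hW : WInv D K) : K = ⊥ ∨ K = ⊤ := by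
  have hU1 : ∀ f ∈ K, bt_T 1 f ∈ K := fun f hf => hU f hf _ (bt_T_ae 1 f)
  by_cases h : ∀ f ∈ K, bt_T (-1) f ∈ K
  · refine case_reducing D K hcl ?_ hW
    intro k f hf g hg
    have hgk : g = bt_T k f := by
      apply Lp.ext
      filter_upwards [hg, bt_T_ae k f] with x h1 h2
      rw [h1, h2]
    rw [hgk]
    obtain ⟨m, hm | hm⟩ := Int.eq_nat_or_neg k
    · rw [hm]
      exact bt_T_mem_nat hU1 m f hf
    · rw [hm]
      exact bt_T_mem_neg h m f hf
  · exfalso
    push Not at h
    obtain ⟨f1, hf1, hf1'⟩ := h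
    obtain ⟨q, hqm, hq1, hmem⟩ := bt_case2 hcl hU1 hf1 hf1'
    exact case_q D q hW hqm hq1 hmem

end TransAlg
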