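import Mathlib

/-! Abstract goal and transport along a unitary. -/

open MeasureTheory Set Filter
open scoped ENNReal NNReal Topology InnerProductSpace ComplexConjugate

namespace TransAlg

/-- `Goal H U`: there is a unital subalgebra of `B(H)`, closed in the weak operator topology,
containing `U`, without nontrivial closed invariant subspaces, and different from `B(H)`. -/
def Goal (H : Type) [NormedAddCommGroup H] [InnerProductSpace ℂ H] [CompleteSpace H]
    (U : H →L[ℂ] H) : Prop :=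
  ∃ A : Subalgebra ℂ (H →L[ℂ] H),
    IsClosed {T : H →WOT[ℂ] H | T.toCLM ∈ A} ∧ U ∈ A ∧
    (∀ M : Submodule ℂ H, IsClosed (M : Set H) → (∀ T ∈ A, ∀ x ∈ M, T x ∈ M) →
      M = ⊥ ∨ M = ⊤) ∧
    A ≠ ⊤

/-- conjugation by a unitary, from operators on `K` to operators on `H` -/
noncomputable def pull {H K : Type} [NormedAddCommGroup H] [InnerProductSpace ℂ H]
    [NormedAddCommGroup K] [InnerProductSpace ℂ K]
    (Φ : H ≃ₗᵢ[ℂ] K) (T : K →L[ℂ] K) : H →L[ℂ] H :=
  (Φ.symm.toContinuousLinearEquiv : K →L[ℂ] H) ∘L T ∘L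
    (Φ.toContinuousLinearEquiv : H →L[ℂ] K)

theorem pull_apply {H K : Type} [NormedAddCommGroup H] [InnerProductSpace ℂ H]
    [NormedAddCommGroup K] [InnerProductSpace ℂ K]
    (Φ : H ≃ₗᵢ[ℂ] K) (T : K →L[ℂ] K) (x : H) : pull Φ T x = Φ.symm (T (Φ x)) := rfl

/-- conjugation as an algebra homomorphism -/
noncomputable def pullHom {H K : Type} [NormedAddCommGroup H] [InnerProductSpace ℂ H]
    [NormedAddCommGroup K] [InnerProductSpace ℂ K]
    (Φ : H ≃ₗᵢ[ℂ] K) : (K →L[ℂ] K) →ₐ[ℂ] (H →L[ℂ] H) where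
  toFun := pull Φ
  map_one' := by
    ext x; simp [pull_apply]
  map_mul' S T := by
    ext x; simp [pull_apply]
  map_zero' := by
    ext x; simp [pull_apply]
  map_add' S T := by
    ext x; simp [pull_apply]
  commutes' r := by
    ext x
    simp [pull_apply, Algebra.algebraMap_eq_smul_one]

theorem Goal.transport {H K : Type} [NormedAddCommGroup H] [InnerProductSpace ℂ H]
    [CompleteSpace H] [NormedAddCommGroup K] [InnerProductSpace ℂ K] [CompleteSpace K]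
    {U : H →L[ℂ] H} {V : K →L[ℂ] K} (Φ : H ≃ₗᵢ[ℂ] K) (hUV : ∀ x, Φ (U x) = V (Φ x))
    (h : Goal H U) : Goal K V := by
  obtain ⟨A, hA1, hA2, hA3, hA4⟩ := h
  refine ⟨A.comap (pullHom Φ), ?_, ?_, ?_, ?_⟩
  · have hcont : Continuous (fun T : K →WOT[ℂ] K =>
        (ContinuousLinearMapWOT.ofCLM (pull Φ T.toCLM) : H →WOT[ℂ] H)) := by
      apply ContinuousLinearMapWOT.continuous_of_dual_apply_continuous
      intro x y
      have : (fun T : K →WOT[ℂ] K =>
          y ((ContinuousLinearMapWOT.ofCLM (pull Φ T.toCLM) : H →WOT[ℂ] H) x))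
          = fun T : K →WOT[ℂ] K =>
            (y ∘L (Φ.symm.toContinuousLinearEquiv : K →L[ℂ] H)) (T (Φ x)) := by
        ext T; rfl
      rw [this]
      exact ContinuousLinearMapWOT.continuous_dual_apply (Φ x) _
    exact hA1.preimage hcont
  · rw [Subalgebra.mem_comap]
    have : pullHom Φ V = U := by
      ext x
      change Φ.symm (V (Φ x)) = U x
      rw [← hUV, LinearIsometryEquiv.symm_apply_apply]
    rw [this]; exact hA2
  · intro M hM hinv
    have key : (M.comap (Φ.toLinearEquiv : H →ₗ[ℂ] K)) = ⊥ ∨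
        (M.comap (Φ.toLinearEquiv : H →ₗ[ℂ] K)) = ⊤ := by
      apply hA3
      · exact hM.preimage Φ.continuous
      · intro T hT x hx
        have hx' : Φ x ∈ M := hx
        change Φ (T x) ∈ M
        -- the conjugate operator on K
        let T' : K →L[ℂ] K := (Φ.toContinuousLinearEquiv : H →L[ℂ] K) ∘L T ∘L
          (Φ.symm.toContinuousLinearEquiv : K →L[ℂ] H)
        have hT' : T' ∈ A.comap (pullHom Φ) := by
          rw [Subalgebra.mem_comap]
          have : pullHom Φ T' = T := by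
            ext z
            change Φ.symm (Φ (T (Φ.symm (Φ z)))) = T z
            simp
          rw [this]; exact hT
        have := hinv T' hT' (Φ x) hx'
        have h2 : T' (Φ x) = Φ (T x) := by
          change Φ (T (Φ.symm (Φ x))) = Φ (T x)
          simp
        rwa [h2] at this
    rcases key with h | h
    · left
      rw [Submodule.eq_bot_iff] at h ⊢
      intro y hy
      have hmem : Φ.symm y ∈ M.comap (Φ.toLinearEquiv : H →ₗ[ℂ] K) := by
        change Φ (Φ.symm y) ∈ M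
        simpa using hy
      have := h _ hmem
      have h2 : Φ (Φ.symm y) = Φ 0 := by rw [this]
      simpa using h2
    · right
      rw [Submodule.eq_top_iff'] at h ⊢
      intro y
      have := h (Φ.symm y)
      change Φ (Φ.symm y) ∈ M at this
      simpa using this
  · intro htop
    apply hA4
    rw [Algebra.eq_top_iff]
    intro T
    let T' : K →L[ℂ] K := (Φ.toContinuousLinearEquiv : H →L[ℂ] K) ∘L T ∘L
      (Φ.symm.toContinuousLinearEquiv : K →L[ℂ] H)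
    have hT' : T' ∈ A.comap (pullHom Φ) := by rw [htop]; exact Algebra.mem_top
    rw [Subalgebra.mem_comap] at hT'
    have : pullHom Φ T' = T := by
      ext z
      change Φ.symm (Φ (T (Φ.symm (Φ z)))) = T z
      simp
    rwa [this] at hT'

/-- `ℓ²(ℤ)` -/
abbrev l2Z : Type := lp (fun _ : ℤ => ℂ) 2

/-- From a Hilbert space with a basis indexed by `ℤ` shifted by `U` to `ℓ²(ℤ)`. -/
theorem final_of_goal {H : Type} [NormedAddCommGroup H] [InnerProductSpace ℂ H]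
    [CompleteSpace H] (b : HilbertBasis ℤ ℂ H) (U : H →L[ℂ] H)
    (hU : ∀ n : ℤ, U (b n) = b (n + 1)) (hG : Goal H U) :
    ∃ A : Subalgebra ℂ (l2Z →L[ℂ] l2Z),
      IsClosed {T : l2Z →WOT[ℂ] l2Z | T.toCLM ∈ A} ∧
      (∃ U ∈ A, ∀ n : ℤ, U (lp.single 2 n 1) = lp.single 2 (n + 1) 1) ∧
      (∀ M : Submodule ℂ l2Z, IsClosed (M : Set l2Z) → (∀ T ∈ A, ∀ x ∈ M, T x ∈ M) →
        M = ⊥ ∨ M = ⊤) ∧
      A ≠ ⊤ := by
  let Φ : H ≃ₗᵢ[ℂ] l2Z := b.repr
  let V : l2Z →L[ℂ] l2Z :=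
    (Φ.toContinuousLinearEquiv : H →L[ℂ] l2Z) ∘L U ∘L
      (Φ.symm.toContinuousLinearEquiv : l2Z →L[ℂ] H)
  have hV : ∀ x, V x = Φ (U (Φ.symm x)) := fun x => rfl
  have hUV : ∀ x, Φ (U x) = V (Φ x) := by
    intro x; rw [hV, LinearIsometryEquiv.symm_apply_apply]
  have hΦ : ∀ n : ℤ, Φ (b n) = lp.single 2 n 1 := fun n => b.repr_self n
  obtain ⟨A, hA1, hA2, hA3, hA4⟩ := Goal.transport Φ hUV hG
  refine ⟨A, hA1, ⟨V, hA2, ?_⟩, hA3, hA4⟩
  intro n
  rw [← hΦ n, ← hUV, hU, hΦ]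

/-- the standard Hilbert basis of `ℓ²(ℤ)` -/
noncomputable def stdB : HilbertBasis ℤ ℂ l2Z := HilbertBasis.ofRepr (LinearIsometryEquiv.refl ℂ l2Z)

theorem stdB_apply (n : ℤ) : stdB n = lp.single 2 n 1 := by
  have h := stdB.repr_self n
  exact h

/-- the bilateral shift exists, as a unitary -/
theorem exists_shift : ∃ U : l2Z ≃ₗᵢ[ℂ] l2Z, ∀ n : ℤ,
    U (lp.single 2 n 1) = lp.single 2 (n + 1) 1 := by
  have ho : Orthonormal ℂ (fun n : ℤ => stdB (n + 1)) :=
    stdB.orthonormal.comp (fun n : ℤ => n + 1) (add_left_injective 1)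
  have hr : Set.range (fun n : ℤ => stdB (n + 1)) = Set.range stdB := by
    ext x
    constructor
    · rintro ⟨n, rfl⟩; exact ⟨n + 1, rfl⟩
    · rintro ⟨n, rfl⟩; exact ⟨n - 1, by simp⟩
  let B' : HilbertBasis ℤ ℂ l2Z := HilbertBasis.mk ho (by rw [hr, stdB.dense_span])
  have hB' : ∀ n, B' n = stdB (n + 1) := fun n => congrFun (HilbertBasis.coe_mk ho _) n
  refine ⟨stdB.repr.trans B'.repr.symm, fun n => ?_⟩
  rw [← stdB_apply n, ← stdB_apply (n + 1), LinearIsometryEquiv.trans_apply, stdB.repr_self,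
    ← B'.repr_self n, LinearIsometryEquiv.symm_apply_apply, hB']

/-- an operator is determined by its values on the standard basis -/
theorem ext_single {S T : l2Z →L[ℂ] l2Z}
    (h : ∀ n : ℤ, S (lp.single 2 n 1) = T (lp.single 2 n 1)) : S = T := by
  have hd : Dense ((Submodule.span ℂ (Set.range stdB) : Submodule ℂ l2Z) : Set l2Z) :=
    (Submodule.dense_iff_topologicalClosure_eq_top).2 stdB.dense_span
  refine ContinuousLinearMap.ext_on hd ?_
  rintro _ ⟨n, rfl⟩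
  rw [stdB_apply]
  exact h n

/-- final form: for THE bilateral shift -/
theorem final_of_goal' {H : Type} [NormedAddCommGroup H] [InnerProductSpace ℂ H]
    [CompleteSpace H] (b : HilbertBasis ℤ ℂ H) (U₀ : H →L[ℂ] H)
    (hU₀ : ∀ n : ℤ, U₀ (b n) = b (n + 1)) (hG : Goal H U₀) :
    (∃ U : l2Z ≃ₗᵢ[ℂ] l2Z, ∀ n : ℤ, U (lp.single 2 n 1) = lp.single 2 (n + 1) 1) ∧
    ∀ U : l2Z →L[ℂ] l2Z, (∀ n : ℤ, U (lp.single 2 n 1) = lp.single 2 (n + 1) 1) →
      ∃ A : Subalgebra ℂ (l2Z →L[ℂ] l2Z),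
        IsClosed {T : l2Z →WOT[ℂ] l2Z | T.toCLM ∈ A} ∧ U ∈ A ∧
        (∀ M : Submodule ℂ l2Z, IsClosed (M : Set l2Z) → (∀ T ∈ A, ∀ x ∈ M, T x ∈ M) →
          M = ⊥ ∨ M = ⊤) ∧
        A ≠ ⊤ := by
  refine ⟨exists_shift, fun U hU => ?_⟩
  obtain ⟨A, h1, ⟨V, hV, hV2⟩, h3, h4⟩ := final_of_goal b U₀ hU₀ hG
  have : U = V := ext_single fun n => by rw [hU, hV2]
  exact ⟨A, h1, this ▸ hV, h3, h4⟩

/-- the goal on `L²` of the circle gives the final statement -/
theorem final_of_circle (U₀ : Lp ℂ 2 (AddCircle.haarAddCircle (T := 1)) →L[ℂ]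
      Lp ℂ 2 (AddCircle.haarAddCircle (T := 1)))
    (hU₀ : ∀ f : Lp ℂ 2 (AddCircle.haarAddCircle (T := 1)),
      (U₀ f : AddCircle (1 : ℝ) → ℂ) =ᵐ[AddCircle.haarAddCircle] fun x => (fourier 1 x : ℂ) * f x)
    (hG : Goal (Lp ℂ 2 (AddCircle.haarAddCircle (T := 1))) U₀) :
    (∃ U : l2Z ≃ₗᵢ[ℂ] l2Z, ∀ n : ℤ, U (lp.single 2 n 1) = lp.single 2 (n + 1) 1) ∧
    ∀ U : l2Z →L[ℂ] l2Z, (∀ n : ℤ, U (lp.single 2 n 1) = lp.single 2 (n + 1) 1) →
      ∃ A : Subalgebra ℂ (l2Z →L[ℂ] l2Z),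
        IsClosed {T : l2Z →WOT[ℂ] l2Z | T.toCLM ∈ A} ∧ U ∈ A ∧
        (∀ M : Submodule ℂ l2Z, IsClosed (M : Set l2Z) → (∀ T ∈ A, ∀ x ∈ M, T x ∈ M) →
          M = ⊥ ∨ M = ⊤) ∧
        A ≠ ⊤ := by
  refine final_of_goal' (fourierBasis (T := 1)) U₀ (fun n => ?_) hG
  rw [coe_fourierBasis]
  apply Lp.ext
  filter_upwards [hU₀ (fourierLp 2 n), coeFn_fourierLp (T := 1) 2 n,
    coeFn_fourierLp (T := 1) 2 (n + 1)] with x h1 h2 h3
  rw [h1, h2, h3, mul_comm, ← fourier_add]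

end TransAlg
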