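import Mathlib
import Pool.Agent.Work.MP_56c4bc_an.Defs
import Pool.Agent.Work.MP_56c4bc_an.Transport
import Pool.Agent.Work.MP_56c4bc_an.Algebra
import Pool.Agent.Work.MP_56c4bc_an.Transitive
import Pool.Agent.Work.MP_56c4bc_an.MkData

/-! # Assembly: the proper transitive algebra -/

open MeasureTheory AddCircle Complex Filter Topology
open scoped ENNReal ComplexConjugate

namespace TransAlg

theorem goal : Goal L2 (bt_T 1) := by
  obtain ⟨D⟩ := exists_data
  obtain ⟨A, h1, h2, h3, h4⟩ := exists_algebra D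
  refine ⟨A, h1, h2 _ (bt_T_ae 1), ?_, h4⟩
  intro M hM hinv
  refine transitive D M hM ?_ ?_
  · intro f hf g hg
    have hfg : g = bt_T 1 f := Lp.ext (hg.trans (bt_T_ae 1 f).symm)
    rw [hfg]
    exact hinv _ (h2 _ (bt_T_ae 1)) f hf
  · intro n t ht f hf g hg
    obtain ⟨W, hW⟩ := exists_W
      (fun x => (fourier (2 * (D.M n : ℤ)) x : ℂ) * ((D.ε n x * D.ε n (x + t) : ℝ) : ℂ))
      ((fourier _).continuous.measurable.mul (Complex.measurable_ofReal.comp
        ((D.hε n).mul ((D.hε n).comp (measurable_add_const t)))))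
      (fun x => by
        rw [norm_mul, bt_norm_fourier, Complex.norm_real, norm_mul, Real.norm_eq_abs,
          Real.norm_eq_abs, eps_norm, eps_norm]
        norm_num) t
    have hfg : g = W f := Lp.ext (hg.trans (hW f).symm)
    rw [hfg]
    exact hinv _ (h3 n t ht W hW) f hf

/-- The bilateral shift with respect to an orthonormal basis indexed by `ℤ` exists -/
theorem shift_exists {H : Type} [NormedAddCommGroup H] [InnerProductSpace ℂ H] [CompleteSpace H]
    (b : HilbertBasis ℤ ℂ H) : ∃ U : H ≃ₗᵢ[ℂ] H, ∀ n : ℤ, U (b n) = b (n + 1) := by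
  have ho : Orthonormal ℂ (fun n : ℤ => b (n + 1)) :=
    b.orthonormal.comp (fun n : ℤ => n + 1) (add_left_injective 1)
  have hr : Set.range (fun n : ℤ => b (n + 1)) = Set.range b := by
    ext x
    constructor
    · rintro ⟨n, rfl⟩; exact ⟨n + 1, rfl⟩
    · rintro ⟨n, rfl⟩; exact ⟨n - 1, by simp⟩
  let B' : HilbertBasis ℤ ℂ H := HilbertBasis.mk ho (by rw [hr, b.dense_span])
  have hB' : ∀ n, B' n = b (n + 1) := fun n => congrFun (HilbertBasis.coe_mk ho _) n
  refine ⟨b.repr.trans B'.repr.symm, fun n => ?_⟩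
  rw [LinearIsometryEquiv.trans_apply, b.repr_self,
    ← B'.repr_self n, LinearIsometryEquiv.symm_apply_apply, hB']

theorem shift_L2 (n : ℤ) : bt_T 1 ((fourierBasis (T := (1 : ℝ))) n) =
    (fourierBasis (T := (1 : ℝ))) (n + 1) := by
  rw [coe_fourierBasis]
  apply Lp.ext
  filter_upwards [bt_T_ae 1 (fourierLp 2 n), coeFn_fourierLp (T := 1) 2 n,
    coeFn_fourierLp (T := 1) 2 (n + 1)] with x h1 h2 h3
  rw [h1, h2, h3, mul_comm, ← fourier_add]

/-- the goal for every Hilbert space with a basis indexed by `ℤ` -/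
theorem goal_of_basis {H : Type} [NormedAddCommGroup H] [InnerProductSpace ℂ H] [CompleteSpace H]
    (b : HilbertBasis ℤ ℂ H) (U : H →L[ℂ] H) (hU : ∀ n : ℤ, U (b n) = b (n + 1)) : Goal H U := by
  let Φ : L2 ≃ₗᵢ[ℂ] H := (fourierBasis (T := (1 : ℝ))).repr.trans b.repr.symm
  have hΦ : ∀ n : ℤ, Φ ((fourierBasis (T := (1 : ℝ))) n) = b n := fun n => by
    show b.repr.symm ((fourierBasis (T := (1 : ℝ))).repr ((fourierBasis (T := (1 : ℝ))) n)) = b n
    rw [HilbertBasis.repr_self, ← b.repr_self n, LinearIsometryEquiv.symm_apply_apply]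
  have hUV : ∀ x, Φ (bt_T 1 x) = U (Φ x) := by
    have h1 : (Φ.toContinuousLinearEquiv : L2 →L[ℂ] H) ∘L bt_T 1 =
        U ∘L (Φ.toContinuousLinearEquiv : L2 →L[ℂ] H) := by
      have hd : Dense ((Submodule.span ℂ (Set.range (fourierBasis (T := (1 : ℝ)))) :
          Submodule ℂ L2) : Set L2) :=
        (Submodule.dense_iff_topologicalClosure_eq_top).2 (fourierBasis (T := (1 : ℝ))).dense_span
      refine ContinuousLinearMap.ext_on hd ?_
      rintro _ ⟨n, rfl⟩
      show Φ (bt_T 1 _) = U (Φ _)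
      rw [shift_L2, hΦ, hΦ, hU]
    intro x
    exact congrArg (fun T : L2 →L[ℂ] H => T x) h1
  exact Goal.transport Φ hUV goal

end TransAlg
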