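import Pool.Agent.Work.MP_56c4bc_an.Defs

/-!
# Gates (helper60)

The cubic `(3x - x³)/2` iterated on `cos 2πx`: real trigonometric polynomials which are odd under
the half period shift and close to `±1` off a null set.
-/

open MeasureTheory AddCircle Complex Filter Topology
open scoped ENNReal ComplexConjugate

namespace TransAlg

/-- the cubic gate `x ↦ (3x - x³)/2` -/
noncomputable def gcub (x : ℝ) : ℝ := (3 * x - x ^ 3) / 2

theorem gcub_neg (x : ℝ) : gcub (-x) = - gcub x := by unfold gcub; ring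

theorem gcub_continuous : Continuous gcub := by unfold gcub; fun_prop

theorem gcub_mem {x : ℝ} (h : |x| ≤ 1) : |gcub x| ≤ 1 := by
  rw [abs_le] at h ⊢
  obtain ⟨h1, h2⟩ := h
  unfold gcub
  constructor
  · nlinarith [mul_nonneg (sub_nonneg.2 h2) (sq_nonneg (x + 1)), mul_nonneg (by linarith : 0 ≤ x + 1)
      (sq_nonneg (x - 1)), mul_nonneg (by linarith : 0 ≤ x + 2) (sq_nonneg (x - 1))]
  · nlinarith [mul_nonneg (by linarith : 0 ≤ x + 2) (sq_nonneg (x - 1))]

theorem gcub_iter_neg (k : ℕ) (x : ℝ) : gcub^[k] (-x) = - gcub^[k] x := by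
  induction k generalizing x with
  | zero => rfl
  | succ k ih => rw [Function.iterate_succ_apply, gcub_neg, ih, ← Function.iterate_succ_apply]

theorem gcub_iter_mem (k : ℕ) {x : ℝ} (h : |x| ≤ 1) : |gcub^[k] x| ≤ 1 := by
  induction k generalizing x with
  | zero => exact h
  | succ k ih => rw [Function.iterate_succ_apply]; exact ih (gcub_mem h)

theorem gcub_iter_continuous (k : ℕ) : Continuous (gcub^[k]) := gcub_continuous.iterate k

/-- for `0 < x ≤ 1` the iterates tend to `1` -/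
theorem gcub_iter_tendsto {x : ℝ} (h0 : 0 < x) (h1 : x ≤ 1) :
    Tendsto (fun k => gcub^[k] x) atTop (𝓝 1) := by
  -- 1 - gcub y = (1 - y)^2 (2 + y) / 2
  have key : ∀ y : ℝ, 1 - gcub y = (1 - y) * ((1 - y) * (2 + y) / 2) := by
    intro y; unfold gcub; ring
  have hmono : ∀ k, x ≤ gcub^[k] x ∧ gcub^[k] x ≤ 1 := by
    intro k
    induction k with
    | zero => exact ⟨le_refl _, h1⟩
    | succ k ih =>
      rw [Function.iterate_succ_apply']
      obtain ⟨a1, a2⟩ := ih
      set y := gcub^[k] x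
      have hy0 : 0 < y := lt_of_lt_of_le h0 a1
      constructor
      · have : y ≤ gcub y := by unfold gcub; nlinarith [mul_nonneg hy0.le (by nlinarith : 0 ≤ 1 - y ^ 2)]
        linarith
      · have := key y
        have : 0 ≤ 1 - gcub y := by rw [this]; apply mul_nonneg (by linarith); nlinarith
        linarith
  set q : ℝ := (1 - x) * (2 + x) / 2 with hq
  have hq0 : 0 ≤ q := by rw [hq]; nlinarith
  have hq1 : q < 1 := by rw [hq]; nlinarith
  have hb : ∀ k, 1 - gcub^[k] x ≤ q ^ k := by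
    intro k
    induction k with
    | zero => simp; linarith
    | succ k ih =>
      rw [Function.iterate_succ_apply', key]
      obtain ⟨a1, a2⟩ := hmono k
      set y := gcub^[k] x
      have : (1 - y) * (2 + y) / 2 ≤ q := by rw [hq]; nlinarith
      calc (1 - y) * ((1 - y) * (2 + y) / 2) ≤ (1 - y) * q :=
            mul_le_mul_of_nonneg_left this (by linarith)
        _ ≤ q ^ k * q := mul_le_mul_of_nonneg_right ih hq0
        _ = q ^ (k + 1) := by ring
  have hlim : Tendsto (fun k : ℕ => q ^ k) atTop (𝓝 0) := tendsto_pow_atTop_nhds_zero_of_lt_one hq0 hq1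
  have h2 : Tendsto (fun k => 1 - gcub^[k] x) atTop (𝓝 0) :=
    squeeze_zero (fun k => by linarith [(hmono k).2]) hb hlim
  have h3 := (tendsto_const_nhds (x := (1 : ℝ))).sub h2
  simpa using h3

theorem gcub_iter_abs_tendsto {x : ℝ} (h0 : x ≠ 0) (h1 : |x| ≤ 1) :
    Tendsto (fun k => |gcub^[k] x|) atTop (𝓝 1) := by
  rcases lt_or_gt_of_ne h0 with h | h
  · have := gcub_iter_tendsto (x := -x) (by linarith) (by rw [abs_le] at h1; linarith)
    have h2 := this.abs
    simpa [gcub_iter_neg] using h2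
  · have := gcub_iter_tendsto h (le_of_abs_le h1)
    simpa using this.abs

/-- `cos 2πx` -/
noncomputable def cs (x : 𝕋) : ℝ := ((fourier 1 x : ℂ)).re

theorem cs_continuous : Continuous cs := Complex.continuous_re.comp (fourier 1).continuous

theorem cs_abs (x : 𝕋) : |cs x| ≤ 1 := by
  have h : ‖(fourier 1 x : ℂ)‖ = 1 := by
    rw [fourier_apply]; exact Circle.norm_coe _
  exact (Complex.abs_re_le_norm _).trans h.le

theorem cs_coe (x : 𝕋) : ((cs x : ℝ) : ℂ) = ((fourier 1 x : ℂ) + (fourier (-1) x : ℂ)) / 2 := by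
  rw [fourier_neg, cs, Complex.add_conj]
  simp

theorem cs_half (x : 𝕋) : cs (x + ((1 / 2 : ℝ) : 𝕋)) = - cs x := by
  have h := @fourier_add_half_inv_index 1 1 one_ne_zero (by norm_num) x
  unfold cs
  have h' : (fourier 1 (x + ((1 / 2 : ℝ) : 𝕋)) : ℂ) = - (fourier 1 x : ℂ) := by
    convert h using 4
    norm_num
  rw [h']; simp

theorem cs_mem : (fun x => ((cs x : ℝ) : ℂ)) ∈ TP 1 := by
  have h1 : (fun x => (fourier 1 x : ℂ)) ∈ TP 1 := TP.fourier_mem (by simp)
  have h2 : (fun x => (fourier (-1) x : ℂ)) ∈ TP 1 := TP.fourier_mem (by simp)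
  have h3 := (TP 1).smul_mem (1 / 2 : ℂ) ((TP 1).add_mem h1 h2)
  convert h3 using 1
  funext x
  rw [cs_coe]
  simp only [Pi.smul_apply, Pi.add_apply, smul_eq_mul]
  ring

theorem gcub_iter_cs_mem (k : ℕ) : (fun x => ((gcub^[k] (cs x) : ℝ) : ℂ)) ∈ TP (3 ^ k) := by
  induction k with
  | zero => simpa using cs_mem
  | succ k ih =>
    have h3 := TP.mul (TP.mul ih ih) ih
    have e : 3 ^ k + 3 ^ k + 3 ^ k = 3 ^ (k + 1) := by ring
    rw [e] at h3
    have h1 := TP.mono (Nat.pow_le_pow_right (by norm_num : 0 < 3) (Nat.le_succ k)) ih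
    have h := (TP (3 ^ (k + 1))).sub_mem ((TP (3 ^ (k + 1))).smul_mem (3 / 2 : ℂ) h1)
      ((TP (3 ^ (k + 1))).smul_mem (1 / 2 : ℂ) h3)
    convert h using 1
    funext x
    rw [Function.iterate_succ_apply']
    simp only [Pi.smul_apply, Pi.sub_apply, smul_eq_mul]
    unfold gcub
    push_cast
    ring

theorem cs_zero_finite : {x : 𝕋 | cs x = 0}.Finite := by
  refine ((AddCircle.finite_torsion (p := (1 : ℝ)) (n := 4) (by norm_num))).subset ?_
  intro x hx
  have hx' : cs x = 0 := hx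
  have hn : ‖(fourier 1 x : ℂ)‖ = 1 := by
    rw [fourier_apply]; exact Circle.norm_coe _
  set w : ℂ := (fourier 1 x : ℂ) with hw
  have hre : w.re = 0 := hx'
  have him : w.im ^ 2 = 1 := by
    have h2 : ‖w‖ ^ 2 = w.re ^ 2 + w.im ^ 2 := by
      rw [← Complex.normSq_eq_norm_sq, Complex.normSq_apply]; ring
    rw [hn, hre] at h2
    linarith
  have hw4 : w ^ 4 = 1 := by
    have hw2 : w = (w.im : ℂ) * Complex.I := by
      apply Complex.ext <;> simp [hre]
    rw [hw2, mul_pow, show (Complex.I) ^ 4 = 1 from Complex.I_pow_four, mul_one]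
    have : ((w.im : ℂ)) ^ 4 = (((w.im ^ 2) ^ 2 : ℝ) : ℂ) := by push_cast; ring
    rw [this, him]; simp
  have h4 : (toCircle ((4 : ℕ) • x) : ℂ) = 1 := by
    have h5 : (toCircle ((4 : ℕ) • x)) = (toCircle x) ^ 4 := toCircle_nsmul x 4
    rw [h5]
    have h6 : (toCircle x : ℂ) = w := by rw [hw, fourier_one]
    push_cast
    rw [h6, hw4]
  have h7 : toCircle ((4 : ℕ) • x) = 1 := by
    apply Subtype.ext
    simpa using h4
  have h8 : toCircle ((4 : ℕ) • x) = toCircle (0 : 𝕋) := by rw [h7, toCircle_zero]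
  exact injective_toCircle (T := (1 : ℝ)) one_ne_zero h8

instance nontrivial_T : Nontrivial 𝕋 := by
  refine ⟨0, ((1 / 2 : ℝ) : 𝕋), fun h => ?_⟩
  have h1 := cs_half 0
  rw [zero_add, ← h] at h1
  have h2 : cs 0 = 1 := by simp [cs]
  rw [h2] at h1
  norm_num at h1

instance nullSingleton_μ : NullSingletonClass μ := by
  have : (𝓝[≠] (0 : 𝕋)).NeBot := inferInstance
  exact Measure.IsAddHaarMeasure.nullSingletonClass μ

/-- [56c4bc G] gates: a real trigonometric polynomial near `±1` with a complementary `b`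
(given Fejer-Riesz) -/
theorem exists_gate_of (FR : ∀ (D : ℕ) (P : 𝕋 → ℝ), (fun x => (P x : ℂ)) ∈ TP D →
    (∀ x, 0 < P x) → ∃ b ∈ TP D, ∀ x, ‖b x‖ ^ 2 = P x) (δ : ℝ) (hδ : 0 < δ) : ∃ (D : ℕ) (a : 𝕋 → ℝ) (b : 𝕋 → ℂ),
    (fun x => (a x : ℂ)) ∈ TP D ∧ b ∈ TP D ∧ (∀ x, a x ^ 2 + ‖b x‖ ^ 2 = 1) ∧
    (∀ x, a (x + ((1 / 2 : ℝ) : 𝕋)) = - a x) ∧ ∫ x, √(1 - |a x|) ∂μ ≤ δ := by
  set r : ℕ → ℝ := fun k => 1 - 1 / ((k : ℝ) + 2) with hr
  have hr0 : ∀ k, 0 ≤ r k := by
    intro k
    have : 1 / ((k : ℝ) + 2) ≤ 1 := by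
      rw [div_le_one (by positivity)]
      have : (0 : ℝ) ≤ k := Nat.cast_nonneg k
      linarith
    simp only [hr]; linarith
  have hr1 : ∀ k, r k < 1 := by
    intro k
    have : 0 < 1 / ((k : ℝ) + 2) := by positivity
    simp only [hr]; linarith
  have hrt : Tendsto r atTop (𝓝 1) := by
    have h1 : Tendsto (fun k : ℕ => 1 / ((k : ℝ) + 2)) atTop (𝓝 0) := by
      have h := (tendsto_one_div_add_atTop_nhds_zero_nat (𝕜 := ℝ)).comp (tendsto_add_atTop_nat 1)
      refine h.congr (fun k => ?_)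
      simp only [Function.comp_apply, Nat.cast_add, Nat.cast_one]
      congr 1; ring
    have := (tendsto_const_nhds (x := (1 : ℝ))).sub h1
    simpa [hr] using this
  set a : ℕ → 𝕋 → ℝ := fun k x => r k * gcub^[k] (cs x) with ha
  have hac : ∀ k, Continuous (a k) := fun k =>
    continuous_const.mul ((gcub_iter_continuous k).comp cs_continuous)
  have hab : ∀ k x, |a k x| < 1 := by
    intro k x
    simp only [ha, abs_mul, abs_of_nonneg (hr0 k)]
    calc r k * |gcub^[k] (cs x)| ≤ r k * 1 := mul_le_mul_of_nonneg_left (gcub_iter_mem k (cs_abs x)) (hr0 k)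
      _ < 1 := by rw [mul_one]; exact hr1 k
  have hlim : Tendsto (fun k => ∫ x, √(1 - |a k x|) ∂μ) atTop (𝓝 (∫ _x, (0 : ℝ) ∂μ)) := by
    refine tendsto_integral_of_dominated_convergence (fun _ => (1 : ℝ)) ?_ ?_ ?_ ?_
    · intro k
      exact (Real.continuous_sqrt.comp (continuous_const.sub (hac k).abs)).aestronglyMeasurable
    · exact integrable_const _
    · intro k
      refine Filter.Eventually.of_forall (fun x => ?_)
      rw [Real.norm_eq_abs, abs_of_nonneg (Real.sqrt_nonneg _)]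
      rw [Real.sqrt_le_one]
      linarith [abs_nonneg (a k x)]
    · have hz : μ {x : 𝕋 | cs x = 0} = 0 := cs_zero_finite.measure_zero μ
      have hz' : ∀ᵐ x ∂μ, cs x ≠ 0 := by
        rw [ae_iff]; simpa using hz
      filter_upwards [hz'] with x hx
      have h1 : Tendsto (fun k => |a k x|) atTop (𝓝 1) := by
        have h2 := hrt.mul (gcub_iter_abs_tendsto hx (cs_abs x))
        rw [mul_one] at h2
        refine h2.congr (fun k => ?_)
        simp only [ha, abs_mul, abs_of_nonneg (hr0 k)]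
      have h3 : Tendsto (fun k => √(1 - |a k x|)) atTop (𝓝 (√(1 - 1))) :=
        (Real.continuous_sqrt.tendsto _).comp (tendsto_const_nhds.sub h1)
      simpa using h3
  rw [integral_zero] at hlim
  obtain ⟨k, hk⟩ := ((tendsto_order.1 hlim).2 δ hδ).exists
  have hmem : (fun x => ((a k x : ℝ) : ℂ)) ∈ TP (3 ^ k) := by
    have := (TP (3 ^ k)).smul_mem ((r k : ℝ) : ℂ) (gcub_iter_cs_mem k)
    convert this using 1
    funext x
    simp only [ha, Pi.smul_apply, smul_eq_mul]
    push_cast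
    rfl
  have hP : (fun x => (((1 - a k x ^ 2 : ℝ)) : ℂ)) ∈ TP (2 * 3 ^ k) := by
    have h1 : (fun x => (fourier 0 x : ℂ)) ∈ TP (2 * 3 ^ k) := TP.fourier_mem (by positivity)
    have h2 := TP.mul hmem hmem
    rw [← two_mul] at h2
    have h3 := (TP (2 * 3 ^ k)).sub_mem h1 h2
    convert h3 using 1
    funext x
    simp only [Pi.sub_apply, fourier_zero]
    push_cast
    ring
  have hpos : ∀ x, 0 < 1 - a k x ^ 2 := by
    intro x
    have h := hab k x
    have h2 : a k x ^ 2 < 1 := by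
      rw [← sq_abs]
      nlinarith [abs_nonneg (a k x)]
    linarith
  obtain ⟨b, hb, hb2⟩ := FR (2 * 3 ^ k) (fun x => 1 - a k x ^ 2) hP hpos
  refine ⟨2 * 3 ^ k, a k, b, TP.mono (by omega) hmem, hb, ?_, ?_, hk.le⟩
  · intro x
    rw [hb2 x]; ring
  · intro x
    simp only [ha]
    rw [cs_half, gcub_iter_neg]; ring

end TransAlg
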