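import Pool.Agent.Work.MP_56c4bc_an.Defs

/-! The space `L²(𝕋)` and the Hardy space. -/

open MeasureTheory AddCircle Complex Filter Topology
open scoped ENNReal ComplexConjugate InnerProductSpace

namespace TransAlg

/-- `L²` of the circle -/
abbrev L2T : Type := Lp ℂ 2 μ

/-- the Hardy space: orthogonal complement of the characters with negative frequency -/
noncomputable def Hardy : Submodule ℂ L2T :=
  (Submodule.span ℂ ((fun n : ℤ => (fourierLp 2 n : L2T)) '' {n : ℤ | n < 0}))ᗮ

theorem inner_fourierLp (n : ℤ) (f : L2T) : ⟪(fourierLp 2 n : L2T), f⟫_ℂ = fourierCoeff f n := by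
  have h := fourierBasis_repr (T := 1) f n
  rw [← h, HilbertBasis.repr_apply_apply, coe_fourierBasis]

theorem mem_Hardy {f : L2T} : f ∈ Hardy ↔ ∀ n : ℤ, n < 0 → fourierCoeff f n = 0 := by
  unfold Hardy
  constructor
  · intro h n hn
    rw [← inner_fourierLp]
    exact (Submodule.mem_orthogonal _ _).1 h _ (Submodule.subset_span ⟨n, hn, rfl⟩)
  · intro h
    rw [Submodule.mem_orthogonal]
    intro u hu
    induction hu using Submodule.span_induction with
    | mem x hx =>
      obtain ⟨n, hn, rfl⟩ := hx
      change ⟪(fourierLp 2 n : L2T), f⟫_ℂ = 0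
      rw [inner_fourierLp]
      exact h n hn
    | zero => exact inner_zero_left _
    | add x y _ _ hx hy => rw [inner_add_left, hx, hy, add_zero]
    | smul a x _ hx => rw [inner_smul_left, hx, mul_zero]

theorem isClosed_Hardy : IsClosed (Hardy : Set L2T) := Submodule.isClosed_orthogonal _

theorem fourierLp_mem_Hardy {n : ℤ} (hn : 0 ≤ n) : (fourierLp 2 n : L2T) ∈ Hardy := by
  rw [mem_Hardy]
  intro m hm
  rw [← inner_fourierLp]
  have h := (orthonormal_fourier (T := 1))
  rw [orthonormal_iff_ite] at h
  rw [h m n, if_neg (by omega)]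

end TransAlg
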